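import Pool.Agent.Helper34.AD.Defs

/-!
Adaptive randomised algorithms with zero tests (MP_b6562f_lc): gadgets with cells whose choices are
the words of a code `w : K → Fin l → Q`.
-/

set_option autoImplicit false
set_option linter.unusedSectionVars false

namespace Pool.AD

open Finset hiding sup

/-- choices for one cell: the index of a code word for every half block -/
abbrev Kw (D : ℕ) (K : Type) := Fin D × Bool → K

/-- choices for all cells -/
abbrev Kh (J D : ℕ) (K : Type) := Fin J → Kw D K

section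
variable {D l B : ℕ} {K Q : Type} [Fintype Q] [DecidableEq Q] [DecidableEq K]

/-- the chosen letters -/
def Mk (B : ℕ) (w : K → Fin l → Q) (c : Kw D K) :
    Finset (((Fin D × Bool) × Fin l) × (Q × Fin B)) :=
  Finset.univ.filter fun x => x.2.1 = w (c x.1.1) x.1.2

theorem mem_Mk (w : K → Fin l → Q) (c : Kw D K) (x : ((Fin D × Bool) × Fin l) × (Q × Fin B)) :
    x ∈ Mk B w c ↔ x.2.1 = w (c x.1.1) x.1.2 := by
  simp [Mk]

/-- the chosen derivative elements -/
def Yk (c : Kw D K) : Finset (Fin D × K × K) :=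
  Finset.univ.image fun b => (b, c (b, false), c (b, true))

theorem mem_Yk (c : Kw D K) (y : Fin D × K × K) :
    y ∈ Yk c ↔ ∃ b, y = (b, c (b, false), c (b, true)) := by
  simp only [Yk, Finset.mem_image, Finset.mem_univ, true_and]
  exact ⟨fun ⟨b, hb⟩ => ⟨b, hb.symm⟩, fun ⟨b, hb⟩ => ⟨b, hb.symm⟩⟩

theorem card_Yk (c : Kw D K) : (Yk c).card = D := by
  rw [Yk, Finset.card_image_of_injective, Finset.card_univ, Fintype.card_fin]
  intro b b' h
  exact (Prod.mk.inj h).1

end

/-- A gadget with `J` cells of `D` blocks; the choice of a half block is a word of `l` letters;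
`B` copies of every letter. For every choice a chain of inputs with the property; the step `j` of
the chain switches on the cell `j`. -/
structure CodeGadget {V : Type} [DecidableEq V] (P : Finset V → Prop) (J D l B : ℕ)
    {K Q : Type} [Fintype Q] [DecidableEq Q] [DecidableEq K] (w : K → Fin l → Q) where
  /-- the chain of inputs -/
  S : Kh J D K → ℕ → Finset V
  /-- alive elements of the cells -/
  X : Fin J → ((Fin D × Bool) × Fin l) × (Q × Fin B) → V
  /-- derivative elements of the cells -/
  Y : Fin J → Fin D × K × K → V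
  /-- free elements for the cell `j`; they depend on the choices of the other cells only -/
  Z : Fin J → Kh J D K → Finset V
  mono : ∀ c i, S c i ⊆ S c (i + 1)
  inj : ∀ j, Function.Injective (Sum.elim (X j) (Y j))
  XZ : ∀ j c x, X j x ∉ Z j c
  YZ : ∀ j c y, Y j y ∉ Z j c
  Zc : ∀ j c c', (∀ i, i ≠ j → c i = c' i) → Z j c = Z j c'
  yes : ∀ c i, i ≤ J → P (S c i)
  no : ∀ c (j : Fin J), ∀ x ∈ Mk B w (c j), ¬ P (S c (j + 1) \ {X j x})
  low : ∀ c (j : Fin J), ∀ e ∈ S c j, e ∈ Z j c ∨ (∃ x ∈ Mk B w (c j), e = X j x) ∨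
    ∃ y ∈ Yk (c j), e = Y j y
  high : ∀ c (j : Fin J) e, (e ∈ Z j c ∨ (∃ x, e = X j x) ∨ ∃ y ∈ Yk (c j), e = Y j y) →
    e ∈ S c (j + 1)

end Pool.AD
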