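import Pool.Agent.Helper34.AD.SatSym
import Pool.Agent.Helper10.AD.Cell
import Pool.Agent.Helper28.AD.Prod

/-!
Adaptive randomised algorithms with zero tests (MP_b6562f_lc): averaging over the automorphisms of
the property; the random gadget.
-/

set_option autoImplicit false
set_option linter.unusedSectionVars false

namespace Pool.AD

open Finset hiding sup
open MvPolynomial Pool.SDL Pool.Agent.SDet Pool.Agent.Helper76 Pool.Agent.Helper76.CDET Pool.GT
open Pool.RT (Pr Pr_eq)
open scoped BigOperators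

section act

variable {V : Type} [DecidableEq V]

theorem mem_AutP {P : Finset V → Prop} (g : Equiv.Perm V) :
    g ∈ AutP P ↔ ∀ S, P (S.image g) ↔ P S := Iff.rfl

/-- an automorphism of the property applied to a gadget -/
def CellGadget.act {P : Finset V → Prop} {J D l B : ℕ} (G : CellGadget P J D l B)
    (g : Equiv.Perm V) (hg : g ∈ AutP P) : CellGadget P J D l B where
  S := fun c i => (G.S c i).image g
  X := fun j x => g (G.X j x)
  Y := fun j y => g (G.Y j y)
  Z := fun j c => (G.Z j c).image g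
  mono := fun c i => Finset.image_subset_image (G.mono c i)
  inj := by
    intro j a b hab
    apply G.inj j
    rcases a with a | a <;> rcases b with b | b <;> simpa using hab
  XZ := by
    intro j c x hx
    rw [g.injective.mem_finset_image] at hx
    exact G.XZ j c x hx
  YZ := by
    intro j c y hy
    rw [g.injective.mem_finset_image] at hy
    exact G.YZ j c y hy
  Zc := fun j c c' h => by rw [G.Zc j c c' h]
  yes := fun c i hi => (hg _).2 (G.yes c i hi)
  no := by
    intro c j x hx hP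
    apply G.no c j x hx
    rw [← hg]
    rwa [Finset.image_sdiff _ _ g.injective, Finset.image_singleton]
  low := by
    intro c j e he
    obtain ⟨e', he', rfl⟩ := Finset.mem_image.1 he
    rcases G.low c j e' he' with h | ⟨x, hx, rfl⟩ | ⟨y, hy, rfl⟩
    · exact Or.inl (Finset.mem_image_of_mem _ h)
    · exact Or.inr (Or.inl ⟨x, hx, rfl⟩)
    · exact Or.inr (Or.inr ⟨y, hy, rfl⟩)
  high := by
    rintro c j e (h | ⟨x, rfl⟩ | ⟨y, hy, rfl⟩)
    · obtain ⟨e', he', rfl⟩ := Finset.mem_image.1 h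
      exact Finset.mem_image_of_mem _ (G.high c j e' (Or.inl he'))
    · exact Finset.mem_image_of_mem _ (G.high c j _ (Or.inr (Or.inl ⟨x, rfl⟩)))
    · exact Finset.mem_image_of_mem _ (G.high c j _ (Or.inr (Or.inr ⟨y, hy, rfl⟩)))

end act

section avg
variable {V Ya : Type} [DecidableEq V] [Fintype V]

/-- averaging over a group, for an orbit of the stabilizer of `S` -/
theorem avg_orbit {Γ : Type} [Group Γ] [Fintype Γ] [MulAction Γ V]
    (ν : Finset V → (V ⊕ Ya) →₀ ℕ) {m : ℕ} (hdeg : ∀ A, ∑ e, ν A (Sum.inl e) ≤ m)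
    (S O T : Finset V) (hT : T ⊆ O)
    (htr : ∀ e ∈ O, ∀ e' ∈ O, ∃ h : Γ, (S.image fun x => h • x) = S ∧ h • e = e') :
    O.card * ∑ g : Γ, ∑ e ∈ T, ν (S.image fun e => g • e) (Sum.inl (g • e)) ≤
      Fintype.card Γ * (T.card * m) := by
  classical
  have himg : ∀ (g h : Γ) (A : Finset V), ((A.image fun e => h • e).image fun e => g • e) =
      A.image fun e => (g * h) • e := by
    intro g h A
    rw [Finset.image_image]
    refine Finset.image_congr fun e _ => ?_
    simp [mul_smul]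
  set a : Γ → V → ℕ := fun g e => ν (S.image fun e => g • e) (Sum.inl (g • e)) with ha
  have hsym : ∀ e ∈ O, ∀ e' ∈ O, ∑ g, a g e' = ∑ g, a g e := by
    intro e he e' he'
    obtain ⟨h, hh, hhe⟩ := htr e he e' he'
    rw [← Equiv.sum_comp (Equiv.mulRight h) fun g => a g e]
    refine Finset.sum_congr rfl fun g _ => ?_
    rw [ha]
    simp only [Equiv.coe_mulRight]
    rw [mul_smul, hhe, ← himg, hh]
  have hdegg : ∀ g : Γ, ∑ e ∈ O, a g e ≤ m := by
    intro g
    refine le_trans ?_ (hdeg (S.image fun e => g • e))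
    rw [ha]
    simp only
    rw [← Finset.sum_image (f := fun x => ν (S.image fun e => g • e) (Sum.inl x))
      (g := fun e => g • e) (fun x _ y _ hxy => by simpa using hxy)]
    exact Finset.sum_le_sum_of_subset (Finset.subset_univ _)
  change O.card * ∑ g, ∑ e ∈ T, a g e ≤ Fintype.card Γ * (T.card * m)
  rcases O.eq_empty_or_nonempty with h0 | ⟨e0, he0⟩
  · rw [h0, Finset.card_empty, zero_mul]
    exact Nat.zero_le _
  · have h1 : ∀ e ∈ O, ∑ g, a g e = ∑ g, a g e0 := fun e he => hsym e0 he0 e he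
    have h2 : O.card * ∑ g, a g e0 ≤ Fintype.card Γ * m := by
      calc O.card * ∑ g, a g e0 = ∑ e ∈ O, ∑ g, a g e := by
            rw [Finset.sum_congr rfl h1, Finset.sum_const, smul_eq_mul]
        _ = ∑ g, ∑ e ∈ O, a g e := Finset.sum_comm
        _ ≤ ∑ _g : Γ, m := Finset.sum_le_sum fun g _ => hdegg g
        _ = Fintype.card Γ * m := by rw [Finset.sum_const, Finset.card_univ, smul_eq_mul]
    calc O.card * ∑ g, ∑ e ∈ T, a g e = O.card * ∑ e ∈ T, ∑ g, a g e := by
          rw [Finset.sum_comm]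
      _ = T.card * (O.card * ∑ g, a g e0) := by
          rw [Finset.sum_congr rfl fun e he => h1 e (hT he), Finset.sum_const, smul_eq_mul]
          ring
      _ ≤ T.card * (Fintype.card Γ * m) := Nat.mul_le_mul_left _ h2
      _ = Fintype.card Γ * (T.card * m) := by ring

end avg

section
variable {F : Type} [Field F] {V Ya : Type} [DecidableEq V] [Fintype V]

/-- the symmetry of a gadget: the derivative elements of every cell lie in a large orbit -/
def SymGadget {P : Finset V → Prop} {J D l B : ℕ} (G : CellGadget P J D l B) (N0 : ℕ) : Prop :=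
  ∀ (c : Ch J D l) (j : Fin J), ∃ O : Finset V, N0 ≤ O.card ∧
    (∀ y ∈ Yw (c j), G.Y j y ∈ O) ∧
    ∀ e ∈ O, ∀ e' ∈ O, ∃ g ∈ AutP P, (G.S c j).image g = G.S c j ∧ g e = e'

/-- THE RANDOM GADGET. The monomials of the product of the tests with answer yes have, with
probability `1 - 1/A`, degree at most `L` in the derivative elements of a given cell. -/
theorem random_gadget {Ω : Type} [Fintype Ω] (w : Ω → ℝ) (hw0 : ∀ i, 0 ≤ w i)
    (hw1 : ∑ i, w i = 1) {N : ℕ} (t : Ω → DT N) (f : Ω → Fin N → MvPolynomial (V ⊕ Ya) F)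
    (P : Finset V → Prop) (ε1 ε2 : ℝ)
    (hyes : ∀ S, P S → Pr w (fun ω => (t ω).eval (ans (f ω) S) = false) ≤ ε1)
    (hno : ∀ S, ¬ P S → Pr w (fun ω => (t ω).eval (ans (f ω) S) = true) ≤ ε2)
    {dg : ℕ} (hdg : ∀ ω a, ∀ μ ∈ (∏ v ∈ (t ω).ones a, f ω v).support, ∑ e, μ (Sum.inl e) ≤ dg)
    {J D l B : ℕ} (G : CellGadget P J D l B) {N0 : ℕ} (hN0 : 1 ≤ N0) (hG : SymGadget G N0)
    (A L : ℕ) (hA : 1 ≤ A) (hL1 : 1 ≤ L) (hL : A * (D * dg) ≤ N0 * L) :
    ∃ (I : Type) (_ : Fintype I) (w' : I → ℝ) (ρ : I → Ω) (G' : I → CellGadget P J D l B)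
      (ν' : I → Finset V → (V ⊕ Ya) →₀ ℕ), (∀ i, 0 ≤ w' i) ∧ (∑ i, w' i = 1) ∧
      (∀ (c : Ch J D l) (j : ℕ), j ≤ J →
        Pr w' (fun i => (t (ρ i)).eval (ans (f (ρ i)) ((G' i).S c j)) = false) ≤ ε1) ∧
      (∀ (c : Ch J D l) (j : Fin J), ∀ x ∈ Mw B (c j),
        Pr w' (fun i => (t (ρ i)).eval (ans (f (ρ i))
          ((G' i).S c (j.1 + 1) \ {(G' i).X j x})) = true) ≤ ε2) ∧
      (∀ i S, ν' i S ∈ (∏ v ∈ (t (ρ i)).ones (ans (f (ρ i)) S), f (ρ i) v).support ∧
        CDET.sup (ν' i S) ⊆ S) ∧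
      ∀ (c : Ch J D l) (j : Fin J),
        Pr w' (fun i => L < ∑ y, ν' i ((G' i).S c j.1) (Sum.inl ((G' i).Y j y))) ≤ 1 / A := by
  classical
  have : Fintype (AutP P) := Fintype.ofFinite _
  -- the chosen monomials
  have hex : ∀ (ω : Ω) (S : Finset V),
      ∃ μ ∈ (∏ v ∈ (t ω).ones (ans (f ω) S), f ω v).support, CDET.sup μ ⊆ S := by
    intro ω S
    refine exists_sup (∏ v ∈ (t ω).ones (ans (f ω) S), f ω v)
      (fun S' => restr S' (∏ v ∈ (t ω).ones (ans (f ω) S), f ω v) ≠ 0) (fun _ => Iff.rfl) S ?_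
    rw [restr_prod_ne_zero]
    exact fun v hv => DT.ones_pos _ _ v hv
  choose ν hν1 hν2 using hex
  have hΓ0 : Nonempty (AutP P) := ⟨1⟩
  have hsm : ∀ (g : AutP P) (e : V), g • e = (g : Equiv.Perm V) e := fun g e => rfl
  refine ⟨Ω × AutP P, inferInstance, wg w (AutP P), Prod.fst, fun i => G.act i.2.1 i.2.2,
    fun i S => ν i.1 S, wg_nonneg w hw0, wg_sum w hw1, ?_, ?_, fun i S => ⟨hν1 _ _, hν2 _ _⟩, ?_⟩
  · intro c j hj
    refine wg_pr w (fun i : Ω × AutP P =>
      (t i.1).eval (ans (f i.1) ((G.act i.2.1 i.2.2).S c j)) = false) ε1 fun g => ?_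
    exact hyes ((G.act g.1 g.2).S c j) ((G.act g.1 g.2).yes c j hj)
  · intro c j x hx
    refine wg_pr w (fun i : Ω × AutP P => (t i.1).eval (ans (f i.1)
      ((G.act i.2.1 i.2.2).S c (j.1 + 1) \ {(G.act i.2.1 i.2.2).X j x})) = true) ε2 fun g => ?_
    exact hno ((G.act g.1 g.2).S c (j.1 + 1) \ {(G.act g.1 g.2).X j x})
      ((G.act g.1 g.2).no c j x hx)
  · intro c j
    obtain ⟨O, hO1, hO2, hO3⟩ := hG c j
    set T : Finset V := (Yw (c j)).image (G.Y j) with hT
    have hYinj : Function.Injective (G.Y j) := fun a b h => by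
      have hinj := G.inj j
      have := @hinj (Sum.inr a) (Sum.inr b) h
      simpa using this
    have hTO : T ⊆ O := by
      intro e he
      obtain ⟨y, hy, rfl⟩ := Finset.mem_image.1 he
      exact hO2 y hy
    have hTD : T.card = D := by
      rw [hT, Finset.card_image_of_injective _ hYinj, card_Yw]
    have htr : ∀ e ∈ O, ∀ e' ∈ O, ∃ h : AutP P,
        ((G.S c j).image fun x => h • x) = G.S c j ∧ h • e = e' := by
      intro e he e' he'
      obtain ⟨g, hg, h1, h2⟩ := hO3 e he e' he'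
      exact ⟨⟨g, hg⟩, h1, h2⟩
    have hsum : ∀ (ω : Ω) (g : AutP P),
        ∑ y, ν ω ((G.act g.1 g.2).S c j.1) (Sum.inl ((G.act g.1 g.2).Y j y)) =
        ∑ e ∈ T, ν ω ((G.S c j).image fun e => g • e) (Sum.inl (g • e)) := by
      intro ω g
      rw [hT, Finset.sum_image fun x _ y _ h => hYinj h]
      symm
      refine Finset.sum_subset (Finset.subset_univ _) ?_
      intro y _ hy
      by_contra h4
      apply hy
      have h5 : (G.act g.1 g.2).Y j y ∈ CDET.sup (ν ω ((G.act g.1 g.2).S c j.1)) := by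
        rw [CDET.sup, Finset.mem_filter]
        exact ⟨Finset.mem_univ _, h4⟩
      have h6 := (G.act g.1 g.2).low c j _ (hν2 _ _ h5)
      have hinj := (G.act g.1 g.2).inj j
      rcases h6 with h7 | ⟨x, _, h7⟩ | ⟨y', hy', h7⟩
      · exact absurd h7 ((G.act g.1 g.2).YZ j c y)
      · have := @hinj (Sum.inr y) (Sum.inl x) h7
        simp at this
      · have := @hinj (Sum.inr y) (Sum.inr y') h7
        simp only [Sum.inr.injEq] at this
        rw [this]
        exact hy'
    have hdegA : ∀ ω (S : Finset V), ∑ e, ν ω S (Sum.inl e) ≤ dg := fun ω S =>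
      hdg ω _ _ (hν1 ω S)
    have hNpos : (0 : ℝ) < N0 := by exact_mod_cast hN0
    have havg : ∑ i : Ω × AutP P, wg w (AutP P) i *
        ((∑ y, ν i.1 ((G.act i.2.1 i.2.2).S c j.1) (Sum.inl ((G.act i.2.1 i.2.2).Y j y)) : ℕ) : ℝ) ≤
        D * dg / N0 := by
      refine wg_avg w hw0 hw1 (fun i : Ω × AutP P =>
        ∑ y, ν i.1 ((G.act i.2.1 i.2.2).S c j.1) (Sum.inl ((G.act i.2.1 i.2.2).Y j y)))
        (D * dg / N0) fun ω => ?_
      have h5 := avg_orbit (Γ := AutP P) (ν ω) (hdegA ω) (G.S c j) O T hTO htr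
      rw [hTD] at h5
      have h6 : N0 * ∑ g : AutP P,
          ∑ y, ν ω ((G.act g.1 g.2).S c j.1) (Sum.inl ((G.act g.1 g.2).Y j y)) ≤
          Fintype.card (AutP P) * (D * dg) := by
        rw [Finset.sum_congr rfl fun g _ => hsum ω g]
        exact (Nat.mul_le_mul_right _ hO1).trans h5
      have h7 : (N0 : ℝ) * ∑ g : AutP P,
          ((∑ y, ν ω ((G.act g.1 g.2).S c j.1) (Sum.inl ((G.act g.1 g.2).Y j y)) : ℕ) : ℝ) ≤
          Fintype.card (AutP P) * (D * dg) := by
        exact_mod_cast h6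
      rw [← mul_div_assoc, le_div_iff₀ hNpos, mul_comm]
      exact h7
    rw [Pr_eq]
    have hLpos : (0 : ℝ) < L := by exact_mod_cast hL1
    have hApos : (0 : ℝ) < A := by exact_mod_cast hA
    have h3 := Pool.RT.markov (wg w (AutP P)) (wg_nonneg w hw0) (fun i : Ω × AutP P =>
      ∑ y, ν i.1 ((G.act i.2.1 i.2.2).S c j.1) (Sum.inl ((G.act i.2.1 i.2.2).Y j y)))
      (D * dg / N0) L hLpos havg
    have h4 : (D * dg / N0 : ℝ) / L ≤ 1 / A := by
      rw [div_div, div_le_div_iff₀ (by positivity) hApos]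
      have : (A * (D * dg) : ℝ) ≤ N0 * L := by exact_mod_cast hL
      linarith
    refine le_trans (le_of_eq ?_) (h3.trans h4)
    refine Finset.sum_congr rfl fun i _ => ?_
    simp only [Nat.cast_lt]

end

end Pool.AD
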