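import Pool.Agent.Helper34.AD.Avg

/-!
Adaptive randomised algorithms with zero tests (MP_b6562f_lc): the sizes of the symmetric gadget
for `k`-SAT.
-/

set_option autoImplicit false

namespace Pool.AD

open Finset Pool.SatDet Pool.Agent.Helper41.SAT

theorem choose_big {n M k : ℕ} (h : n ≤ 2 * M) (hk : 4 * k ≤ n) :
    n ^ k ≤ 4 ^ k * k.factorial * M.choose k := by
  have h1 : (M + 1 - k) ^ k ≤ k.factorial * M.choose k := by
    have := Nat.pow_sub_le_descFactorial M k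
    rwa [Nat.descFactorial_eq_factorial_mul_choose] at this
  have h2 : n ≤ 4 * (M + 1 - k) := by omega
  calc n ^ k ≤ (4 * (M + 1 - k)) ^ k := Nat.pow_le_pow_left h2 _
    _ = 4 ^ k * (M + 1 - k) ^ k := mul_pow _ _ _
    _ ≤ 4 ^ k * (k.factorial * M.choose k) := Nat.mul_le_mul_left _ h1
    _ = 4 ^ k * k.factorial * M.choose k := by ring

/-- THE SYMMETRIC GADGET for `k`-SAT, `k = d + 2`, with `J` cells of `D` blocks -/
theorem exists_cells_sat (d : ℕ) (hd : 1 ≤ d) : ∃ K : ℕ, 1 ≤ K ∧ ∀ n J D l L : ℕ, 1 ≤ J → 1 ≤ D →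
    K * (J * D * (2 ^ l + l * L)) ≤ n →
    ∃ (B N0 : ℕ) (G : CellGadget (SatP n (d + 2)) J D l B),
      L * n ^ (d + 1) ≤ K * B ∧ 1 ≤ N0 ∧ n ^ (d + 2) ≤ K * N0 ∧ SymGadget G N0 := by
  set W := 4 ^ (d + 2) * (d + 2).factorial with hW
  have hW1 : 1 ≤ W := by
    have := Nat.factorial_pos (d + 2)
    exact Nat.succ_le_of_lt (by positivity)
  refine ⟨16 * (d + 2) * W, Nat.succ_le_of_lt (by positivity), ?_⟩
  intro n J D l L hJ hD hn
  have h2l : 1 ≤ 2 ^ l := Nat.one_le_two_pow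
  set Q := J * D * (2 ^ l + l * L) with hQ
  have hJD : 1 ≤ J * D := Nat.mul_pos hJ hD
  have hQ1 : 1 ≤ Q := Nat.succ_le_of_lt (Nat.mul_pos hJD (by omega))
  have hJDQ : J * D ≤ Q := Nat.le_mul_of_pos_right _ (by omega)
  have hn16 : 16 * Q * (d + 2) ≤ n := by
    refine le_trans ?_ hn
    calc 16 * Q * (d + 2) = 16 * (d + 2) * 1 * Q := by ring
      _ ≤ 16 * (d + 2) * W * Q := Nat.mul_le_mul_right _ (Nat.mul_le_mul_left _ hW1)
  have hn16' : 16 * Q ≤ n := le_trans (Nat.le_mul_of_pos_right _ (by omega)) hn16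
  have hn16d : 16 * (d + 2) ≤ n := le_trans (by nlinarith) hn16
  have hU : 2 * (J * D) * (2 * 2 ^ l + l * L) ≤ 4 * Q := by
    calc 2 * (J * D) * (2 * 2 ^ l + l * L) ≤ 2 * (J * D) * (2 * (2 ^ l + l * L)) :=
          Nat.mul_le_mul_left _ (by omega)
      _ = 4 * Q := by rw [hQ]; ring
  obtain ⟨R, hR⟩ : ∃ R, 2 * (J * D) * (2 * 2 ^ l + l * L) + R = n :=
    ⟨n - 2 * (J * D) * (2 * 2 ^ l + l * L), by omega⟩
  have hdQ : 16 * (d * (J * D)) ≤ n := by
    calc 16 * (d * (J * D)) ≤ 16 * ((d + 2) * Q) :=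
          Nat.mul_le_mul_left _ (Nat.mul_le_mul (by omega) hJDQ)
      _ = 16 * Q * (d + 2) := by ring
      _ ≤ n := hn16
  have hdR : (J * D) * d ≤ R := by
    rw [mul_comm]
    omega
  have hcard : Fintype.card (Gv (J * D) l L R) = Fintype.card (Fin n) := by
    rw [card_Gv, hR, Fintype.card_fin]
  obtain ⟨ε⟩ : Nonempty (Gv (J * D) l L R ≃ Fin n) := ⟨Fintype.equivOfCardEq hcard⟩
  let P : Fin (J * D) → {P : Finset (Fin R) // P.card = d} := fun b =>
    ⟨blk R d b, card_blk hd hdR b b.2⟩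
  have hP : ∀ b b', b ≠ b' → Disjoint (P b).1 (P b').1 := by
    intro b b' hbb
    rw [Finset.disjoint_left]
    intro i hi hi'
    simp only [P, blk, Finset.mem_filter, Finset.mem_univ, true_and] at hi hi'
    exact hbb (Fin.ext (hi.symm.trans hi'))
  refine ⟨L * R.choose (d + 1), (R - d * (J * D)).choose (d + 2),
    SAT.satGadget ε P hd (by omega), ?_, ?_, ?_, ?_⟩
  · have h3 := choose_big (n := n) (M := R) (k := d + 1) (by omega) (by omega)
    have h4 : 4 ^ (d + 1) * (d + 1).factorial ≤ W := by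
      rw [hW]
      exact Nat.mul_le_mul (Nat.pow_le_pow_right (by norm_num) (by omega))
        (Nat.factorial_le (by omega))
    calc L * n ^ (d + 1) ≤ L * (4 ^ (d + 1) * (d + 1).factorial * R.choose (d + 1)) :=
          Nat.mul_le_mul_left _ h3
      _ ≤ L * (W * R.choose (d + 1)) := Nat.mul_le_mul_left _ (Nat.mul_le_mul_right _ h4)
      _ = 1 * (W * (L * R.choose (d + 1))) := by ring
      _ ≤ 16 * (d + 2) * (W * (L * R.choose (d + 1))) := Nat.mul_le_mul_right _ (by omega)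
      _ = 16 * (d + 2) * W * (L * R.choose (d + 1)) := by ring
  · exact Nat.choose_pos (by omega)
  · have h3 := choose_big (n := n) (M := R - d * (J * D)) (k := d + 2) (by omega) (by omega)
    calc n ^ (d + 2) ≤ W * (R - d * (J * D)).choose (d + 2) := h3
      _ = 1 * (W * (R - d * (J * D)).choose (d + 2)) := by ring
      _ ≤ 16 * (d + 2) * (W * (R - d * (J * D)).choose (d + 2)) :=
          Nat.mul_le_mul_right _ (by omega)
      _ = 16 * (d + 2) * W * (R - d * (J * D)).choose (d + 2) := by ring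
  · intro c j
    obtain ⟨h1, h2, h3⟩ := SAT.orbit ε P hP c j
    exact ⟨SAT.Ob ε P c j, SAT.card_Ob ε P c j, h1, h3⟩

end Pool.AD
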