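import Pool.Agent.Helper34.AD.SatKSym
import Pool.Agent.Helper34.AD.SatSize

/-!
Adaptive randomised algorithms with zero tests (MP_b6562f_lc): averaging over the automorphisms of
the property for gadgets with code words; the sizes of the gadget for `k`-SAT.
-/

set_option autoImplicit false
set_option linter.unusedSectionVars false

namespace Pool.AD

open Finset hiding sup
open MvPolynomial Pool.SDL Pool.Agent.SDet Pool.Agent.Helper76 Pool.Agent.Helper76.CDET Pool.GT
open Pool.RT (Pr Pr_eq)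
open scoped BigOperators

section act

variable {V : Type} [DecidableEq V] {K Q : Type} [Fintype Q] [DecidableEq Q] [DecidableEq K]

/-- an automorphism of the property applied to a gadget -/
def CodeGadget.act {P : Finset V → Prop} {J D l B : ℕ} {w : K → Fin l → Q}
    (G : CodeGadget P J D l B w)
    (g : Equiv.Perm V) (hg : g ∈ AutP P) : CodeGadget P J D l B w where
  S := fun c i => (G.S c i).image g
  X := fun j x => g (G.X j x)
  Y := fun j y => g (G.Y j y)
  Z := fun j c => (G.Z j c).image g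
  mono := fun c i => Finset.image_subset_image (G.mono c i)
  inj := by
    intro j a b hab
    apply G.inj j
    rcases a with a | a <;> rcases b with b | b <;> simpa using hab
  XZ := by
    intro j c x hx
    rw [g.injective.mem_finset_image] at hx
    exact G.XZ j c x hx
  YZ := by
    intro j c y hy
    rw [g.injective.mem_finset_image] at hy
    exact G.YZ j c y hy
  Zc := fun j c c' h => by rw [G.Zc j c c' h]
  yes := fun c i hi => (hg _).2 (G.yes c i hi)
  no := by
    intro c j x hx hP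
    apply G.no c j x hx
    rw [← hg]
    rwa [Finset.image_sdiff _ _ g.injective, Finset.image_singleton]
  low := by
    intro c j e he
    obtain ⟨e', he', rfl⟩ := Finset.mem_image.1 he
    rcases G.low c j e' he' with h | ⟨x, hx, rfl⟩ | ⟨y, hy, rfl⟩
    · exact Or.inl (Finset.mem_image_of_mem _ h)
    · exact Or.inr (Or.inl ⟨x, hx, rfl⟩)
    · exact Or.inr (Or.inr ⟨y, hy, rfl⟩)
  high := by
    rintro c j e (h | ⟨x, rfl⟩ | ⟨y, hy, rfl⟩)
    · obtain ⟨e', he', rfl⟩ := Finset.mem_image.1 h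
      exact Finset.mem_image_of_mem _ (G.high c j e' (Or.inl he'))
    · exact Finset.mem_image_of_mem _ (G.high c j _ (Or.inr (Or.inl ⟨x, rfl⟩)))
    · exact Finset.mem_image_of_mem _ (G.high c j _ (Or.inr (Or.inr ⟨y, hy, rfl⟩)))

end act

section
variable {F : Type} [Field F] {V Ya : Type} [DecidableEq V] [Fintype V]
variable {K Q : Type} [Fintype Q] [DecidableEq Q] [DecidableEq K] [Fintype K]

/-- the symmetry of a gadget: the derivative elements of every cell lie in a large orbit -/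
def SymCode {P : Finset V → Prop} {J D l B : ℕ} {w : K → Fin l → Q}
    (G : CodeGadget P J D l B w) (N0 : ℕ) : Prop :=
  ∀ (c : Kh J D K) (j : Fin J), ∃ O : Finset V, N0 ≤ O.card ∧
    (∀ y ∈ Yk (c j), G.Y j y ∈ O) ∧
    ∀ e ∈ O, ∀ e' ∈ O, ∃ g ∈ AutP P, (G.S c j).image g = G.S c j ∧ g e = e'

/-- THE RANDOM GADGET with code words. The monomials of the product of the tests with answer yes
have, with probability `1 - 1/A`, degree at most `L` in the derivative elements of a given cell. -/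
theorem random_code {Ω : Type} [Fintype Ω] (w : Ω → ℝ) (hw0 : ∀ i, 0 ≤ w i)
    (hw1 : ∑ i, w i = 1) {N : ℕ} (t : Ω → DT N) (f : Ω → Fin N → MvPolynomial (V ⊕ Ya) F)
    (P : Finset V → Prop) (ε1 ε2 : ℝ)
    (hyes : ∀ S, P S → Pr w (fun ω => (t ω).eval (ans (f ω) S) = false) ≤ ε1)
    (hno : ∀ S, ¬ P S → Pr w (fun ω => (t ω).eval (ans (f ω) S) = true) ≤ ε2)
    {dg : ℕ} (hdg : ∀ ω a, ∀ μ ∈ (∏ v ∈ (t ω).ones a, f ω v).support, ∑ e, μ (Sum.inl e) ≤ dg)
    {J D l B : ℕ} {wd : K → Fin l → Q} (G : CodeGadget P J D l B wd) {N0 : ℕ} (hN0 : 1 ≤ N0)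
    (hG : SymCode G N0) (A L : ℕ) (hA : 1 ≤ A) (hL1 : 1 ≤ L) (hL : A * (D * dg) ≤ N0 * L) :
    ∃ (I : Type) (_ : Fintype I) (w' : I → ℝ) (ρ : I → Ω) (G' : I → CodeGadget P J D l B wd)
      (ν' : I → Finset V → (V ⊕ Ya) →₀ ℕ), (∀ i, 0 ≤ w' i) ∧ (∑ i, w' i = 1) ∧
      (∀ (c : Kh J D K) (j : ℕ), j ≤ J →
        Pr w' (fun i => (t (ρ i)).eval (ans (f (ρ i)) ((G' i).S c j)) = false) ≤ ε1) ∧
      (∀ (c : Kh J D K) (j : Fin J), ∀ x ∈ Mk B wd (c j),
        Pr w' (fun i => (t (ρ i)).eval (ans (f (ρ i))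
          ((G' i).S c (j.1 + 1) \ {(G' i).X j x})) = true) ≤ ε2) ∧
      (∀ i S, ν' i S ∈ (∏ v ∈ (t (ρ i)).ones (ans (f (ρ i)) S), f (ρ i) v).support ∧
        CDET.sup (ν' i S) ⊆ S) ∧
      ∀ (c : Kh J D K) (j : Fin J),
        Pr w' (fun i => L < ∑ y, ν' i ((G' i).S c j.1) (Sum.inl ((G' i).Y j y))) ≤ 1 / A := by
  classical
  have : Fintype (AutP P) := Fintype.ofFinite _
  -- the chosen monomials
  have hex : ∀ (ω : Ω) (S : Finset V),
      ∃ μ ∈ (∏ v ∈ (t ω).ones (ans (f ω) S), f ω v).support, CDET.sup μ ⊆ S := by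
    intro ω S
    refine exists_sup (∏ v ∈ (t ω).ones (ans (f ω) S), f ω v)
      (fun S' => restr S' (∏ v ∈ (t ω).ones (ans (f ω) S), f ω v) ≠ 0) (fun _ => Iff.rfl) S ?_
    rw [restr_prod_ne_zero]
    exact fun v hv => DT.ones_pos _ _ v hv
  choose ν hν1 hν2 using hex
  have hΓ0 : Nonempty (AutP P) := ⟨1⟩
  refine ⟨Ω × AutP P, inferInstance, wg w (AutP P), Prod.fst, fun i => G.act i.2.1 i.2.2,
    fun i S => ν i.1 S, wg_nonneg w hw0, wg_sum w hw1, ?_, ?_, fun i S => ⟨hν1 _ _, hν2 _ _⟩, ?_⟩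
  · intro c j hj
    refine wg_pr w (fun i : Ω × AutP P =>
      (t i.1).eval (ans (f i.1) ((G.act i.2.1 i.2.2).S c j)) = false) ε1 fun g => ?_
    exact hyes ((G.act g.1 g.2).S c j) ((G.act g.1 g.2).yes c j hj)
  · intro c j x hx
    refine wg_pr w (fun i : Ω × AutP P => (t i.1).eval (ans (f i.1)
      ((G.act i.2.1 i.2.2).S c (j.1 + 1) \ {(G.act i.2.1 i.2.2).X j x})) = true) ε2 fun g => ?_
    exact hno ((G.act g.1 g.2).S c (j.1 + 1) \ {(G.act g.1 g.2).X j x})
      ((G.act g.1 g.2).no c j x hx)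
  · intro c j
    obtain ⟨O, hO1, hO2, hO3⟩ := hG c j
    set T : Finset V := (Yk (c j)).image (G.Y j) with hT
    have hYinj : Function.Injective (G.Y j) := fun a b h => by
      have hinj := G.inj j
      have := @hinj (Sum.inr a) (Sum.inr b) h
      simpa using this
    have hTO : T ⊆ O := by
      intro e he
      obtain ⟨y, hy, rfl⟩ := Finset.mem_image.1 he
      exact hO2 y hy
    have hTD : T.card = D := by
      rw [hT, Finset.card_image_of_injective _ hYinj, card_Yk]
    have htr : ∀ e ∈ O, ∀ e' ∈ O, ∃ h : AutP P,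
        ((G.S c j).image fun x => h • x) = G.S c j ∧ h • e = e' := by
      intro e he e' he'
      obtain ⟨g, hg, h1, h2⟩ := hO3 e he e' he'
      exact ⟨⟨g, hg⟩, h1, h2⟩
    have hsum : ∀ (ω : Ω) (g : AutP P),
        ∑ y, ν ω ((G.act g.1 g.2).S c j.1) (Sum.inl ((G.act g.1 g.2).Y j y)) =
        ∑ e ∈ T, ν ω ((G.S c j).image fun e => g • e) (Sum.inl (g • e)) := by
      intro ω g
      rw [hT, Finset.sum_image fun x _ y _ h => hYinj h]
      symm
      refine Finset.sum_subset (Finset.subset_univ _) ?_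
      intro y _ hy
      by_contra h4
      apply hy
      have h5 : (G.act g.1 g.2).Y j y ∈ CDET.sup (ν ω ((G.act g.1 g.2).S c j.1)) := by
        rw [CDET.sup, Finset.mem_filter]
        exact ⟨Finset.mem_univ _, h4⟩
      have h6 := (G.act g.1 g.2).low c j _ (hν2 _ _ h5)
      have hinj := (G.act g.1 g.2).inj j
      rcases h6 with h7 | ⟨x, _, h7⟩ | ⟨y', hy', h7⟩
      · exact absurd h7 ((G.act g.1 g.2).YZ j c y)
      · have := @hinj (Sum.inr y) (Sum.inl x) h7
        simp at this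
      · have := @hinj (Sum.inr y) (Sum.inr y') h7
        simp only [Sum.inr.injEq] at this
        rw [this]
        exact hy'
    have hdegA : ∀ ω (S : Finset V), ∑ e, ν ω S (Sum.inl e) ≤ dg := fun ω S =>
      hdg ω _ _ (hν1 ω S)
    have hNpos : (0 : ℝ) < N0 := by exact_mod_cast hN0
    have havg : ∑ i : Ω × AutP P, wg w (AutP P) i *
        ((∑ y, ν i.1 ((G.act i.2.1 i.2.2).S c j.1) (Sum.inl ((G.act i.2.1 i.2.2).Y j y)) : ℕ) : ℝ) ≤
        D * dg / N0 := by
      refine wg_avg w hw0 hw1 (fun i : Ω × AutP P =>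
        ∑ y, ν i.1 ((G.act i.2.1 i.2.2).S c j.1) (Sum.inl ((G.act i.2.1 i.2.2).Y j y)))
        (D * dg / N0) fun ω => ?_
      have h5 := avg_orbit (Γ := AutP P) (ν ω) (hdegA ω) (G.S c j) O T hTO htr
      rw [hTD] at h5
      have h6 : N0 * ∑ g : AutP P,
          ∑ y, ν ω ((G.act g.1 g.2).S c j.1) (Sum.inl ((G.act g.1 g.2).Y j y)) ≤
          Fintype.card (AutP P) * (D * dg) := by
        rw [Finset.sum_congr rfl fun g _ => hsum ω g]
        exact (Nat.mul_le_mul_right _ hO1).trans h5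
      have h7 : (N0 : ℝ) * ∑ g : AutP P,
          ((∑ y, ν ω ((G.act g.1 g.2).S c j.1) (Sum.inl ((G.act g.1 g.2).Y j y)) : ℕ) : ℝ) ≤
          Fintype.card (AutP P) * (D * dg) := by
        exact_mod_cast h6
      rw [← mul_div_assoc, le_div_iff₀ hNpos, mul_comm]
      exact h7
    rw [Pr_eq]
    have hLpos : (0 : ℝ) < L := by exact_mod_cast hL1
    have hApos : (0 : ℝ) < A := by exact_mod_cast hA
    have h3 := Pool.RT.markov (wg w (AutP P)) (wg_nonneg w hw0) (fun i : Ω × AutP P =>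
      ∑ y, ν i.1 ((G.act i.2.1 i.2.2).S c j.1) (Sum.inl ((G.act i.2.1 i.2.2).Y j y)))
      (D * dg / N0) L hLpos havg
    have h4 : (D * dg / N0 : ℝ) / L ≤ 1 / A := by
      rw [div_div, div_le_div_iff₀ (by positivity) hApos]
      have : (A * (D * dg) : ℝ) ≤ N0 * L := by exact_mod_cast hL
      linarith
    refine le_trans (le_of_eq ?_) (h3.trans h4)
    refine Finset.sum_congr rfl fun i _ => ?_
    simp only [Nat.cast_lt]

end

section sizes

open Pool.SatDet

variable {K Q : Type} [Fintype Q] [DecidableEq Q] [DecidableEq K] [Fintype K]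

/-- THE SYMMETRIC GADGET for `k`-SAT, `k = d + 2`, with `J` cells of `D` blocks and code words -/
theorem exists_code_sat (d : ℕ) (hd : 1 ≤ d) : ∃ K0 : ℕ, 1 ≤ K0 ∧
    ∀ (K Q : Type) [Fintype Q] [DecidableEq Q] [DecidableEq K] [Fintype K] (n J D l L : ℕ)
      (w : K → Fin l → Q), 1 ≤ Fintype.card K → (∀ i a, ∃ k, w k i = a) → 1 ≤ J → 1 ≤ D →
    K0 * (J * D * (Fintype.card K + l * Fintype.card Q * L)) ≤ n →
    ∃ (B N0 : ℕ) (G : CodeGadget (SatP n (d + 2)) J D l B w),
      L * n ^ (d + 1) ≤ K0 * B ∧ 1 ≤ N0 ∧ n ^ (d + 2) ≤ K0 * N0 ∧ SymCode G N0 := by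
  set W := 4 ^ (d + 2) * (d + 2).factorial with hW
  have hW1 : 1 ≤ W := by
    have := Nat.factorial_pos (d + 2)
    exact Nat.succ_le_of_lt (by positivity)
  refine ⟨16 * (d + 2) * W, Nat.succ_le_of_lt (by positivity), ?_⟩
  intro K Q _ _ _ _ n J D l L w h2l hw hJ hD hn
  set M := Fintype.card K + l * Fintype.card Q * L with hM
  set U := J * D * M with hQ
  have hJD : 1 ≤ J * D := Nat.mul_pos hJ hD
  have hQ1 : 1 ≤ U := Nat.succ_le_of_lt (Nat.mul_pos hJD (by omega))
  have hJDQ : J * D ≤ U := Nat.le_mul_of_pos_right _ (by omega)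
  have hn16 : 16 * U * (d + 2) ≤ n := by
    refine le_trans ?_ hn
    calc 16 * U * (d + 2) = 16 * (d + 2) * 1 * U := by ring
      _ ≤ 16 * (d + 2) * W * U := Nat.mul_le_mul_right _ (Nat.mul_le_mul_left _ hW1)
  have hn16' : 16 * U ≤ n := le_trans (Nat.le_mul_of_pos_right _ (by omega)) hn16
  have hn16d : 16 * (d + 2) ≤ n := le_trans (by nlinarith) hn16
  have hU : 2 * (J * D) * (2 * Fintype.card K + l * Fintype.card Q * L) ≤ 4 * U := by
    calc 2 * (J * D) * (2 * Fintype.card K + l * Fintype.card Q * L) ≤ 2 * (J * D) * (2 * M) :=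
          Nat.mul_le_mul_left _ (by omega)
      _ = 4 * U := by rw [hQ]; ring
  obtain ⟨R, hR⟩ : ∃ R, 2 * (J * D) * (2 * Fintype.card K + l * Fintype.card Q * L) + R = n :=
    ⟨n - 2 * (J * D) * (2 * Fintype.card K + l * Fintype.card Q * L), by omega⟩
  have hdQ : 16 * (d * (J * D)) ≤ n := by
    calc 16 * (d * (J * D)) ≤ 16 * ((d + 2) * U) :=
          Nat.mul_le_mul_left _ (Nat.mul_le_mul (by omega) hJDQ)
      _ = 16 * U * (d + 2) := by ring
      _ ≤ n := hn16
  have hdR : (J * D) * d ≤ R := by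
    rw [mul_comm]
    omega
  have hcard : Fintype.card (SATK.GK (J * D) l L R K Q) = Fintype.card (Fin n) := by
    rw [SATK.card_GK, hR, Fintype.card_fin]
  obtain ⟨ε⟩ : Nonempty (SATK.GK (J * D) l L R K Q ≃ Fin n) :=
    ⟨Fintype.equivOfCardEq hcard⟩
  let P : Fin (J * D) → {P : Finset (Fin R) // P.card = d} := fun b =>
    ⟨blk R d b, card_blk hd hdR b b.2⟩
  have hP : ∀ b b', b ≠ b' → Disjoint (P b).1 (P b').1 := by
    intro b b' hbb
    rw [Finset.disjoint_left]
    intro i hi hi'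
    simp only [P, blk, Finset.mem_filter, Finset.mem_univ, true_and] at hi hi'
    exact hbb (Fin.ext (hi.symm.trans hi'))
  refine ⟨L * R.choose (d + 1), (R - d * (J * D)).choose (d + 2),
    SATK.satCode ε P w hd (by omega) hw, ?_, ?_, ?_, ?_⟩
  · have h3 := choose_big (n := n) (M := R) (k := d + 1) (by omega) (by omega)
    have h4 : 4 ^ (d + 1) * (d + 1).factorial ≤ W := by
      rw [hW]
      exact Nat.mul_le_mul (Nat.pow_le_pow_right (by norm_num) (by omega))
        (Nat.factorial_le (by omega))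
    calc L * n ^ (d + 1) ≤ L * (4 ^ (d + 1) * (d + 1).factorial * R.choose (d + 1)) :=
          Nat.mul_le_mul_left _ h3
      _ ≤ L * (W * R.choose (d + 1)) := Nat.mul_le_mul_left _ (Nat.mul_le_mul_right _ h4)
      _ = 1 * (W * (L * R.choose (d + 1))) := by ring
      _ ≤ 16 * (d + 2) * (W * (L * R.choose (d + 1))) := Nat.mul_le_mul_right _ (by omega)
      _ = 16 * (d + 2) * W * (L * R.choose (d + 1)) := by ring
  · exact Nat.choose_pos (by omega)
  · have h3 := choose_big (n := n) (M := R - d * (J * D)) (k := d + 2) (by omega) (by omega)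
    calc n ^ (d + 2) ≤ W * (R - d * (J * D)).choose (d + 2) := h3
      _ = 1 * (W * (R - d * (J * D)).choose (d + 2)) := by ring
      _ ≤ 16 * (d + 2) * (W * (R - d * (J * D)).choose (d + 2)) :=
          Nat.mul_le_mul_right _ (by omega)
      _ = 16 * (d + 2) * W * (R - d * (J * D)).choose (d + 2) := by ring
  · intro c j
    obtain ⟨h1, h3⟩ := SATK.orbit ε P hP w c j
    exact ⟨SATK.Ob ε P w c j, SATK.card_Ob ε P w c j, h1, h3⟩

end sizes

end Pool.AD
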