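import Pool.Agent.Helper34.AD.Defs
import Pool.Agent.Helper76.CDET.GadB

/-!
Adaptive randomised algorithms with zero tests (MP_b6562f_lc): the cells of the clique gadget.
-/

set_option autoImplicit false

namespace Pool.AD

open Finset hiding sup
open Pool.Agent.Helper76.CDET Pool.GT

variable {J D l Lw R n : ℕ}

/-- the choices for all blocks of all cells -/
def full (c : Ch J D l) : Fin (J * D) × Bool → Fin l → Bool :=
  fun h => c (finProdFinEquiv.symm h.1).1 ((finProdFinEquiv.symm h.1).2, h.2)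

/-- the block `b` of the cell `j` -/
def bk (j : Fin J) (b : Fin D) : Fin (J * D) := finProdFinEquiv (j, b)

/-- the cell of a block -/
def cel (b : Fin (J * D)) : Fin J := (finProdFinEquiv.symm b).1

@[simp] theorem cel_bk (j : Fin J) (b : Fin D) : cel (bk j b) = j := by simp [cel, bk]

theorem full_bk (c : Ch J D l) (j : Fin J) (b : Fin D) (s : Bool) : full c (bk j b, s) = c j (b, s) := by
  simp [full, bk]

theorem exists_bk (b : Fin (J * D)) : ∃ b', b = bk (cel b) b' :=
  ⟨(finProdFinEquiv.symm b).2, by rw [bk, cel]; exact (finProdFinEquiv.apply_symm_apply b).symm⟩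

theorem bk_inj {j : Fin J} {b b' : Fin D} (h : bk j b = bk j b') : b = b' := by
  have := finProdFinEquiv.injective h
  exact (Prod.mk.inj this).2

theorem full_congr {c c' : Ch J D l} {b : Fin (J * D)} (h : c (cel b) = c' (cel b)) (s : Bool) :
    full c (b, s) = full c' (b, s) := by
  unfold full
  exact congrFun h _

/-- the vertex belongs to a cell with index smaller than `i` -/
def Low (i : ℕ) : VB (J * D) l Lw R → Prop
  | Sum.inl (h, _) => (cel h.1 : ℕ) < i
  | Sum.inr (Sum.inl ((h, _), _)) => (cel h.1 : ℕ) < i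
  | Sum.inr (Sum.inr _) => False

/-- the vertices of the input `i` of the chain -/
def U (c : Ch J D l) (i : ℕ) (x : VB (J * D) l Lw R) : Prop := inB (full c) x ∨ Low i x

/-- the edge is not a wrong derivative edge -/
def Ok (ι : VB (J * D) l Lw R ↪ Fin n) (c : Ch J D l) (e : Sym2 (Fin n)) : Prop :=
  ∀ z, e = YB ι z → z = (z.1, full c (z.1, false), full c (z.1, true))

/-- the chain -/
noncomputable def Sc (ι : VB (J * D) l Lw R ↪ Fin n) (c : Ch J D l) (i : ℕ) :
    Finset (Sym2 (Fin n)) :=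
  open Classical in
  Finset.univ.filter fun e => (∃ x y, x ≠ y ∧ compat x y ∧ U c i x ∧ U c i y ∧ e = ed ι x y) ∧
    Ok ι c e

theorem mem_Sc (ι : VB (J * D) l Lw R ↪ Fin n) (c : Ch J D l) (i : ℕ) (e : Sym2 (Fin n)) :
    e ∈ Sc ι c i ↔ (∃ x y, x ≠ y ∧ compat x y ∧ U c i x ∧ U c i y ∧ e = ed ι x y) ∧ Ok ι c e := by
  classical
  simp [Sc]

/-- alive edges of a cell -/
def Xc (ι : VB (J * D) l Lw R ↪ Fin n) (j : Fin J)
    (x : ((Fin D × Bool) × Fin l) × (Bool × Fin (Lw * R))) : Sym2 (Fin n) :=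
  XB ι (((bk j x.1.1.1, x.1.1.2), x.1.2), x.2)

/-- derivative edges of a cell -/
def Yc (ι : VB (J * D) l Lw R ↪ Fin n) (j : Fin J)
    (y : Fin D × (Fin l → Bool) × (Fin l → Bool)) : Sym2 (Fin n) :=
  YB ι (bk j y.1, y.2)

/-- free edges for the cell `j` -/
noncomputable def Zc (ι : VB (J * D) l Lw R ↪ Fin n) (j : Fin J) (c : Ch J D l) :
    Finset (Sym2 (Fin n)) :=
  open Classical in
  Finset.univ.filter fun e => (∃ x y, x ≠ y ∧ compat x y ∧ U c (j + 1) x ∧ U c (j + 1) y ∧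
    e = ed ι x y) ∧ Ok ι c e ∧ (∀ x, e ≠ Xc ι j x) ∧ ∀ y, e ≠ Yc ι j y

theorem mem_Zc (ι : VB (J * D) l Lw R ↪ Fin n) (j : Fin J) (c : Ch J D l) (e : Sym2 (Fin n)) :
    e ∈ Zc ι j c ↔ (∃ x y, x ≠ y ∧ compat x y ∧ U c (j + 1) x ∧ U c (j + 1) y ∧
      e = ed ι x y) ∧ Ok ι c e ∧ (∀ x, e ≠ Xc ι j x) ∧ ∀ y, e ≠ Yc ι j y := by
  classical
  simp [Zc]

theorem U_mono (c : Ch J D l) {i i' : ℕ} (h : i ≤ i') (x : VB (J * D) l Lw R) (hx : U c i x) :
    U c i' x := by
  rcases hx with hx | hx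
  · exact Or.inl hx
  · right
    rcases x with ⟨hb, a⟩ | ⟨⟨hb, p⟩, q⟩ | t
    · exact lt_of_lt_of_le hx h
    · exact lt_of_lt_of_le hx h
    · exact hx.elim

theorem U_congr {c c' : Ch J D l} (j : Fin J) (h : ∀ i, i ≠ j → c i = c' i)
    (x : VB (J * D) l Lw R) (hx : U c (j + 1) x) : U c' (j + 1) x := by
  rcases hx with hx | hx
  · rcases x with ⟨⟨b, s⟩, a⟩ | ⟨⟨⟨b, s⟩, p⟩, q⟩ | t
    · by_cases hj : cel b = j
      · right
        show (cel b : ℕ) < j + 1
        rw [hj]
        exact Nat.lt_succ_self _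
      · left
        show a = full c' (b, s)
        rw [← full_congr (h _ hj)]
        exact hx
    · by_cases hj : cel b = j
      · right
        show (cel b : ℕ) < j + 1
        rw [hj]
        exact Nat.lt_succ_self _
      · left
        show q.2 = full c' (b, s) p
        rw [← full_congr (h _ hj)]
        exact hx
    · exact Or.inl trivial
  · exact Or.inr hx

theorem Xc_eq_XB (ι : VB (J * D) l Lw R ↪ Fin n) (j : Fin J) (x) :
    Xc ι j x = XB ι (((bk j x.1.1.1, x.1.1.2), x.1.2), x.2) := rfl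

theorem inj_XY (ι : VB (J * D) l Lw R ↪ Fin n) (j : Fin J) :
    Function.Injective (Sum.elim (Xc ι j) (Yc ι j)) := by
  rintro (x | y) (x' | y') h
  · have h1 := @injB (J * D) l Lw R n ι (Sum.inl _) (Sum.inl _) h
    simp only [Sum.inl.injEq, Prod.mk.injEq] at h1
    obtain ⟨⟨⟨h2, h3⟩, h4⟩, h5⟩ := h1
    rw [show x = x' from Prod.ext (Prod.ext (Prod.ext (bk_inj h2) h3) h4) h5]
  · have h1 := @injB (J * D) l Lw R n ι (Sum.inl _) (Sum.inr _) h
    simp at h1
  · have h1 := @injB (J * D) l Lw R n ι (Sum.inr _) (Sum.inl _) h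
    simp at h1
  · have h1 := @injB (J * D) l Lw R n ι (Sum.inr _) (Sum.inr _) h
    simp only [Sum.inr.injEq, Prod.mk.injEq] at h1
    rw [show y = y' from Prod.ext (bk_inj h1.1) h1.2]

/-- edges of the chain are edges of the gadget -/
theorem form_of_Sc (ι : VB (J * D) l Lw R ↪ Fin n) (c : Ch J D l) (i : ℕ) (e : Sym2 (Fin n))
    (he : e ∈ Sc ι c i) : e ∈ ZB ι ∨ (∃ x, e = XB ι x) ∨
      ∃ b, e = YB ι (b, full c (b, false), full c (b, true)) := by
  rw [mem_Sc] at he
  obtain ⟨⟨x, y, hne, hc, -, -, rfl⟩, hok⟩ := he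
  by_cases hX : ∃ z, ed ι x y = XB ι z
  · exact Or.inr (Or.inl hX)
  · by_cases hY : ∃ z, ed ι x y = YB ι z
    · obtain ⟨z, hz⟩ := hY
      have h1 := hok z hz
      refine Or.inr (Or.inr ⟨z.1, ?_⟩)
      rw [← h1]
      exact hz
    · push Not at hX hY
      exact Or.inl (mem_ZB_of ι x y hne hc hX hY)

theorem ok_ed (ι : VB (J * D) l Lw R ↪ Fin n) (c : Ch J D l) (x y : VB (J * D) l Lw R)
    (hx : inB (full c) x) (hy : inB (full c) y) : Ok ι c (ed ι x y) := by
  rintro ⟨b, a, a'⟩ hz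
  rw [YB] at hz
  rcases (ed_eq ι).1 hz with ⟨rfl, rfl⟩ | ⟨rfl, rfl⟩
  · have h5 : a = full c (b, false) := hx
    have h6 : a' = full c (b, true) := hy
    rw [h5, h6]
  · have h5 : a = full c (b, false) := hy
    have h6 : a' = full c (b, true) := hx
    rw [h5, h6]

theorem yes_Sc (ι : VB (J * D) l Lw R ↪ Fin n) {k : ℕ} (hk : k = 2 * (J * D) * (1 + l * Lw) + R)
    (c : Ch J D l) (i : ℕ) : PC n k (Sc ι c i) := by
  classical
  refine ⟨(Finset.univ.image (repB (Lw := Lw) (R := R) (full c))).map ι, ?_, ?_⟩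
  · rw [Finset.card_map, Finset.card_image_of_injective _
      (Function.LeftInverse.injective (cls_repB (full c))), Finset.card_univ, card_CB, hk]
  · intro u hu v hv hne
    rw [Finset.mem_map] at hu hv
    obtain ⟨x, hx, rfl⟩ := hu
    obtain ⟨y, hy, rfl⟩ := hv
    rw [Finset.mem_image] at hx hy
    obtain ⟨q, -, rfl⟩ := hx
    obtain ⟨q', -, rfl⟩ := hy
    have hne' : repB (Lw := Lw) (R := R) (full c) q ≠ repB (full c) q' := fun h => hne (by rw [h])
    rw [mem_Sc]
    exact ⟨⟨_, _, hne', compat_of_inB hne' (inB_repB _ q) (inB_repB _ q'), Or.inl (inB_repB _ q),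
      Or.inl (inB_repB _ q'), rfl⟩, ok_ed ι c _ _ (inB_repB _ q) (inB_repB _ q')⟩

theorem not_Y_of_X (ι : VB (J * D) l Lw R ↪ Fin n) (x y) : XB ι x ≠ YB ι y := by
  intro h
  have h1 := @injB (J * D) l Lw R n ι (Sum.inl x) (Sum.inr y) h
  simp at h1

theorem YB_inj (ι : VB (J * D) l Lw R ↪ Fin n) {y y' : Fin (J * D) × (Fin l → Bool) × (Fin l → Bool)}
    (h : YB ι y = YB ι y') : y = y' := by
  have h1 := @injB (J * D) l Lw R n ι (Sum.inr y) (Sum.inr y') h
  simpa using h1

/-- THE CELLS OF THE CLIQUE GADGET -/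
noncomputable def cliqueGadget (ι : VB (J * D) l Lw R ↪ Fin n) {k : ℕ}
    (hk : k = 2 * (J * D) * (1 + l * Lw) + R) (hk2 : 2 ≤ k) :
    CellGadget (PC n k) J D l (Lw * R) where
  S := Sc ι
  X := Xc ι
  Y := Yc ι
  Z := Zc ι
  mono := by
    intro c i e he
    rw [mem_Sc] at he ⊢
    obtain ⟨⟨x, y, hne, hc, hx, hy, rfl⟩, hok⟩ := he
    exact ⟨⟨x, y, hne, hc, U_mono c (Nat.le_succ i) x hx, U_mono c (Nat.le_succ i) y hy, rfl⟩, hok⟩
  inj := inj_XY ι
  XZ := by
    intro j c x hx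
    rw [mem_Zc] at hx
    exact hx.2.2.1 x rfl
  YZ := by
    intro j c y hy
    rw [mem_Zc] at hy
    exact hy.2.2.2 y rfl
  Zc := by
    have key : ∀ (j : Fin J) (c c' : Ch J D l), (∀ i, i ≠ j → c i = c' i) →
        ∀ e ∈ Zc ι j c, e ∈ Zc ι j c' := by
      intro j c c' h e he
      rw [mem_Zc] at he ⊢
      obtain ⟨⟨x, y, hne, hc, hx, hy, hxy⟩, hok, hX, hY⟩ := he
      refine ⟨⟨x, y, hne, hc, U_congr j h x hx, U_congr j h y hy, hxy⟩, ?_, hX, hY⟩
      intro z hz
      have hz1 := hok z hz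
      have hj : cel z.1 ≠ j := by
        intro hj
        obtain ⟨b', hb'⟩ := exists_bk z.1
        rw [hj] at hb'
        apply hY (b', z.2)
        rw [hz, Yc]
        congr 1
        exact Prod.ext hb' rfl
      rw [← full_congr (h _ hj), ← full_congr (h _ hj)]
      exact hz1
    intro j c c' h
    ext e
    exact ⟨key j c c' h e, key j c' c (fun i hi => (h i hi).symm) e⟩
  yes := fun c i _ => yes_Sc ι hk c i
  no := by
    intro c j x hx hP
    have h1 := (gadB_one ι hk hk2 (full c) (Sc ι c (j + 1) \ {Xc ι j x}) hP (by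
      intro e he
      exact form_of_Sc ι c _ e (Finset.mem_sdiff.1 he).1)).1 (bk j x.1.1.1, x.1.1.2) x.1.2 x.2.2
    rw [full_bk] at h1
    rw [mem_Mw] at hx
    have h2 : XB ι (((bk j x.1.1.1, x.1.1.2), x.1.2), (c j (x.1.1.1, x.1.1.2) x.1.2, x.2.2)) =
        Xc ι j x := by
      rw [Xc]
      have : (c j (x.1.1.1, x.1.1.2) x.1.2, x.2.2) = x.2 := by
        rw [show (x.1.1.1, x.1.1.2) = x.1.1 from rfl, ← hx]
      rw [this]
    rw [h2] at h1
    exact (Finset.mem_sdiff.1 h1).2 (Finset.mem_singleton_self _)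
  low := by
    intro c j e he
    rw [mem_Sc] at he
    obtain ⟨⟨x, y, hne, hc, hx, hy, rfl⟩, hok⟩ := he
    by_cases hX : ∃ z, ed ι x y = Xc ι j z
    · obtain ⟨z, hz⟩ := hX
      refine Or.inr (Or.inl ⟨z, ?_, hz⟩)
      rw [mem_Mw]
      have key : ∀ w : VB (J * D) l Lw R, U c j w →
          w = Sum.inr (Sum.inl (((bk j z.1.1.1, z.1.1.2), z.1.2),
            ((finProdFinEquiv.symm z.2.2).1, z.2.1))) → z.2.1 = c j z.1.1 z.1.2 := by
        rintro w hw rfl
        rcases hw with hw | hw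
        · have h5 : z.2.1 = full c (bk j z.1.1.1, z.1.1.2) z.1.2 := hw
          rw [full_bk] at h5
          exact h5
        · have h5 : (cel (bk j z.1.1.1) : ℕ) < j := hw
          rw [cel_bk] at h5
          exact absurd h5 (lt_irrefl _)
      rw [Xc, XB] at hz
      rcases (ed_eq ι).1 hz with ⟨h1, -⟩ | ⟨-, h2⟩
      · exact key x hx h1
      · exact key y hy h2
    · by_cases hY : ∃ z, ed ι x y = Yc ι j z
      · obtain ⟨z, hz⟩ := hY
        refine Or.inr (Or.inr ⟨z, ?_, hz⟩)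
        rw [mem_Yw]
        have h1 := hok _ hz
        refine ⟨z.1, ?_⟩
        rw [full_bk, full_bk] at h1
        have h2 := congrArg Prod.snd h1
        simp only at h2
        exact Prod.ext rfl h2
      · push Not at hX hY
        left
        rw [mem_Zc]
        exact ⟨⟨x, y, hne, hc, U_mono c (Nat.le_succ _) x hx, U_mono c (Nat.le_succ _) y hy, rfl⟩,
          hok, hX, hY⟩
  high := by
    intro c j e he
    rw [mem_Sc]
    rcases he with he | ⟨x, rfl⟩ | ⟨y, hy, rfl⟩
    · rw [mem_Zc] at he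
      exact ⟨he.1, he.2.1⟩
    · refine ⟨⟨_, _, ?_, ?_, ?_, ?_, rfl⟩, ?_⟩
      · simp
      · simp only [compat]
      · right
        show (cel (bk j x.1.1.1) : ℕ) < j + 1
        rw [cel_bk]
        exact Nat.lt_succ_self _
      · exact Or.inl trivial
      · intro z hz
        exact absurd hz (not_Y_of_X ι _ _)
    · refine ⟨⟨_, _, ?_, ?_, ?_, ?_, rfl⟩, ?_⟩
      · simp
      · simp only [compat]
        simp
      · right
        show (cel (bk j y.1) : ℕ) < j + 1
        rw [cel_bk]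
        exact Nat.lt_succ_self _
      · right
        show (cel (bk j y.1) : ℕ) < j + 1
        rw [cel_bk]
        exact Nat.lt_succ_self _
      · intro z hz
        have h1 := YB_inj ι (y := (bk j y.1, y.2)) hz
        subst h1
        obtain ⟨b, rfl⟩ := (mem_Yw (c j) y).1 hy
        rw [full_bk, full_bk]

end Pool.AD
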