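import Pool.Agent.Helper76.CDET.Machine

/-!
Adaptive randomised algorithms with zero tests (MP_b6562f_lc): monomials of a product.
-/

set_option autoImplicit false

namespace Pool.AD

open Finset MvPolynomial Pool.Agent.Helper76

/-- a monomial of a product is a product of monomials of the factors -/
theorem exists_decomp {F σ ι : Type} [Field F] [DecidableEq ι] (U : Finset ι)
    (f : ι → MvPolynomial σ F) (ν : σ →₀ ℕ) (hν : ν ∈ (∏ v ∈ U, f v).support) :
    ∃ μ : ι → σ →₀ ℕ, (∀ v ∈ U, μ v ∈ (f v).support) ∧ ∑ v ∈ U, μ v = ν := by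
  classical
  induction U using Finset.induction_on generalizing ν with
  | empty =>
    refine ⟨fun _ => 0, fun v hv => absurd hv (Finset.notMem_empty v), ?_⟩
    rw [Finset.prod_empty, mem_support_iff, coeff_one] at hν
    rw [Finset.sum_empty]
    by_contra h
    exact hν (if_neg h)
  | insert a U ha ih =>
    rw [Finset.prod_insert ha] at hν
    have h1 := support_mul _ _ hν
    obtain ⟨x, hx, y, hy, hxy⟩ := Finset.mem_add.1 h1
    obtain ⟨μ, hμ1, hμ2⟩ := ih y hy
    refine ⟨Function.update μ a x, ?_, ?_⟩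
    · intro v hv
      rcases Finset.mem_insert.1 hv with rfl | hv'
      · rw [Function.update_self]
        exact hx
      · have hne : v ≠ a := by
          rintro rfl
          exact ha hv'
        rw [Function.update_of_ne hne]
        exact hμ1 v hv'
    · rw [Finset.sum_insert ha, Function.update_self, ← hxy, ← hμ2]
      congr 1
      refine Finset.sum_congr rfl fun v hv => ?_
      rw [Function.update_of_ne (by rintro rfl; exact ha hv)]

theorem decomp_le {σ ι : Type} (U : Finset ι) (μ : ι → σ →₀ ℕ) (v : ι) (hv : v ∈ U) (x : σ) :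
    μ v x ≤ (∑ v ∈ U, μ v) x := by
  rw [Finsupp.finsetSum_apply]
  exact Finset.single_le_sum (f := fun v => μ v x) (fun _ _ => Nat.zero_le _) hv

theorem sup_decomp {V Ya ι : Type} [DecidableEq V] [Fintype V] (U : Finset ι)
    (μ : ι → (V ⊕ Ya) →₀ ℕ) (v : ι) (hv : v ∈ U) :
    CDET.sup (μ v) ⊆ CDET.sup (∑ v ∈ U, μ v) := by
  intro e he
  rw [CDET.sup, Finset.mem_filter] at he ⊢
  refine ⟨Finset.mem_univ _, fun h => he.2 ?_⟩
  have h1 := decomp_le U μ v hv (Sum.inl e)
  rw [h] at h1
  omega

end Pool.AD
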