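import Pool.Agent.Helper10.GT.RandBits

/-!
Adaptive randomised algorithms with zero tests (MP_b6562f_lc): gadgets with cells.
-/

set_option autoImplicit false

namespace Pool.AD

open Finset hiding sup
open MvPolynomial Pool.SDL Pool.Agent.SDet Pool.Agent.Helper76 Pool.Agent.Helper76.CDET Pool.GT
open scoped ENNReal BigOperators

/-- choices for one cell: a word for every half block -/
abbrev Cw (D l : ℕ) := Fin D × Bool → Fin l → Bool

/-- choices for all cells -/
abbrev Ch (J D l : ℕ) := Fin J → Cw D l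

/-- A gadget with `J` cells of `D` blocks, words of `l` bits, `B` copies. For every choice a chain of
inputs with the property; the step `j` of the chain switches on the cell `j`. -/
structure CellGadget {V : Type} [DecidableEq V] (P : Finset V → Prop) (J D l B : ℕ) where
  /-- the chain of inputs -/
  S : Ch J D l → ℕ → Finset V
  /-- alive elements of the cells -/
  X : Fin J → ((Fin D × Bool) × Fin l) × (Bool × Fin B) → V
  /-- derivative elements of the cells -/
  Y : Fin J → Fin D × (Fin l → Bool) × (Fin l → Bool) → V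
  /-- free elements for the cell `j`; they depend on the choices of the other cells only -/
  Z : Fin J → Ch J D l → Finset V
  mono : ∀ c i, S c i ⊆ S c (i + 1)
  inj : ∀ j, Function.Injective (Sum.elim (X j) (Y j))
  XZ : ∀ j c x, X j x ∉ Z j c
  YZ : ∀ j c y, Y j y ∉ Z j c
  Zc : ∀ j c c', (∀ i, i ≠ j → c i = c' i) → Z j c = Z j c'
  yes : ∀ c i, i ≤ J → P (S c i)
  no : ∀ c (j : Fin J), ∀ x ∈ Mw B (c j), ¬ P (S c (j + 1) \ {X j x})
  low : ∀ c (j : Fin J), ∀ e ∈ S c j, e ∈ Z j c ∨ (∃ x ∈ Mw B (c j), e = X j x) ∨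
    ∃ y ∈ Yw (c j), e = Y j y
  high : ∀ c (j : Fin J) e, (e ∈ Z j c ∨ (∃ x, e = X j x) ∨ ∃ y ∈ Yw (c j), e = Y j y) →
    e ∈ S c (j + 1)

end Pool.AD
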