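import Pool.Agent.Helper10.AD3.Pf
import Pool.Agent.Helper34.FunK

/-!
Adaptive randomised algorithms with zero tests (MP_b6562f_lc): tests which are sums of arbitrary
functions of Pfaffians.
-/

set_option autoImplicit false
set_option linter.unusedSectionVars false

namespace Pool.AD3

open Finset hiding sup
open MvPolynomial Pool.SDL Pool.Agent.SDet Pool.Agent.Helper76 Pool.Agent.Helper76.CDET Pool.AD
open Pool.GT Pool.FunK
open Pool.RT (Pr Pr_eq)
open scoped ENNReal BigOperators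

section
variable {F : Type} [Field F] {V Ya : Type} [DecidableEq V] [Fintype V]

/-- sums of `T` functions of degree at most `g` of `a` Pfaffians have small shifted spaces -/
theorem cls_fun {T a g m d ν : ℕ} (hd : 1 ≤ d) (f : MvPolynomial (V ⊕ Ya) F)
    (hf : IsFunSum T a g m d ν f) (L D' : ℕ) (hD' : D' ≤ L) (q : ℝ) (hq0 : 0 < q) (hq1 : q < 1) :
    Pool.RT.SmallK f D' (ν + L * (d - 1)) (ENNReal.ofReal q)
      (ENNReal.ofReal (RP (T * (a + min g L).choose (min g L)) (m * min g L) d L q)) := by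
  classical
  have hq1' : 0 ≤ 1 - q := by linarith
  have hQ1 : ENNReal.ofReal q < 1 := ofReal_lt_one hq1
  have hmin : min g D' ≤ min g L := min_le_min le_rfl hD'
  refine smallK_mono (smallK_fun (M := m * min g L + L + 1)
    (by have := Nat.mul_le_mul_left m hmin; omega) (by omega) hd f hf _ hQ1) hQ1.le
    (Nat.add_le_add_left (Nat.mul_le_mul_right _ hD') _) ?_
  unfold RP
  rw [ENNReal.ofReal_mul (by positivity), ENNReal.ofReal_natCast]
  refine mul_le_mul' ?_ ?_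
  · refine Nat.cast_le.2 (Nat.mul_le_mul_left _ ?_)
    have h1 : (a + min g D').choose (min g D') = (a + min g D').choose a := by
      rw [Nat.choose_symm_add]
    have h2 : (a + min g L).choose (min g L) = (a + min g L).choose a := by
      rw [Nat.choose_symm_add]
    rw [h1, h2]
    exact Nat.choose_le_choose _ (by omega)
  have h1 : (1 : ℝ≥0∞) - ENNReal.ofReal q ^ d = ENNReal.ofReal (1 - q ^ d) := by
    rw [← ENNReal.ofReal_pow hq0.le, ← ENNReal.ofReal_one, ← ENNReal.ofReal_sub _ (by positivity)]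
  have hqδ : 0 ≤ 1 - q ^ d := by
    have := pow_le_one₀ (n := d) hq0.le hq1.le
    linarith
  have h2 : 1 - q ^ d ≤ d * (1 - q) := by
    have := one_add_mul_le_pow (a := q - 1) (by linarith) d
    have h3 : (1 + (q - 1)) = q := by ring
    rw [h3] at this
    linarith
  rw [h1, ENNReal.ofReal_sum_of_nonneg fun j _ => by positivity]
  have hsub : range (2 * D' + 1) ⊆ range (2 * L + 1) := by
    intro j hj
    rw [Finset.mem_range] at hj ⊢
    omega
  refine le_trans (Finset.sum_le_sum fun j hj => ?_) (Finset.sum_le_sum_of_subset hsub)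
  rw [← ENNReal.ofReal_pow hqδ, ← ENNReal.ofReal_natCast, ← ENNReal.ofReal_mul (Nat.cast_nonneg _)]
  refine ENNReal.ofReal_le_ofReal ?_
  rw [Finset.mem_range] at hj
  calc ((2 * (m * min g L + L + 1 - D') - 1 + j).choose j : ℝ) * (1 - q ^ d) ^ j
      ≤ ((2 * (m * min g L + L + 1 : ℕ) : ℝ) ^ j / (j.factorial : ℝ)) * (d * (1 - q)) ^ j :=
        mul_le_mul (choose_up_le' (m * min g L + L + 1) j D' (by omega) (by omega))
          (pow_le_pow_left₀ hqδ h2 j) (by positivity) (by positivity)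
    _ = _ := by rw [mul_pow (2 * ((m * min g L + L + 1 : ℕ) : ℝ))]; ring

/-- the machine, sums of functions of Pfaffians -/
theorem adapt3_fun {I : Type} [Fintype I] (w : I → ℝ) (hw0 : ∀ i, 0 ≤ w i)
    (hw1 : ∑ i, w i = 1) {N h : ℕ} (t : I → DT N) (hones : ∀ i a, ((t i).ones a).card ≤ h)
    (f : I → Fin N → MvPolynomial (V ⊕ Ya) F) {P : Finset V → Prop}
    {J D l B : ℕ} {K Al : Type} [Fintype K] [DecidableEq K] [Nonempty K] [Fintype Al]
    [DecidableEq Al] {wd : K → Fin l → Al}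
    (hJ : 1 ≤ J) (hD : 1 ≤ D) (hl : 1 ≤ l) (hB : 1 ≤ B)
    (G : I → CodeGadget P J D l B wd) (ε1 ε2 κ : ℝ)
    (hyes : ∀ (c : Kh J D K) (j : ℕ), j ≤ J →
      Pr w (fun i => (t i).eval (ans (f i) ((G i).S c j)) = false) ≤ ε1)
    (hno : ∀ (c : Kh J D K) (j : Fin J), ∀ x ∈ Mk B wd (c j),
      Pr w (fun i => (t i).eval (ans (f i) ((G i).S c (j.1 + 1) \ {(G i).X j x})) = true) ≤ ε2)
    (bad : I → Kh J D K → Fin J → Prop) (hbad : ∀ c j, Pr w (fun i => bad i c j) ≤ κ)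
    (lam Lt : ℕ) (β : ℝ) (hβ0 : 0 < β) (hβ : β < 1)
    (hdeg : ∀ i c j, ¬ bad i c j → ∃ μ : Fin N → (V ⊕ Ya) →₀ ℕ,
      (∀ v ∈ (t i).ones (ans (f i) ((G i).S c j.1)),
        μ v ∈ (f i v).support ∧ CDET.sup (μ v) ⊆ (G i).S c j.1) ∧
      ((∀ v ∈ (t i).ones (ans (f i) ((G i).S c j.1)), ∀ b,
        ∑ y ∈ Finset.univ.filter (fun y : Fin D × K × K => y.1 = b),
          μ v (Sum.inl ((G i).Y j y)) ≤ lam) ∨
      (0 < Lt ∧ ∑ v ∈ (t i).ones (ans (f i) ((G i).S c j.1)),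
        ∑ y, μ v (Sum.inl ((G i).Y j y)) ≤ Lt ∧ 8 * (Lt : ℝ) ≤ (1 - β) * (lam * D))))
    {a s τ T0 : ℕ} (hwd : ∀ k k', k ≠ k' →
      (Finset.univ.filter fun p => wd k p = wd k' p).card ≤ a)
    (δ : ℝ) (hδa : (a : ℝ) ≤ δ * l) (hδ : 4 * h * δ ≤ 1 - β)
    (hs : 8 * h * (s : ℝ) ≤ (1 - β) * D)
    (hτ : 1 ≤ τ) (hτT : (T0 : ℝ) ≤ τ * (δ * (l * B) - a * B))
    {T b g m d ν : ℕ} (hd : 1 ≤ d) (hf : ∀ i v, IsFunSum T b g m d ν (f i v))
    (q : ℝ) (hq0 : 0 < q) (hq1 : q < 1)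
    (hT0 : (Fintype.card K : ℝ) ^ s * q ^ T0 ≤ 1 / 2) :
    q ^ (ν + lam * s * (d - 1)) *
        ((1 - (ε1 + ε2 / β + N / J + κ)) * (Fintype.card K : ℝ) ^ s) ≤
      2 * RP (T * (b + min g (lam * s)).choose (min g (lam * s))) (m * min g (lam * s)) d
        (lam * s) q *
        ((N * (2 * D).choose s * ((lam * s + 1) * (2 ^ s * Fintype.card K ^ τ)) : ℕ) : ℝ) := by
  have hK0 : (0 : ℝ) < (Fintype.card K : ℝ) := by exact_mod_cast Fintype.card_pos
  refine real_of_ennreal3 hq0 (RP_nonneg _ _ _ _ hq1) ?_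
  refine adapt3 w hw0 hw1 t hones f hJ hD hl hB G ε1 ε2 κ hyes hno bad hbad lam Lt β hβ0 hβ
    hdeg hwd δ hδa hδ hs hτ hτT (ofReal_lt_one hq1)
    (fun i v D' hD' => cls_fun hd _ (hf i v) (lam * s) D' hD' q hq0 hq1) ?_
  rw [← ENNReal.ofReal_pow hq0.le]
  have h3 : (Fintype.card K : ℝ≥0∞) ^ s = ENNReal.ofReal ((Fintype.card K : ℝ) ^ s) := by
    rw [ENNReal.ofReal_pow hK0.le, ENNReal.ofReal_natCast]
  rw [h3, ← ENNReal.ofReal_mul (by positivity)]
  refine (ENNReal.ofReal_le_ofReal hT0).trans (le_of_eq ?_)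
  rw [ENNReal.ofReal_div_of_pos (by norm_num)]
  simp

/-- THE INEQUALITY (first case): individual degrees at most `lam` -/
theorem adapt3_indiv_fun {I : Type} [Fintype I] (w : I → ℝ) (hw0 : ∀ i, 0 ≤ w i)
    (hw1 : ∑ i, w i = 1) {N h : ℕ} (t : I → DT N) (hones : ∀ i a, ((t i).ones a).card ≤ h)
    (f : I → Fin N → MvPolynomial (V ⊕ Ya) F) {P : Finset V → Prop}
    {J D l B : ℕ} {K Al : Type} [Fintype K] [DecidableEq K] [Nonempty K] [Fintype Al]
    [DecidableEq Al] {wd : K → Fin l → Al}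
    (hJ : 1 ≤ J) (hD : 1 ≤ D) (hl : 1 ≤ l) (hB : 1 ≤ B)
    (G : I → CodeGadget P J D l B wd) (ε1 ε2 : ℝ)
    (hyes : ∀ (c : Kh J D K) (j : ℕ), j ≤ J →
      Pr w (fun i => (t i).eval (ans (f i) ((G i).S c j)) = false) ≤ ε1)
    (hno : ∀ (c : Kh J D K) (j : Fin J), ∀ x ∈ Mk B wd (c j),
      Pr w (fun i => (t i).eval (ans (f i) ((G i).S c (j.1 + 1) \ {(G i).X j x})) = true) ≤ ε2)
    (lam : ℕ) (hlam : ∀ i v, ∀ μ ∈ (f i v).support, ∀ e, μ (Sum.inl e) ≤ lam)
    (β : ℝ) (hβ0 : 0 < β) (hβ : β < 1)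
    {a s τ T0 : ℕ} (hwd : ∀ k k', k ≠ k' →
      (Finset.univ.filter fun p => wd k p = wd k' p).card ≤ a)
    (δ : ℝ) (hδa : (a : ℝ) ≤ δ * l) (hδ : 4 * h * δ ≤ 1 - β)
    (hs : 8 * h * (s : ℝ) ≤ (1 - β) * D)
    (hτ : 1 ≤ τ) (hτT : (T0 : ℝ) ≤ τ * (δ * (l * B) - a * B))
    {T b g m d ν : ℕ} (hd : 1 ≤ d) (hf : ∀ i v, IsFunSum T b g m d ν (f i v))
    (q : ℝ) (hq0 : 0 < q) (hq1 : q < 1)
    (hT0 : (Fintype.card K : ℝ) ^ s * q ^ T0 ≤ 1 / 2) :
    q ^ (ν + lam * s * (d - 1)) *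
        ((1 - (ε1 + ε2 / β + N / J)) * (Fintype.card K : ℝ) ^ s) ≤
      2 * RP (T * (b + min g (lam * s)).choose (min g (lam * s))) (m * min g (lam * s)) d
        (lam * s) q *
        ((N * (2 * D).choose s * ((lam * s + 1) * (2 ^ s * Fintype.card K ^ τ)) : ℕ) : ℝ) := by
  classical
  have h0 := adapt3_fun w hw0 hw1 t hones f hJ hD hl hB G ε1 ε2 0 hyes hno
    (fun _ _ _ => False) (fun c j => by rw [Pr_eq]; simp) lam 0 β hβ0 hβ
    (by
      intro i c j _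
      have h1 : ∀ v, ∃ μ : (V ⊕ Ya) →₀ ℕ, v ∈ (t i).ones (ans (f i) ((G i).S c j.1)) →
          (μ ∈ (f i v).support ∧ CDET.sup μ ⊆ (G i).S c j.1) := by
        intro v
        by_cases hv : v ∈ (t i).ones (ans (f i) ((G i).S c j.1))
        · obtain ⟨μ, h2, h3⟩ := exists_sup (f i v) (fun S' => restr S' (f i v) ≠ 0)
            (fun _ => Iff.rfl) ((G i).S c j.1) ((ans_true _ _ _).1 (DT.ones_pos _ _ v hv))
          exact ⟨μ, fun _ => ⟨h2, h3⟩⟩
        · exact ⟨0, fun h => absurd h hv⟩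
      choose μ hμ using h1
      refine ⟨μ, hμ, Or.inl ?_⟩
      intro v hv b
      have hinj := (G i).inj j
      have h2 : ∀ y : Fin D × K × K, μ v (Sum.inl ((G i).Y j y)) ≠ 0 → y ∈ Yk (c j) := by
        intro y hy
        have h3 : (G i).Y j y ∈ CDET.sup (μ v) := by
          rw [CDET.sup, Finset.mem_filter]
          exact ⟨Finset.mem_univ _, hy⟩
        rcases (G i).low c j _ ((hμ v hv).2 h3) with h4 | ⟨x, _, h4⟩ | ⟨y', hy', h4⟩
        · exact absurd h4 ((G i).YZ j c y)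
        · have := hinj (a₁ := Sum.inl x) (a₂ := Sum.inr y) h4.symm
          simp at this
        · have := hinj (a₁ := Sum.inr y) (a₂ := Sum.inr y') h4
          rw [Sum.inr.injEq] at this
          rw [this]
          exact hy'
      calc ∑ y ∈ Finset.univ.filter (fun y : Fin D × K × K => y.1 = b),
            μ v (Sum.inl ((G i).Y j y))
          = ∑ y ∈ ({(b, c j (b, false), c j (b, true))} : Finset (Fin D × K × K)),
            μ v (Sum.inl ((G i).Y j y)) := by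
            symm
            refine Finset.sum_subset ?_ ?_
            · intro y hy
              rw [Finset.mem_singleton] at hy
              rw [Finset.mem_filter, hy]
              exact ⟨Finset.mem_univ _, rfl⟩
            · intro y hy hy'
              by_contra h5
              obtain ⟨b', rfl⟩ := (mem_Yk _ _).1 (h2 y h5)
              rw [Finset.mem_filter] at hy
              simp only at hy
              rw [hy.2, Finset.mem_singleton] at hy'
              exact hy' rfl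
        _ ≤ lam := by
            rw [Finset.sum_singleton]
            exact hlam i v _ (hμ v hv).1 _)
    hwd δ hδa hδ hs hτ hτT hd hf q hq0 hq1 hT0
  rwa [add_zero] at h0

/-- THE INEQUALITY (second case): averaged degrees -/
theorem adapt3_avg_fun {I : Type} [Fintype I] (w : I → ℝ) (hw0 : ∀ i, 0 ≤ w i)
    (hw1 : ∑ i, w i = 1) {N h : ℕ} (t : I → DT N) (hones : ∀ i a, ((t i).ones a).card ≤ h)
    (f : I → Fin N → MvPolynomial (V ⊕ Ya) F) {P : Finset V → Prop}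
    {J D l B : ℕ} {K Al : Type} [Fintype K] [DecidableEq K] [Nonempty K] [Fintype Al]
    [DecidableEq Al] {wd : K → Fin l → Al}
    (hJ : 1 ≤ J) (hD : 1 ≤ D) (hl : 1 ≤ l) (hB : 1 ≤ B)
    (G : I → CodeGadget P J D l B wd) (ε1 ε2 κ : ℝ)
    (hyes : ∀ (c : Kh J D K) (j : ℕ), j ≤ J →
      Pr w (fun i => (t i).eval (ans (f i) ((G i).S c j)) = false) ≤ ε1)
    (hno : ∀ (c : Kh J D K) (j : Fin J), ∀ x ∈ Mk B wd (c j),
      Pr w (fun i => (t i).eval (ans (f i) ((G i).S c (j.1 + 1) \ {(G i).X j x})) = true) ≤ ε2)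
    (ν' : I → Finset V → (V ⊕ Ya) →₀ ℕ)
    (hν : ∀ i S, ν' i S ∈ (∏ v ∈ (t i).ones (ans (f i) S), f i v).support ∧
      CDET.sup (ν' i S) ⊆ S)
    (lam Lt : ℕ) (hLt : 1 ≤ Lt) (hk : ∀ (c : Kh J D K) (j : Fin J),
      Pr w (fun i => Lt < ∑ y, ν' i ((G i).S c j.1) (Sum.inl ((G i).Y j y))) ≤ κ)
    (β : ℝ) (hβ0 : 0 < β) (hβ : β < 1) (hlam : 8 * (Lt : ℝ) ≤ (1 - β) * (lam * D))
    {a s τ T0 : ℕ} (hwd : ∀ k k', k ≠ k' →
      (Finset.univ.filter fun p => wd k p = wd k' p).card ≤ a)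
    (δ : ℝ) (hδa : (a : ℝ) ≤ δ * l) (hδ : 4 * h * δ ≤ 1 - β)
    (hs : 8 * h * (s : ℝ) ≤ (1 - β) * D)
    (hτ : 1 ≤ τ) (hτT : (T0 : ℝ) ≤ τ * (δ * (l * B) - a * B))
    {T b g m d ν : ℕ} (hd : 1 ≤ d) (hf : ∀ i v, IsFunSum T b g m d ν (f i v))
    (q : ℝ) (hq0 : 0 < q) (hq1 : q < 1)
    (hT0 : (Fintype.card K : ℝ) ^ s * q ^ T0 ≤ 1 / 2) :
    q ^ (ν + lam * s * (d - 1)) *
        ((1 - (ε1 + ε2 / β + N / J + κ)) * (Fintype.card K : ℝ) ^ s) ≤
      2 * RP (T * (b + min g (lam * s)).choose (min g (lam * s))) (m * min g (lam * s)) d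
        (lam * s) q *
        ((N * (2 * D).choose s * ((lam * s + 1) * (2 ^ s * Fintype.card K ^ τ)) : ℕ) : ℝ) := by
  classical
  refine adapt3_fun w hw0 hw1 t hones f hJ hD hl hB G ε1 ε2 κ hyes hno
    (fun i c j => Lt < ∑ y, ν' i ((G i).S c j.1) (Sum.inl ((G i).Y j y))) hk lam Lt β hβ0 hβ
    (by
      intro i c j hbad
      rw [not_lt] at hbad
      obtain ⟨μ, h1, h2⟩ := exists_factors (f i) _ _ (hν i ((G i).S c j.1)).1
      refine ⟨μ, fun v hv => ⟨h1 v hv, ?_⟩, Or.inr ⟨hLt, ?_, hlam⟩⟩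
      · refine Finset.Subset.trans ?_ (hν i ((G i).S c j.1)).2
        intro e he
        rw [CDET.sup, Finset.mem_filter] at he ⊢
        refine ⟨he.1, fun h3 => he.2 ?_⟩
        rw [h2, Finsupp.finsetSum_apply] at h3
        exact (Finset.sum_eq_zero_iff.1 h3) v hv
      · refine le_trans (le_of_eq ?_) hbad
        rw [Finset.sum_comm]
        refine Finset.sum_congr rfl fun y _ => ?_
        rw [h2, Finsupp.finsetSum_apply])
    hwd δ hδa hδ hs hτ hτT hd hf q hq0 hq1 hT0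

end

end Pool.AD3
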