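import Pool.Agent.Helper34.FunK
import Pool.Agent.Helper28.AD.Prod
import Pool.Agent.Helper76.CPF.Clique

/-!
Adaptive randomised algorithms with zero tests (MP_b6562f_lc): degrees of sums of functions of
Pfaffians.
-/

set_option autoImplicit false
set_option linter.unusedSectionVars false

namespace Pool.AD

open MvPolynomial Pool.Agent.Helper76.CDET Pool.MAJ Pool.FunK

section
variable {F : Type} [Field F] {V Ya : Type} [Fintype V]

theorem VDeg.sum {ι : Type} {d : ℕ} (s : Finset ι) (p : ι → MvPolynomial (V ⊕ Ya) F)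
    (h : ∀ i ∈ s, VDeg d (p i)) : VDeg d (∑ i ∈ s, p i) := by
  classical
  intro μ hμ
  have h1 := support_sum hμ
  rw [Finset.mem_biUnion] at h1
  obtain ⟨i, hi, h2⟩ := h1
  exact h i hi μ h2

theorem VDeg.pow {d : ℕ} {p : MvPolynomial (V ⊕ Ya) F} (h : VDeg d p) (n : ℕ) :
    VDeg (n * d) (p ^ n) := by
  induction n with
  | zero =>
    rw [pow_zero, zero_mul]
    exact VDeg.one 0
  | succ n ih =>
    rw [pow_succ, Nat.succ_mul]
    exact VDeg.mul ih h

theorem VDeg.prod {ι : Type} (s : Finset ι) (d : ι → ℕ) (p : ι → MvPolynomial (V ⊕ Ya) F)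
    (h : ∀ i ∈ s, VDeg (d i) (p i)) : VDeg (∑ i ∈ s, d i) (∏ i ∈ s, p i) := by
  classical
  induction s using Finset.induction_on with
  | empty =>
    rw [Finset.sum_empty, Finset.prod_empty]
    exact VDeg.one 0
  | insert a s ha ih =>
    rw [Finset.sum_insert ha, Finset.prod_insert ha]
    exact VDeg.mul (h a (Finset.mem_insert_self a s))
      (ih fun i hi => h i (Finset.mem_insert_of_mem hi))

theorem VDeg.rename_inr (p : MvPolynomial Ya F) :
    VDeg 0 (rename Sum.inr p : MvPolynomial (V ⊕ Ya) F) := by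
  intro μ hμ
  rw [mem_support_iff] at hμ
  obtain ⟨u, hu, -⟩ := coeff_rename_ne_zero _ _ _ hμ
  refine le_of_eq (Finset.sum_eq_zero fun e _ => ?_)
  rw [← hu]
  exact Finsupp.mapDomain_of_notMem_range _ _ (by simp)

/-- the degree of a sum of functions of Pfaffians -/
theorem deg_fun {T a g m δ ν : ℕ} {f : MvPolynomial (V ⊕ Ya) F} (hf : IsFunSum T a g m δ ν f) :
    VDeg (ν + g * (m * δ)) f := by
  classical
  obtain ⟨s, R, P, A, hs, hR, hP, hA, rfl⟩ := hf
  refine VDeg.sum _ _ fun t _ => VDeg.mul (hR t) ?_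
  rw [eval₂_eq']
  refine VDeg.sum _ _ fun κ hκ => ?_
  have h1 : ∑ i, κ i ≤ g := by
    have h2 := (le_totalDegree hκ).trans (hP t)
    rwa [Finsupp.sum_fintype _ _ (fun _ => rfl)] at h2
  have h3 : VDeg (∑ i, κ i * (m * δ)) (∏ i, (fun i => Pool.PF.pf (s t i) (A t i)) i ^ κ i) := by
    refine VDeg.prod _ _ _ fun i _ => VDeg.pow ?_ _
    have h4 : IsPfSum 1 m δ 0 (Pool.PF.pf (s t i) (A t i)) := by
      refine ⟨fun _ => s t i, fun _ => 1, fun _ => A t i, fun _ => hs t i, fun _ => VDeg.one 0,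
        fun _ => hA t i, ?_⟩
      rw [Finset.sum_const, Finset.card_univ, Fintype.card_fin, one_smul, one_mul]
    intro μ hμ
    have := deg_pfsum h4 μ hμ
    omega
  have h5 := VDeg.mul (VDeg.rename_inr (V := V) (coeff κ (P t))) h3
  intro μ hμ
  refine (h5 μ hμ).trans ?_
  rw [zero_add, ← Finset.sum_mul]
  exact Nat.mul_le_mul_right _ h1

/-- the degree of a product of tests -/
theorem prod_ones_deg_fun {T a g m N h : ℕ} (f : Fin N → MvPolynomial (V ⊕ Ya) F)
    (hf : ∀ v, IsFunSum T a g m 1 0 (f v)) (U : Finset (Fin N)) (hU : U.card ≤ h) :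
    ∀ μ ∈ (∏ v ∈ U, f v).support, ∑ e, μ (Sum.inl e) ≤ h * (m * g) :=
  prod_vdeg f U hU fun v _ μ hμ => by
    have h1 := deg_fun (hf v) μ hμ
    rw [mul_one, zero_add, mul_comm] at h1
    exact h1

/-- a sum of Pfaffians is a sum of functions of one Pfaffian -/
theorem IsFunSum.of_pfsum {T m δ ν : ℕ} {f : MvPolynomial (V ⊕ Ya) F}
    (hf : IsPfSum T m δ ν f) : IsFunSum T 1 1 m δ ν f := by
  obtain ⟨s, P, A, hs, hP, hA, hfA⟩ := hf
  refine ⟨fun t _ => s t, P, fun _ => X 0, fun t _ => A t, fun t _ => hs t, hP, fun _ => ?_,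
    fun t _ => hA t, ?_⟩
  · exact (totalDegree_X _).le
  · rw [hfA]
    refine Finset.sum_congr rfl fun t _ => ?_
    rw [eval₂_X]

end

end Pool.AD
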