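import Mathlib

/-!
Adaptive randomised algorithms with zero tests (MP_b6562f_lc): one node and its heavy blocks.
-/

set_option autoImplicit false

namespace Pool.AD

open Finset

/-- ONE NODE, HEAVY BLOCKS. Most elements `z` of the cell are charged to nodes `vf z ∈ U`, and the
nodes have degrees `dY v b` in the blocks. Some node is charged with a fraction `1/(8h)` of one side
of each of `s` blocks, in which its total degree is small. -/
theorem heavy {D l B h s Lc : ℕ} {ι : Type} [DecidableEq ι] (hD : 1 ≤ D) (hl : 1 ≤ l) (hB : 1 ≤ B)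
    (hh : 1 ≤ h) (hLc : 1 ≤ Lc) (U : Finset ι) (hU : U.card ≤ h)
    (E : Finset (((Fin D × Bool) × Fin l) × Fin B)) (hE : 3 * (2 * D * l * B) ≤ 4 * E.card)
    (vf : ((Fin D × Bool) × Fin l) × Fin B → ι) (hvf : ∀ z ∈ E, vf z ∈ U)
    (dY : ι → Fin D → ℕ) (hdY : ∑ v ∈ U, ∑ b, dY v b ≤ Lc) (hs : 16 * h * s ≤ D) :
    ∃ v ∈ U, ∃ A : Finset (Fin D), A.card = s ∧ ∃ sg : Fin D → Bool,
      (∀ b ∈ A, l * B ≤ 8 * h * (E.filter fun z => vf z = v ∧ z.1.1 = (b, sg b)).card) ∧
      D * ∑ b ∈ A, dY v b ≤ 16 * s * Lc := by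
  classical
  have hD' : (1 : ℝ) ≤ D := by exact_mod_cast hD
  have hl' : (1 : ℝ) ≤ l := by exact_mod_cast hl
  have hB' : (1 : ℝ) ≤ B := by exact_mod_cast hB
  have hh' : (1 : ℝ) ≤ h := by exact_mod_cast hh
  have hLc' : (1 : ℝ) ≤ Lc := by exact_mod_cast hLc
  obtain ⟨lB, hlB⟩ : ∃ lB : ℝ, lB = l * B := ⟨_, rfl⟩
  have hlB1 : 0 < lB := by rw [hlB]; positivity
  obtain ⟨T, hT⟩ : ∃ T : ℝ, T = 2 * D * lB := ⟨_, rfl⟩
  have hTpos : 0 < T := by rw [hT]; positivity
  have hE' : 3 * T ≤ 4 * (E.card : ℝ) := by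
    have : (3 * (2 * D * l * B) : ℝ) ≤ 4 * (E.card : ℝ) := by exact_mod_cast hE
    rw [hT, hlB]
    linarith
  set cnt : ι → ℕ := fun v => (E.filter fun z => vf z = v).card with hcnt
  have hsum : E.card = ∑ v ∈ U, cnt v := Finset.card_eq_sum_card_fiberwise hvf
  -- the node
  obtain ⟨v, hvU, hv⟩ : ∃ v ∈ U, T * (1 / (4 * h) + (∑ b, dY v b : ℕ) / (4 * Lc)) ≤ (cnt v : ℝ) := by
    by_contra hcon
    push Not at hcon
    have h1 : (E.card : ℝ) ≤ ∑ v ∈ U, T * (1 / (4 * h) + (∑ b, dY v b : ℕ) / (4 * Lc)) := by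
      rw [hsum]
      push_cast
      exact Finset.sum_le_sum fun v hv => by
        have := (hcon v hv).le
        push_cast at this
        exact this
    have h2 : ∑ v ∈ U, T * (1 / (4 * h) + (∑ b, dY v b : ℕ) / (4 * Lc)) =
        T * (U.card / (4 * h) + (∑ v ∈ U, ∑ b, dY v b : ℕ) / (4 * Lc)) := by
      rw [← Finset.mul_sum, Finset.sum_add_distrib, Finset.sum_const, nsmul_eq_mul,
        ← Finset.sum_div]
      push_cast
      ring
    have h3 : (U.card / (4 * h) : ℝ) ≤ 1 / 4 := by
      rw [div_le_div_iff₀ (by positivity) (by norm_num)]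
      have : (U.card : ℝ) ≤ h := by exact_mod_cast hU
      linarith
    have h4 : ((∑ v ∈ U, ∑ b, dY v b : ℕ) / (4 * Lc) : ℝ) ≤ 1 / 4 := by
      rw [div_le_div_iff₀ (by positivity) (by norm_num)]
      have : ((∑ v ∈ U, ∑ b, dY v b : ℕ) : ℝ) ≤ Lc := by exact_mod_cast hdY
      linarith
    have h5 : (E.card : ℝ) ≤ T * (1 / 2) := by
      rw [h2] at h1
      refine h1.trans (mul_le_mul_of_nonneg_left ?_ hTpos.le)
      linarith
    linarith
  obtain ⟨a, ha⟩ : ∃ a : ℝ, a = cnt v / T := ⟨_, rfl⟩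
  have hcv : (cnt v : ℝ) = a * T := by rw [ha]; field_simp
  have ha1 : 1 / (4 * h) ≤ a := by
    rw [hcv, mul_comm a] at hv
    have h1 := le_of_mul_le_mul_left hv hTpos
    have h2 : (0 : ℝ) ≤ (∑ b, dY v b : ℕ) / (4 * Lc) := by positivity
    linarith
  have ha2 : ((∑ b, dY v b : ℕ) : ℝ) ≤ 4 * Lc * a := by
    rw [hcv, mul_comm a] at hv
    have h1 := le_of_mul_le_mul_left hv hTpos
    have h2 : (0 : ℝ) ≤ 1 / (4 * h) := by positivity
    have h3 : ((∑ b, dY v b : ℕ) : ℝ) / (4 * Lc) ≤ a := by linarith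
    rw [div_le_iff₀ (by positivity)] at h3
    linarith
  have ha0 : 0 < a := lt_of_lt_of_le (by positivity) ha1
  -- the heavy half blocks
  set m : Fin D × Bool → ℕ := fun x => (E.filter fun z => vf z = v ∧ z.1.1 = x).card with hm
  have hmsum : cnt v = ∑ x, m x := by
    rw [hcnt, hm]
    simp only
    rw [Finset.card_eq_sum_card_fiberwise (f := fun z => z.1.1) (t := Finset.univ)
      (fun z _ => Finset.mem_coe.2 (Finset.mem_univ _))]
    refine Finset.sum_congr rfl fun x _ => ?_
    rw [Finset.filter_filter]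
  have hmle : ∀ x, (m x : ℝ) ≤ lB := by
    intro x
    have h1 : m x ≤ l * B := by
      rw [hm]
      simp only
      calc (E.filter fun z => vf z = v ∧ z.1.1 = x).card
          ≤ ((Finset.univ : Finset (Fin l × Fin B)).image
            fun y => (((x, y.1), y.2) : ((Fin D × Bool) × Fin l) × Fin B)).card := by
            refine Finset.card_le_card fun z hz => ?_
            rw [Finset.mem_filter] at hz
            rw [Finset.mem_image]
            exact ⟨(z.1.2, z.2), Finset.mem_univ _, by rw [← hz.2.2]⟩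
        _ ≤ (Finset.univ : Finset (Fin l × Fin B)).card := Finset.card_image_le
        _ = l * B := by simp
    rw [hlB]
    exact_mod_cast h1
  set HX : Finset (Fin D × Bool) := Finset.univ.filter fun x => a / 2 * lB ≤ (m x : ℝ) with hHX
  have hHXc : a * D ≤ (HX.card : ℝ) := by
    have h1 : (cnt v : ℝ) ≤ HX.card * lB + 2 * D * (a / 2 * lB) := by
      rw [hmsum]
      push_cast
      calc ∑ x, (m x : ℝ) ≤ ∑ x : Fin D × Bool, ((if x ∈ HX then lB else 0) + a / 2 * lB) := by
            refine Finset.sum_le_sum fun x _ => ?_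
            by_cases hx : x ∈ HX
            · rw [if_pos hx]
              have := hmle x
              have h5 : 0 ≤ a / 2 * lB := by positivity
              linarith
            · rw [if_neg hx]
              have h6 : ¬ (a / 2 * lB ≤ (m x : ℝ)) := by
                intro h7
                exact hx (Finset.mem_filter.2 ⟨Finset.mem_univ _, h7⟩)
              push Not at h6
              linarith
        _ = HX.card * lB + 2 * D * (a / 2 * lB) := by
            rw [Finset.sum_add_distrib, Finset.sum_const, Finset.card_univ, ← Finset.sum_filter]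
            simp only [Finset.sum_const, nsmul_eq_mul, Fintype.card_prod, Fintype.card_fin,
              Fintype.card_bool]
            rw [Finset.filter_mem_eq_inter, Finset.univ_inter]
            push_cast
            ring
    rw [hcv, hT] at h1
    have h2 : a * D * lB ≤ HX.card * lB := by nlinarith
    exact le_of_mul_le_mul_right h2 hlB1
  set HB : Finset (Fin D) := HX.image Prod.fst with hHB
  have hHBc : a * D ≤ 2 * (HB.card : ℝ) := by
    have h1 : HX.card ≤ 2 * HB.card := by
      have h2 : HX ⊆ HB ×ˢ (Finset.univ : Finset Bool) := by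
        intro x hx
        rw [Finset.mem_product]
        exact ⟨Finset.mem_image_of_mem _ hx, Finset.mem_univ _⟩
      have h3 := Finset.card_le_card h2
      rw [Finset.card_product, Finset.card_univ, Fintype.card_bool] at h3
      omega
    have h4 : (HX.card : ℝ) ≤ 2 * HB.card := by exact_mod_cast h1
    linarith
  -- the blocks with large degree
  set BD : Finset (Fin D) := Finset.univ.filter fun b => 16 * (Lc : ℝ) < D * dY v b with hBD
  have hBDc : 4 * (BD.card : ℝ) ≤ a * D := by
    have h1 : (BD.card : ℝ) * (16 * Lc) ≤ D * (∑ b, dY v b : ℕ) := by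
      push_cast
      rw [Finset.mul_sum]
      calc (BD.card : ℝ) * (16 * Lc) = ∑ b ∈ BD, 16 * (Lc : ℝ) := by
            rw [Finset.sum_const, nsmul_eq_mul]
        _ ≤ ∑ b ∈ BD, (D * dY v b : ℝ) :=
            Finset.sum_le_sum fun b hb => (Finset.mem_filter.1 hb).2.le
        _ ≤ ∑ b, (D * dY v b : ℝ) :=
            Finset.sum_le_sum_of_subset_of_nonneg (Finset.subset_univ _)
              fun b _ _ => by positivity
    have h2 : (BD.card : ℝ) * (16 * Lc) ≤ D * (4 * Lc * a) :=
      h1.trans (mul_le_mul_of_nonneg_left ha2 (by positivity))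
    have h3 : 4 * (BD.card : ℝ) * (4 * Lc) ≤ a * D * (4 * Lc) := by linarith
    exact le_of_mul_le_mul_right h3 (by positivity)
  have hG : (s : ℝ) ≤ ((HB \ BD).card : ℝ) := by
    have h1 : HB.card ≤ (HB \ BD).card + BD.card := by
      have := Finset.card_le_card_sdiff_add_card (s := HB) (t := BD)
      exact this
    have h2 : (HB.card : ℝ) ≤ (HB \ BD).card + BD.card := by exact_mod_cast h1
    have h3 : a * D / 4 ≤ ((HB \ BD).card : ℝ) := by linarith
    have h4 : (16 * h * s : ℝ) ≤ D := by exact_mod_cast hs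
    have h5 : (s : ℝ) ≤ a * D / 4 := by
      have h6 : (s : ℝ) ≤ D / (16 * h) := by
        rw [le_div_iff₀ (by positivity)]
        linarith
      have h7 : (D : ℝ) / (16 * h) = 1 / (4 * h) * D / 4 := by field_simp; norm_num
      rw [h7] at h6
      refine h6.trans ?_
      have : 1 / (4 * (h : ℝ)) * D ≤ a * D := mul_le_mul_of_nonneg_right ha1 (by positivity)
      linarith
    exact h5.trans h3
  obtain ⟨A, hA, hAc⟩ := Finset.exists_subset_card_eq (s := HB \ BD) (n := s) (by exact_mod_cast hG)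
  have hside : ∀ b : Fin D, ∃ t : Bool, b ∈ A → a / 2 * lB ≤ (m (b, t) : ℝ) := by
    intro b
    by_cases hb : b ∈ A
    · have h1 := (Finset.mem_sdiff.1 (hA hb)).1
      rw [hHB, Finset.mem_image] at h1
      obtain ⟨⟨b', t⟩, hx, rfl⟩ := h1
      exact ⟨t, fun _ => (Finset.mem_filter.1 hx).2⟩
    · exact ⟨false, fun h => absurd h hb⟩
  choose sg hsg using hside
  refine ⟨v, hvU, A, hAc, sg, ?_, ?_⟩
  · intro b hb
    have h1 := hsg b hb
    have h2 : (l * B : ℝ) ≤ 8 * h * (m (b, sg b) : ℝ) := by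
      have h3 : 1 / (4 * (h : ℝ)) / 2 * lB ≤ a / 2 * lB := by
        have : 1 / (4 * (h : ℝ)) / 2 ≤ a / 2 := by linarith
        exact mul_le_mul_of_nonneg_right this hlB1.le
      have h4 : 1 / (4 * (h : ℝ)) / 2 * lB ≤ (m (b, sg b) : ℝ) := h3.trans h1
      rw [← hlB]
      have h5 : 1 / (4 * (h : ℝ)) / 2 * lB = lB / (8 * h) := by field_simp; norm_num
      rw [h5, div_le_iff₀ (by positivity)] at h4
      linarith
    exact_mod_cast h2
  · have h1 : (D : ℝ) * ∑ b ∈ A, (dY v b : ℝ) ≤ 16 * s * Lc := by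
      rw [Finset.mul_sum]
      calc ∑ b ∈ A, ((D : ℝ) * dY v b) ≤ ∑ b ∈ A, 16 * (Lc : ℝ) := by
            refine Finset.sum_le_sum fun b hb => ?_
            have h2 := (Finset.mem_sdiff.1 (hA hb)).2
            by_contra h3
            push Not at h3
            exact h2 (Finset.mem_filter.2 ⟨Finset.mem_univ _, h3⟩)
        _ = 16 * s * Lc := by
            rw [Finset.sum_const, nsmul_eq_mul, hAc]
            ring
    exact_mod_cast h1

end Pool.AD
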