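import Mathlib

/-!
Adaptive randomised algorithms with zero tests (MP_b6562f_lc): Reed-Solomon words.
-/

set_option autoImplicit false

namespace Pool.AD

open Finset Polynomial

/-- the word of `c`: the values at `0, …, l - 1` of the polynomial with coefficients `c` -/
def rsw (p t l : ℕ) (c : Fin t → ZMod p) (i : Fin l) : ZMod p :=
  ∑ j : Fin t, c j * ((i : ℕ) : ZMod p) ^ (j : ℕ)

theorem rsw_surj {p t l : ℕ} (ht : 1 ≤ t) (i : Fin l) (a : ZMod p) : ∃ c, rsw p t l c i = a := by
  refine ⟨fun j => if j = ⟨0, ht⟩ then a else 0, ?_⟩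
  unfold rsw
  rw [Finset.sum_eq_single ⟨0, ht⟩]
  · simp
  · intro j _ hj
    simp [hj]
  · intro h
    exact absurd (Finset.mem_univ _) h

theorem rsw_agree {p t l : ℕ} (hp : p.Prime) (hl : l ≤ p) (c c' : Fin t → ZMod p) (h : c ≠ c') :
    (Finset.univ.filter fun i : Fin l => rsw p t l c i = rsw p t l c' i).card + 1 ≤ t := by
  classical
  have : Fact p.Prime := ⟨hp⟩
  set f : (ZMod p)[X] := ∑ j : Fin t, C (c j - c' j) * X ^ (j : ℕ) with hf
  have hcoeff : ∀ j : Fin t, f.coeff j = c j - c' j := by
    intro j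
    rw [hf, finsetSum_coeff]
    simp only [coeff_C_mul, coeff_X_pow]
    rw [Finset.sum_eq_single j]
    · simp
    · intro b _ hb
      rw [if_neg (fun h' => hb (Fin.ext h'.symm)), mul_zero]
    · intro h'
      exact absurd (Finset.mem_univ _) h'
  have hf0 : f ≠ 0 := by
    intro h0
    apply h
    funext j
    have := hcoeff j
    rw [h0, coeff_zero] at this
    exact (sub_eq_zero.1 this.symm)
  have hdeg : f.degree < t := by
    rw [degree_lt_iff_coeff_zero]
    intro m hm
    rw [hf, finsetSum_coeff]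
    refine Finset.sum_eq_zero fun j _ => ?_
    rw [coeff_C_mul, coeff_X_pow, if_neg, mul_zero]
    have := j.2
    omega
  have hnat : f.natDegree < t := (natDegree_lt_iff_degree_lt hf0).2 hdeg
  have hinj : Set.InjOn (fun i : Fin l => ((i : ℕ) : ZMod p))
      (Finset.univ.filter fun i : Fin l => rsw p t l c i = rsw p t l c' i) := by
    intro i _ i' _ hii
    simp only at hii
    rw [ZMod.natCast_eq_natCast_iff', Nat.mod_eq_of_lt (i.2.trans_le hl),
      Nat.mod_eq_of_lt (i'.2.trans_le hl)] at hii
    exact Fin.ext hii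
  have hsub : (Finset.univ.filter fun i : Fin l => rsw p t l c i = rsw p t l c' i).image
      (fun i : Fin l => ((i : ℕ) : ZMod p)) ⊆ f.roots.toFinset := by
    intro x hx
    obtain ⟨i, hi, rfl⟩ := Finset.mem_image.1 hx
    rw [Multiset.mem_toFinset, mem_roots hf0, IsRoot.def]
    have h1 := (Finset.mem_filter.1 hi).2
    rw [hf, eval_finsetSum]
    simp only [eval_mul, eval_C, eval_pow, eval_X, sub_mul]
    rw [Finset.sum_sub_distrib, sub_eq_zero]
    exact h1
  have h2 : (Finset.univ.filter fun i : Fin l => rsw p t l c i = rsw p t l c' i).card ≤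
      f.natDegree := by
    rw [← Finset.card_image_of_injOn hinj]
    exact (Finset.card_le_card hsub).trans ((Multiset.toFinset_card_le _).trans (card_roots' f))
  omega

theorem card_rs {p t : ℕ} [Fact p.Prime] : Fintype.card (Fin t → ZMod p) = p ^ t := by
  rw [Fintype.card_fun, ZMod.card, Fintype.card_fin]

end Pool.AD
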