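import Pool.Agent.Helper34.AD.Clique
import Pool.Agent.Helper41.SAT.Gad
import Pool.Agent.Helper59.SAT.Inst

/-!
Adaptive randomised algorithms with zero tests (MP_b6562f_lc): the cells of the gadget for `k`-SAT.
-/

set_option autoImplicit false

namespace Pool.AD.SAT

open Finset Pool.SatDet Pool.Agent.Helper41.SAT

section one

variable {d D l L R n : ℕ}

/-- the derivative clauses; every block has its own set of dummies -/
noncomputable def YP (ε : Gv D l L R ≃ Fin n) (P : Fin D → {P : Finset (Fin R) // P.card = d})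
    (y : Fin D × (Fin l → Bool) × (Fin l → Bool)) : Clause n (d + 2) :=
  Yg ε (P y.1).1 (P y.1).2 y

theorem viol_YP (ε : Gv D l L R ≃ Fin n) (P : Fin D → {P : Finset (Fin R) // P.card = d})
    (c : Fin D × Bool → Fin l → Bool) (y : Fin D × (Fin l → Bool) × (Fin l → Bool)) :
    ¬ Sats (ac ε c) (YP ε P y) ↔ y.2 = (c (y.1, false), c (y.1, true)) := by
  obtain ⟨b, α, α'⟩ := y
  rw [YP, viol_Y]
  simp only [Prod.mk.injEq]

theorem inj_XYP (ε : Gv D l L R ≃ Fin n) (P : Fin D → {P : Finset (Fin R) // P.card = d}) :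
    Function.Injective (Sum.elim (Xg (d := d) ε) (YP ε P)) := by
  rintro (x | ⟨b, α, α'⟩) (x' | ⟨b', β, β'⟩) H
  · have := @Pool.Agent.Helper41.SAT.inj_XY d D l L R n ε (P ⟨0, by
      have := x.1.1.1.2
      omega⟩).1 (P _).2 (Sum.inl x) (Sum.inl x') H
    exact this
  · have := @Pool.Agent.Helper41.SAT.inj_XY d D l L R n ε (P b').1 (P b').2 (Sum.inl x) (Sum.inr (b', β, β')) H
    simp at this
  · have := @Pool.Agent.Helper41.SAT.inj_XY d D l L R n ε (P b).1 (P b).2 (Sum.inr (b, α, α')) (Sum.inl x') H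
    simp at this
  · simp only [Sum.elim_inr, YP, Yg] at H
    obtain ⟨h1, -⟩ := gcl_eq H
    have h3 : (Sum.inl ((b, false), α) : Gv D l L R) ∈ TY b α α' (P b).1 := mem_TY_u.2 (Or.inl rfl)
    have h4 : (Sum.inl ((b, true), α') : Gv D l L R) ∈ TY b α α' (P b).1 := mem_TY_u.2 (Or.inr rfl)
    rw [h1, mem_TY_u] at h3 h4
    simp only [Prod.mk.injEq, Bool.false_eq_true, and_false, false_and, or_false, and_true,
      Bool.true_eq_false, false_or] at h3 h4
    obtain ⟨rfl, rfl⟩ := h3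
    obtain ⟨-, rfl⟩ := h4
    rfl

/-- the chosen `X` are forced -/
theorem force (ε : Gv D l L R ≃ Fin n) (P : Fin D → {P : Finset (Fin R) // P.card = d})
    (hd : 1 ≤ d) (hk : d + 2 ≤ Fintype.card (Gv D l L R)) (c : Fin D × Bool → Fin l → Bool)
    (S : Finset (Clause n (d + 2))) (hP : ∃ a, ∀ C, ¬ Sats a C → C ∈ S)
    (hS : ∀ e ∈ S, (∃ c', ¬ Sats (ac ε c') e) ∧
      ∀ y, e = YP ε P y → y.2 = (c (y.1, false), c (y.1, true))) :
    ∀ h i j, Xg (d := d) ε ((h, i), (c h i, j)) ∈ S := by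
  obtain ⟨a, ha⟩ := hP
  have hloc : ∀ T : Finset (Gv D l L R), T.card ≤ d + 2 →
      ∃ c' : Fin D × Bool → Fin l → Bool, ∀ x ∈ T, a (ε x) = val c' x := by
    intro T hT
    obtain ⟨T', hTT', hT'⟩ := Finset.exists_superset_card_eq hT hk
    have h1 : gcl ε (fun x => a (ε x)) T' hT' ∈ S := by
      apply ha
      rw [viol_gcl]
      intro x _
      rfl
    obtain ⟨c', hc'⟩ := (hS _ h1).1
    refine ⟨c', fun x hx => ?_⟩
    rw [viol_ac_gcl] at hc'
    exact (hc' x (hTT' hx)).symm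
  have hloc3 : ∀ x y z : Gv D l L R, ∃ c' : Fin D × Bool → Fin l → Bool,
      a (ε x) = val c' x ∧ a (ε y) = val c' y ∧ a (ε z) = val c' z := by
    intro x y z
    obtain ⟨c', hc'⟩ := hloc {x, y, z} (Finset.card_le_three.trans (by omega))
    exact ⟨c', hc' x (by simp), hc' y (by simp), hc' z (by simp)⟩
  -- the dummies
  have hz : ∀ j, a (ε (Sum.inr (Sum.inr (Sum.inr j)))) = false := by
    intro j
    obtain ⟨c', h1, -⟩ := hloc3 (Sum.inr (Sum.inr (Sum.inr j))) (Sum.inr (Sum.inr (Sum.inr j)))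
      (Sum.inr (Sum.inr (Sum.inr j)))
    rw [h1]
    rfl
  -- the bits
  have hw : ∀ h α i t, a (ε (Sum.inl (h, α))) = true →
      a (ε (Sum.inr (Sum.inr (Sum.inl ((h, i), t))))) = α i := by
    intro h α i t hu
    obtain ⟨c', h1, h2, -⟩ := hloc3 (Sum.inl (h, α)) (Sum.inr (Sum.inr (Sum.inl ((h, i), t))))
      (Sum.inl (h, α))
    rw [hu] at h1
    have h3 : α = c' h := by simpa [Pool.Agent.Helper41.SAT.val] using h1.symm
    rw [h2, h3]
    rfl
  -- the ladder
  have hex : ∀ h, ∃ α, a (ε (Sum.inl (h, α))) = true := by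
    intro h
    by_contra hcon
    push Not at hcon
    have hu : ∀ α, a (ε (Sum.inl (h, α))) = false := by
      intro α
      simpa using hcon α
    have key : ∀ (j : ℕ) (hj : j < 2 ^ l),
        a (ε (Sum.inr (Sum.inl (h, ⟨j, hj⟩)))) = true := by
      intro j
      induction j with
      | zero =>
        intro hj
        obtain ⟨c', h1, -⟩ := hloc3 (Sum.inr (Sum.inl (h, ⟨0, hj⟩)))
          (Sum.inr (Sum.inl (h, ⟨0, hj⟩))) (Sum.inr (Sum.inl (h, ⟨0, hj⟩)))
        rw [h1]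
        simp only [Pool.Agent.Helper41.SAT.val, decide_eq_true_eq]
        exact Nat.zero_le _
      | succ j ih =>
        intro hj
        obtain ⟨c', h1, h2, h3⟩ := hloc3 (Sum.inr (Sum.inl (h, ⟨j, by omega⟩)))
          (Sum.inl (h, (idx l).symm ⟨j, by omega⟩)) (Sum.inr (Sum.inl (h, ⟨j + 1, hj⟩)))
        rw [ih] at h1
        rw [hu] at h2
        simp only [Pool.Agent.Helper41.SAT.val] at h1 h2 h3
        have h4 : (⟨j, by omega⟩ : Fin (2 ^ l)) ≤ idx l (c' h) := by simpa using h1.symm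
        have h5 : (idx l).symm ⟨j, by omega⟩ ≠ c' h := by simpa using h2.symm
        have h6 : (⟨j, by omega⟩ : Fin (2 ^ l)) ≠ idx l (c' h) := by
          intro h7
          apply h5
          rw [h7, Equiv.symm_apply_apply]
        rw [h3, decide_eq_true_eq]
        have h7 := lt_of_le_of_ne h4 h6
        exact h7
    have hpos : 0 < 2 ^ l := Nat.two_pow_pos l
    obtain ⟨c', h1, h2, -⟩ := hloc3 (Sum.inr (Sum.inl (h, ⟨2 ^ l - 1, by omega⟩)))
      (Sum.inl (h, (idx l).symm ⟨2 ^ l - 1, by omega⟩))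
      (Sum.inl (h, (idx l).symm ⟨2 ^ l - 1, by omega⟩))
    rw [key] at h1
    rw [hu] at h2
    simp only [Pool.Agent.Helper41.SAT.val] at h1 h2
    have h4 : (⟨2 ^ l - 1, by omega⟩ : Fin (2 ^ l)) ≤ idx l (c' h) := by simpa using h1.symm
    have h5 : (idx l).symm ⟨2 ^ l - 1, by omega⟩ ≠ c' h := by simpa using h2.symm
    apply h5
    rw [Equiv.symm_apply_eq]
    apply Fin.ext
    have h6 := (idx l (c' h)).2
    have h7 : 2 ^ l - 1 ≤ (idx l (c' h) : ℕ) := h4
    simp only
    omega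
  -- the pairs
  have hY : ∀ b α α', a (ε (Sum.inl ((b, false), α))) = true →
      a (ε (Sum.inl ((b, true), α'))) = true → α = c (b, false) ∧ α' = c (b, true) := by
    intro b α α' h1 h2
    have h3 : YP ε P (b, α, α') ∈ S := by
      apply ha
      rw [YP, Yg, viol_gcl]
      intro x hx
      rw [TY, Finset.mem_insert, Finset.mem_insert, Finset.mem_map] at hx
      rcases hx with rfl | rfl | ⟨j, -, rfl⟩
      · exact h1
      · exact h2
      · exact hz j
    have h4 := (hS _ h3).2 _ rfl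
    simp only [Prod.mk.injEq] at h4
    exact h4
  have hu : ∀ h, a (ε (Sum.inl (h, c h))) = true := by
    rintro ⟨b, s⟩
    obtain ⟨α, hα⟩ := hex (b, false)
    obtain ⟨α', hα'⟩ := hex (b, true)
    obtain ⟨rfl, rfl⟩ := hY b α α' hα hα'
    cases s
    · exact hα
    · exact hα'
  intro h i j
  apply ha
  rw [Xg, viol_gcl]
  intro x hx
  rw [TX, Finset.mem_insert, Finset.mem_map] at hx
  rcases hx with rfl | ⟨j', -, rfl⟩
  · exact hw _ _ _ _ (hu h)
  · exact hz j'

end one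

section cells

variable {d J D l L R n : ℕ}

/-- the choices agree on the cells with index at least `i` -/
def Agr (c : Ch J D l) (i : ℕ) (c' : Fin (J * D) × Bool → Fin l → Bool) : Prop :=
  ∀ h : Fin (J * D) × Bool, i ≤ (cel h.1 : ℕ) → c' h = full c h

theorem Agr.mono {c : Ch J D l} {i i' : ℕ} (hi : i ≤ i') {c' : Fin (J * D) × Bool → Fin l → Bool}
    (h : Agr c i c') : Agr c i' c' := fun x hx => h x (hi.trans hx)

theorem agr_full (c : Ch J D l) (i : ℕ) : Agr c i (full c) := fun _ _ => rfl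

/-- the clause is not a wrong derivative clause -/
def Ok (ε : Gv (J * D) l L R ≃ Fin n) (P : Fin (J * D) → {P : Finset (Fin R) // P.card = d})
    (c : Ch J D l) (C : Clause n (d + 2)) : Prop :=
  ∀ y, C = YP ε P y → y.2 = (full c (y.1, false), full c (y.1, true))

/-- the chain -/
noncomputable def Sc (ε : Gv (J * D) l L R ≃ Fin n)
    (P : Fin (J * D) → {P : Finset (Fin R) // P.card = d}) (c : Ch J D l) (i : ℕ) :
    Finset (Clause n (d + 2)) :=
  open Classical in
  Finset.univ.filter fun C => (∃ c', Agr c i c' ∧ ¬ Sats (ac ε c') C) ∧ Ok ε P c C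

theorem mem_Sc (ε : Gv (J * D) l L R ≃ Fin n)
    (P : Fin (J * D) → {P : Finset (Fin R) // P.card = d}) (c : Ch J D l) (i : ℕ)
    (C : Clause n (d + 2)) :
    C ∈ Sc ε P c i ↔ (∃ c', Agr c i c' ∧ ¬ Sats (ac ε c') C) ∧ Ok ε P c C := by
  classical
  simp [Sc]

/-- alive clauses of a cell -/
noncomputable def Xc (ε : Gv (J * D) l L R ≃ Fin n) (j : Fin J)
    (x : ((Fin D × Bool) × Fin l) × (Bool × Fin (L * R.choose (d + 1)))) : Clause n (d + 2) :=
  Xg (d := d) ε (((bk j x.1.1.1, x.1.1.2), x.1.2), x.2)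

/-- derivative clauses of a cell -/
noncomputable def Yc (ε : Gv (J * D) l L R ≃ Fin n)
    (P : Fin (J * D) → {P : Finset (Fin R) // P.card = d}) (j : Fin J)
    (y : Fin D × (Fin l → Bool) × (Fin l → Bool)) : Clause n (d + 2) :=
  YP ε P (bk j y.1, y.2)

/-- free clauses for the cell `j` -/
noncomputable def Zc (ε : Gv (J * D) l L R ≃ Fin n)
    (P : Fin (J * D) → {P : Finset (Fin R) // P.card = d}) (j : Fin J) (c : Ch J D l) :
    Finset (Clause n (d + 2)) :=
  open Classical in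
  Finset.univ.filter fun C => (∃ c', Agr c (j + 1) c' ∧ ¬ Sats (ac ε c') C) ∧ Ok ε P c C ∧
    (∀ x, C ≠ Xc (d := d) ε j x) ∧ ∀ y, C ≠ Yc ε P j y

theorem mem_Zc (ε : Gv (J * D) l L R ≃ Fin n)
    (P : Fin (J * D) → {P : Finset (Fin R) // P.card = d}) (j : Fin J) (c : Ch J D l)
    (C : Clause n (d + 2)) :
    C ∈ Zc ε P j c ↔ (∃ c', Agr c (j + 1) c' ∧ ¬ Sats (ac ε c') C) ∧ Ok ε P c C ∧
    (∀ x, C ≠ Xc (d := d) ε j x) ∧ ∀ y, C ≠ Yc ε P j y := by
  classical
  simp [Zc]

theorem inj_XYc (ε : Gv (J * D) l L R ≃ Fin n)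
    (P : Fin (J * D) → {P : Finset (Fin R) // P.card = d}) (j : Fin J) :
    Function.Injective (Sum.elim (Xc (d := d) ε j) (Yc ε P j)) := by
  rintro (x | y) (x' | y') h
  · have h1 := @inj_XYP d (J * D) l L R n ε P (Sum.inl _) (Sum.inl _) h
    simp only [Sum.inl.injEq, Prod.mk.injEq] at h1
    obtain ⟨⟨⟨h2, h3⟩, h4⟩, h5⟩ := h1
    rw [show x = x' from Prod.ext (Prod.ext (Prod.ext (bk_inj h2) h3) h4) h5]
  · have h1 := @inj_XYP d (J * D) l L R n ε P (Sum.inl _) (Sum.inr _) h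
    simp at h1
  · have h1 := @inj_XYP d (J * D) l L R n ε P (Sum.inr _) (Sum.inl _) h
    simp at h1
  · have h1 := @inj_XYP d (J * D) l L R n ε P (Sum.inr _) (Sum.inr _) h
    simp only [Sum.inr.injEq, Prod.mk.injEq] at h1
    rw [show y = y' from Prod.ext (bk_inj h1.1) h1.2]

theorem not_Y_of_X (ε : Gv (J * D) l L R ≃ Fin n)
    (P : Fin (J * D) → {P : Finset (Fin R) // P.card = d}) (x y) :
    Xg (d := d) ε x ≠ YP ε P y := by
  intro h
  have h1 := @inj_XYP d (J * D) l L R n ε P (Sum.inl x) (Sum.inr y) h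
  simp at h1

theorem YP_inj (ε : Gv (J * D) l L R ≃ Fin n)
    (P : Fin (J * D) → {P : Finset (Fin R) // P.card = d})
    {y y' : Fin (J * D) × (Fin l → Bool) × (Fin l → Bool)} (h : YP ε P y = YP ε P y') :
    y = y' := by
  have h1 := @inj_XYP d (J * D) l L R n ε P (Sum.inr y) (Sum.inr y') h
  simpa using h1

theorem ok_viol (ε : Gv (J * D) l L R ≃ Fin n)
    (P : Fin (J * D) → {P : Finset (Fin R) // P.card = d}) (c : Ch J D l) (C : Clause n (d + 2))
    (h : ¬ Sats (ac ε (full c)) C) : Ok ε P c C := by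
  rintro y rfl
  exact (viol_YP ε P _ y).1 h

/-- THE CELLS OF THE SAT GADGET -/
noncomputable def satGadget (ε : Gv (J * D) l L R ≃ Fin n)
    (P : Fin (J * D) → {P : Finset (Fin R) // P.card = d}) (hd : 1 ≤ d) (hk : d + 2 ≤ n) :
    CellGadget (SatP n (d + 2)) J D l (L * R.choose (d + 1)) where
  S := Sc ε P
  X := Xc ε
  Y := Yc ε P
  Z := Zc ε P
  mono := by
    intro c i C hC
    rw [mem_Sc] at hC ⊢
    obtain ⟨⟨c', h1, h2⟩, h3⟩ := hC
    exact ⟨⟨c', h1.mono (Nat.le_succ i), h2⟩, h3⟩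
  inj := inj_XYc ε P
  XZ := by
    intro j c x hx
    rw [mem_Zc] at hx
    exact hx.2.2.1 x rfl
  YZ := by
    intro j c y hy
    rw [mem_Zc] at hy
    exact hy.2.2.2 y rfl
  Zc := by
    have key : ∀ (j : Fin J) (c c' : Ch J D l), (∀ i, i ≠ j → c i = c' i) →
        ∀ e ∈ Zc ε P j c, e ∈ Zc ε P j c' := by
      intro j c c' h e he
      rw [mem_Zc] at he ⊢
      obtain ⟨⟨c1, h1, h2⟩, hok, hX, hY⟩ := he
      refine ⟨⟨c1, ?_, h2⟩, ?_, hX, hY⟩
      · intro x hx
        rw [h1 x hx]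
        obtain ⟨b, s⟩ := x
        refine full_congr (h _ ?_) s
        intro hj
        simp only at hx
        rw [hj] at hx
        omega
      · intro z hz
        have hz1 := hok z hz
        have hj : cel z.1 ≠ j := by
          intro hj
          obtain ⟨b', hb'⟩ := exists_bk z.1
          rw [hj] at hb'
          apply hY (b', z.2)
          rw [hz, Yc]
          congr 1
          exact Prod.ext hb' rfl
        rw [← full_congr (h _ hj), ← full_congr (h _ hj)]
        exact hz1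
    intro j c c' h
    ext e
    exact ⟨key j c c' h e, key j c' c (fun i hi => (h i hi).symm) e⟩
  yes := by
    intro c i _
    refine ⟨ac ε (full c), fun C hC => ?_⟩
    rw [mem_Sc]
    exact ⟨⟨full c, agr_full c i, hC⟩, ok_viol ε P c C hC⟩
  no := by
    intro c j x hx hP
    have h1 := force ε P hd (by rw [Fintype.card_congr ε, Fintype.card_fin]; exact hk) (full c)
      (Sc ε P c (j + 1) \ {Xc (d := d) ε j x}) hP (by
      intro e he
      have h2 := Finset.mem_sdiff.1 he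
      rw [mem_Sc] at h2
      obtain ⟨⟨⟨c', -, h3⟩, h4⟩, -⟩ := h2
      exact ⟨⟨c', h3⟩, h4⟩) (bk j x.1.1.1, x.1.1.2) x.1.2 x.2.2
    rw [full_bk] at h1
    rw [Pool.GT.mem_Mw] at hx
    have h2 : Xg (d := d) ε (((bk j x.1.1.1, x.1.1.2), x.1.2),
        (c j (x.1.1.1, x.1.1.2) x.1.2, x.2.2)) = Xc (d := d) ε j x := by
      rw [Xc]
      have : (c j (x.1.1.1, x.1.1.2) x.1.2, x.2.2) = x.2 := by
        rw [show (x.1.1.1, x.1.1.2) = x.1.1 from rfl, ← hx]
      rw [this]
    rw [h2] at h1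
    exact (Finset.mem_sdiff.1 h1).2 (Finset.mem_singleton_self _)
  low := by
    intro c j C hC
    rw [mem_Sc] at hC
    obtain ⟨⟨c', h1, h2⟩, hok⟩ := hC
    by_cases hX : ∃ z, C = Xc (d := d) ε j z
    · obtain ⟨z, rfl⟩ := hX
      refine Or.inr (Or.inl ⟨z, ?_, rfl⟩)
      rw [Pool.GT.mem_Mw]
      obtain ⟨⟨h, i⟩, e, s⟩ := z
      rw [Xc, viol_X] at h2
      have h3 := h1 (bk j h.1, h.2) (by simp)
      rw [h3, full_bk] at h2
      exact h2
    · by_cases hY : ∃ z, C = Yc ε P j z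
      · obtain ⟨z, hz⟩ := hY
        refine Or.inr (Or.inr ⟨z, ?_, hz⟩)
        rw [Pool.GT.mem_Yw]
        have h3 := hok _ hz
        refine ⟨z.1, ?_⟩
        rw [full_bk, full_bk] at h3
        exact Prod.ext rfl h3
      · push Not at hX hY
        left
        rw [mem_Zc]
        exact ⟨⟨c', h1.mono (Nat.le_succ _), h2⟩, hok, hX, hY⟩
  high := by
    intro c j C hC
    rw [mem_Sc]
    rcases hC with hC | ⟨x, rfl⟩ | ⟨y, hy, rfl⟩
    · rw [mem_Zc] at hC
      exact ⟨hC.1, hC.2.1⟩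
    · refine ⟨⟨fun h => if cel h.1 = j then fun _ => x.2.1 else full c h, ?_, ?_⟩, ?_⟩
      · intro h hh
        have h1 : cel h.1 ≠ j := by
          intro hj
          rw [hj] at hh
          omega
        simp only
        rw [if_neg h1]
      · obtain ⟨⟨h, i⟩, e, s⟩ := x
        rw [Xc, viol_X]
        simp
      · intro z hz
        exact absurd hz (not_Y_of_X ε P _ _)
    · obtain ⟨b, rfl⟩ := (Pool.GT.mem_Yw (c j) y).1 hy
      have h1 : ¬ Sats (ac ε (full c)) (Yc ε P j (b, c j (b, false), c j (b, true))) := by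
        rw [Yc, viol_YP]
        simp only [full_bk]
      exact ⟨⟨full c, agr_full c _, h1⟩, ok_viol ε P c _ h1⟩

end cells

end Pool.AD.SAT
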