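import Pool.Agent.Helper34.AD.Sat

/-!
Adaptive randomised algorithms with zero tests (MP_b6562f_lc): the symmetries of the gadget for
`k`-SAT.
-/

set_option autoImplicit false

namespace Pool.AD

open Finset

/-- the automorphisms of a property of sets -/
def AutP {V : Type} [DecidableEq V] (P : Finset V → Prop) : Subgroup (Equiv.Perm V) where
  carrier := {σ | ∀ S, P (S.image σ) ↔ P S}
  mul_mem' := by
    intro σ τ hσ hτ S
    rw [Set.mem_ofPred_eq] at hσ hτ
    rw [← hτ S, ← hσ (S.image τ), Finset.image_image]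
    rfl
  one_mem' := by
    intro S
    simp
  inv_mem' := by
    intro σ hσ S
    rw [Set.mem_ofPred_eq] at hσ
    rw [← hσ (S.image ⇑σ⁻¹), Finset.image_image]
    simp

theorem exists_perm {α : Type} [Fintype α] [DecidableEq α] (W T T' : Finset α) (hT : T ⊆ W)
    (hT' : T' ⊆ W) (h : T.card = T'.card) :
    ∃ π : Equiv.Perm α, (∀ x ∉ W, π x = x) ∧ (∀ x ∈ W, π x ∈ W) ∧ T.image π = T' := by
  classical
  have hc : ∀ A : Finset α, A ⊆ W → Fintype.card {x : {x // x ∈ W} // x.1 ∈ A} = A.card := by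
    intro A hA
    rw [← Fintype.card_coe A]
    refine Fintype.card_congr ⟨fun x => ⟨x.1.1, x.2⟩, fun x => ⟨⟨x.1, hA x.2⟩, x.2⟩, ?_, ?_⟩
    · intro x
      rfl
    · intro x
      rfl
  let e : {x : {x // x ∈ W} // x.1 ∈ T} ≃ {x : {x // x ∈ W} // x.1 ∈ T'} :=
    Fintype.equivOfCardEq (by rw [hc T hT, hc T' hT', h])
  let σ : Equiv.Perm {x // x ∈ W} := e.extendSubtype
  let π : Equiv.Perm α := Equiv.Perm.ofSubtype σ
  have h1 : ∀ x (hx : x ∈ W), π x = (σ ⟨x, hx⟩ : {x // x ∈ W}).1 := fun x hx =>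
    Equiv.Perm.ofSubtype_apply_of_mem σ hx
  refine ⟨π, fun x hx => Equiv.Perm.ofSubtype_apply_of_not_mem σ hx, fun x hx => ?_, ?_⟩
  · rw [h1 x hx]
    exact (σ ⟨x, hx⟩).2
  · refine Finset.eq_of_subset_of_card_le ?_ ?_
    · intro y hy
      obtain ⟨x, hx, rfl⟩ := Finset.mem_image.1 hy
      rw [h1 x (hT hx)]
      exact e.extendSubtype_mem ⟨x, hT hx⟩ hx
    · rw [Finset.card_image_of_injective _ π.injective, h]

end Pool.AD

namespace Pool.AD.SAT

open Finset Pool.SatDet Pool.Agent.Helper41.SAT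

section act

variable {n k : ℕ}

/-- literals: permutation of the variables and flips -/
def litE (π : Equiv.Perm (Fin n)) (φ : Fin n → Bool) : (Fin n × Bool) ≃ (Fin n × Bool) where
  toFun p := (π p.1, xor p.2 (φ p.1))
  invFun p := (π.symm p.1, xor p.2 (φ (π.symm p.1)))
  left_inv p := by simp
  right_inv p := by simp

theorem litE_symm (π : Equiv.Perm (Fin n)) (φ : Fin n → Bool) (p : Fin n × Bool) :
    (litE π φ).symm p = (π.symm p.1, xor p.2 (φ (π.symm p.1))) := rfl

theorem litE_apply (π : Equiv.Perm (Fin n)) (φ : Fin n → Bool) (p : Fin n × Bool) :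
    litE π φ p = (π p.1, xor p.2 (φ p.1)) := rfl

theorem isClause_map (π : Equiv.Perm (Fin n)) (φ : Fin n → Bool) (C : Finset (Fin n × Bool))
    (hC : IsClause n k C) : IsClause n k (C.map (litE π φ).toEmbedding) := by
  refine ⟨by rw [Finset.card_map]; exact hC.1, ?_⟩
  intro i
  rw [Finset.mem_map_equiv, Finset.mem_map_equiv, litE_symm, litE_symm]
  have := hC.2 (π.symm i)
  simp only
  cases h : φ (π.symm i)
  · simpa using this
  · simp only [Bool.xor_true, Bool.not_true, Bool.not_false]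
    rintro ⟨h1, h2⟩
    exact this ⟨h2, h1⟩

theorem isClause_map_symm (π : Equiv.Perm (Fin n)) (φ : Fin n → Bool) (C : Finset (Fin n × Bool))
    (hC : IsClause n k C) : IsClause n k (C.map (litE π φ).symm.toEmbedding) := by
  refine ⟨by rw [Finset.card_map]; exact hC.1, ?_⟩
  intro i
  rw [Finset.mem_map_equiv, Finset.mem_map_equiv, Equiv.symm_symm, litE_apply, litE_apply]
  have := hC.2 (π i)
  simp only
  cases h : φ i
  · simpa using this
  · simp only [Bool.xor_true, Bool.not_true, Bool.not_false]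
    rintro ⟨h1, h2⟩
    exact this ⟨h2, h1⟩

/-- the action on clauses -/
def clE (π : Equiv.Perm (Fin n)) (φ : Fin n → Bool) : Equiv.Perm (Clause n k) where
  toFun C := ⟨C.1.map (litE π φ).toEmbedding, isClause_map π φ _ C.2⟩
  invFun C := ⟨C.1.map (litE π φ).symm.toEmbedding, isClause_map_symm π φ _ C.2⟩
  left_inv C := by
    apply Subtype.ext
    ext p
    simp only [Finset.mem_map_equiv, Equiv.symm_symm, Equiv.symm_apply_apply]
  right_inv C := by
    apply Subtype.ext
    ext p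
    simp only [Finset.mem_map_equiv, Equiv.symm_symm, Equiv.apply_symm_apply]

theorem mem_clE (π : Equiv.Perm (Fin n)) (φ : Fin n → Bool) (C : Clause n k) (p : Fin n × Bool) :
    litE π φ p ∈ (clE π φ C).1 ↔ p ∈ C.1 := by
  simp only [clE, Equiv.coe_fn_mk, Finset.mem_map_equiv, Equiv.symm_apply_apply]

/-- the action on assignments -/
def asE (π : Equiv.Perm (Fin n)) (φ : Fin n → Bool) (a : Fin n → Bool) : Fin n → Bool :=
  fun i => xor (a (π.symm i)) (φ (π.symm i))

theorem asE_surj (π : Equiv.Perm (Fin n)) (φ : Fin n → Bool) (a : Fin n → Bool) :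
    ∃ a', asE π φ a' = a := by
  refine ⟨fun i => xor (a (π i)) (φ i), ?_⟩
  funext i
  simp [asE]

theorem sats_clE (π : Equiv.Perm (Fin n)) (φ : Fin n → Bool) (a : Fin n → Bool) (C : Clause n k) :
    Sats (asE π φ a) (clE π φ C) ↔ Sats a C := by
  unfold Sats
  constructor
  · rintro ⟨p, hp, h⟩
    obtain ⟨q, rfl⟩ := (litE π φ).surjective p
    rw [mem_clE] at hp
    refine ⟨q, hp, ?_⟩
    rw [litE_apply] at h
    simpa [asE] using h
  · rintro ⟨q, hq, h⟩
    refine ⟨litE π φ q, (mem_clE π φ C q).2 hq, ?_⟩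
    rw [litE_apply]
    simpa [asE] using h

theorem clE_mem_Aut (π : Equiv.Perm (Fin n)) (φ : Fin n → Bool) :
    clE π φ ∈ AutP (SatP n k) := by
  intro S
  constructor
  · rintro ⟨a, ha⟩
    obtain ⟨a', rfl⟩ := asE_surj π φ a
    refine ⟨a', fun C hC => ?_⟩
    have h1 := ha (clE π φ C) (by rw [sats_clE]; exact hC)
    obtain ⟨C', hC', h2⟩ := Finset.mem_image.1 h1
    rw [← (clE π φ).injective h2]
    exact hC'
  · rintro ⟨a, ha⟩
    refine ⟨asE π φ a, fun C hC => ?_⟩
    obtain ⟨C', rfl⟩ := (clE π φ).surjective C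
    rw [sats_clE] at hC
    exact Finset.mem_image_of_mem _ (ha C' hC)

theorem supp_clE (π : Equiv.Perm (Fin n)) (φ : Fin n → Bool) (C : Clause n k) :
    supp (clE π φ C) = (supp C).image π := by
  ext i
  simp only [supp, Finset.mem_image]
  constructor
  · rintro ⟨p, hp, rfl⟩
    obtain ⟨q, rfl⟩ := (litE π φ).surjective p
    rw [mem_clE] at hp
    exact ⟨q.1, ⟨q, hp, rfl⟩, rfl⟩
  · rintro ⟨_, ⟨q, hq, rfl⟩, rfl⟩
    exact ⟨litE π φ q, (mem_clE π φ C q).2 hq, rfl⟩

end act

section orbit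

variable {d J D l L R n : ℕ}

/-- the twin variables -/
def Tw (P : Fin (J * D) → {P : Finset (Fin R) // P.card = d}) (j : ℕ) : Gv (J * D) l L R → Prop
  | Sum.inl (h, _) => j ≤ (cel h.1 : ℕ)
  | Sum.inr (Sum.inl (h, _)) => j ≤ (cel h.1 : ℕ)
  | Sum.inr (Sum.inr (Sum.inl ((h, _), _))) => j ≤ (cel h.1 : ℕ)
  | Sum.inr (Sum.inr (Sum.inr t)) => ∀ b, (cel b : ℕ) < j → t ∉ (P b).1

theorem val_Tw (P : Fin (J * D) → {P : Finset (Fin R) // P.card = d}) (j : ℕ) (c : Ch J D l)
    (c' : Fin (J * D) × Bool → Fin l → Bool) (h : Agr c j c') (x : Gv (J * D) l L R)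
    (hx : Tw P j x) : Pool.Agent.Helper41.SAT.val c' x = Pool.Agent.Helper41.SAT.val (full c) x := by
  rcases x with ⟨h', α⟩ | ⟨h', i⟩ | ⟨⟨h', i⟩, t⟩ | t
  · have := h h' hx
    simp only [Pool.Agent.Helper41.SAT.val, this]
  · have := h h' hx
    simp only [Pool.Agent.Helper41.SAT.val, this]
  · have := h h' hx
    simp only [Pool.Agent.Helper41.SAT.val, this]
  · rfl

open Classical in
/-- the twin variables as a set -/
noncomputable def TwS (ε : Gv (J * D) l L R ≃ Fin n)
    (P : Fin (J * D) → {P : Finset (Fin R) // P.card = d}) (j : ℕ) : Finset (Fin n) :=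
  Finset.univ.filter fun i => Tw P j (ε.symm i)

theorem mem_TwS (ε : Gv (J * D) l L R ≃ Fin n)
    (P : Fin (J * D) → {P : Finset (Fin R) // P.card = d}) (j : ℕ) (i : Fin n) :
    i ∈ TwS ε P j ↔ Tw P j (ε.symm i) := by
  simp [TwS]

/-- the variables of a derivative clause -/
theorem var_YP (ε : Gv (J * D) l L R ≃ Fin n)
    (P : Fin (J * D) → {P : Finset (Fin R) // P.card = d})
    (y : Fin (J * D) × (Fin l → Bool) × (Fin l → Bool)) (p : Fin n × Bool)
    (hp : p ∈ (YP ε P y).1) : ε.symm p.1 = Sum.inl ((y.1, false), y.2.1) ∨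
      ε.symm p.1 = Sum.inl ((y.1, true), y.2.2) ∨
      ∃ t ∈ (P y.1).1, ε.symm p.1 = Sum.inr (Sum.inr (Sum.inr t)) := by
  rw [YP, Yg, gcl, mem_vcl] at hp
  obtain ⟨x, hx, h⟩ := Finset.mem_map.1 hp.1
  have h1 : ε.symm p.1 = x := by
    rw [← h]
    exact ε.symm_apply_apply x
  rw [h1]
  rw [TY, Finset.mem_insert, Finset.mem_insert, Finset.mem_map] at hx
  rcases hx with h2 | h2 | ⟨t, ht, h2⟩
  · exact Or.inl h2
  · exact Or.inr (Or.inl h2)
  · exact Or.inr (Or.inr ⟨t, ht, h2.symm⟩)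

theorem not_Tw_YP (ε : Gv (J * D) l L R ≃ Fin n)
    (P : Fin (J * D) → {P : Finset (Fin R) // P.card = d}) (j : ℕ)
    (y : Fin (J * D) × (Fin l → Bool) × (Fin l → Bool)) (hy : (cel y.1 : ℕ) < j)
    (p : Fin n × Bool) (hp : p ∈ (YP ε P y).1) : p.1 ∉ TwS ε P j := by
  rw [mem_TwS]
  intro hT
  rcases var_YP ε P y p hp with h | h | ⟨t, ht, h⟩
  · rw [h] at hT
    exact absurd hT (not_le.2 hy)
  · rw [h] at hT
    exact absurd hT (not_le.2 hy)
  · rw [h] at hT
    exact hT y.1 hy ht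

theorem Tw_YP (ε : Gv (J * D) l L R ≃ Fin n)
    (P : Fin (J * D) → {P : Finset (Fin R) // P.card = d})
    (hP : ∀ b b', b ≠ b' → Disjoint (P b).1 (P b').1) (j : ℕ)
    (y : Fin (J * D) × (Fin l → Bool) × (Fin l → Bool)) (hy : j ≤ (cel y.1 : ℕ)) :
    supp (YP ε P y) ⊆ TwS ε P j := by
  intro i hi
  obtain ⟨p, hp, rfl⟩ := Finset.mem_image.1 hi
  rw [mem_TwS]
  rcases var_YP ε P y p hp with h | h | ⟨t, ht, h⟩
  · rw [h]
    exact hy
  · rw [h]
    exact hy
  · rw [h]
    intro b hb htb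
    have hne : b ≠ y.1 := by
      rintro rfl
      omega
    exact (Finset.disjoint_left.1 (hP b y.1 hne)) htb ht

/-- twin variables can be permuted -/
theorem inv_Sc (ε : Gv (J * D) l L R ≃ Fin n)
    (P : Fin (J * D) → {P : Finset (Fin R) // P.card = d}) (j : ℕ) (c : Ch J D l)
    (π : Equiv.Perm (Fin n)) (h1 : ∀ x ∉ TwS ε P j, π x = x) (h2 : ∀ x ∈ TwS ε P j, π x ∈ TwS ε P j)
    (φ : Fin n → Bool) (hφ : ∀ i, φ i = xor (ac ε (full c) i) (ac ε (full c) (π i))) :
    (∀ c', Agr c j c' → asE π φ (ac ε c') = ac ε c') ∧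
    (Sc ε P c j).image (clE π φ) = Sc ε P c j := by
  have hac : ∀ c', Agr c j c' → ∀ i ∈ TwS ε P j, ac ε c' i = ac ε (full c) i := by
    intro c' hc' i hi
    rw [mem_TwS] at hi
    exact val_Tw P j c c' hc' _ hi
  have has : ∀ c', Agr c j c' → asE π φ (ac ε c') = ac ε c' := by
    intro c' hc'
    funext i
    obtain ⟨i, rfl⟩ := π.surjective i
    rw [asE, Equiv.symm_apply_apply, hφ]
    by_cases hi : i ∈ TwS ε P j
    · rw [hac c' hc' i hi, hac c' hc' _ (h2 i hi)]
      simp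
    · rw [h1 i hi]
      simp
  refine ⟨has, ?_⟩
  refine Finset.eq_of_subset_of_card_le ?_ ?_
  · intro C' hC'
    obtain ⟨C, hC, rfl⟩ := Finset.mem_image.1 hC'
    rw [mem_Sc] at hC ⊢
    obtain ⟨⟨c', hc', hv⟩, hok⟩ := hC
    have hv' : ¬ Sats (ac ε c') (clE π φ C) := by
      rw [← has c' hc', sats_clE]
      exact hv
    refine ⟨⟨c', hc', hv'⟩, ?_⟩
    intro y hy
    by_cases hb : (cel y.1 : ℕ) < j
    · apply hok
      apply Subtype.ext
      ext p
      have hfix : ∀ q : Fin n × Bool, q.1 ∉ TwS ε P j → litE π φ q = q := by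
        intro q hq
        rw [litE_apply, hφ, h1 _ hq]
        simp
      have hnot := not_Tw_YP ε P j y hb
      rw [← hy] at hnot ⊢
      constructor
      · intro hp
        have h3 := (mem_clE π φ C p).2 hp
        have h4 : p.1 ∉ TwS ε P j := by
          intro h5
          exact hnot _ h3 (h2 _ h5)
        rwa [hfix p h4] at h3
      · intro hp
        have h4 := hnot p hp
        rw [← mem_clE π φ C p, hfix p h4]
        exact hp
    · push Not at hb
      rw [hy, viol_YP] at hv'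
      rw [hv', hc' (y.1, false) hb, hc' (y.1, true) hb]
  · rw [Finset.card_image_of_injective _ (clE π φ).injective]

open Classical in
/-- the orbit -/
noncomputable def Ob (ε : Gv (J * D) l L R ≃ Fin n)
    (P : Fin (J * D) → {P : Finset (Fin R) // P.card = d}) (c : Ch J D l) (j : ℕ) :
    Finset (Clause n (d + 2)) :=
  Finset.univ.filter fun C => ¬ Sats (ac ε (full c)) C ∧ supp C ⊆ TwS ε P j

theorem mem_Ob (ε : Gv (J * D) l L R ≃ Fin n)
    (P : Fin (J * D) → {P : Finset (Fin R) // P.card = d}) (c : Ch J D l) (j : ℕ)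
    (C : Clause n (d + 2)) :
    C ∈ Ob ε P c j ↔ ¬ Sats (ac ε (full c)) C ∧ supp C ⊆ TwS ε P j := by
  simp [Ob]

theorem card_Ob (ε : Gv (J * D) l L R ≃ Fin n)
    (P : Fin (J * D) → {P : Finset (Fin R) // P.card = d}) (c : Ch J D l) (j : ℕ) :
    (R - d * (J * D)).choose (d + 2) ≤ (Ob ε P c j).card := by
  classical
  have h1 : (Ob ε P c j).card = (TwS ε P j).card.choose (d + 2) := by
    have := card_viol (n := n) (k := d + 2) (ac ε (full c)) (fun T => T ⊆ TwS ε P j)
    rw [← Finset.card_powersetCard]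
    rw [show (Finset.powersetCard (d + 2) (TwS ε P j)) = (Finset.powersetCard (d + 2)
      (Finset.univ : Finset (Fin n))).filter fun T => T ⊆ TwS ε P j from ?_]
    · rw [← this]
      congr 1
    · ext T
      simp only [Finset.mem_powersetCard, Finset.mem_filter, Finset.subset_univ, true_and]
      tauto
  rw [h1]
  refine Nat.choose_le_choose _ ?_
  set U : Finset (Fin R) := Finset.univ.biUnion fun b : Fin (J * D) => (P b).1 with hU
  have hUc : U.card ≤ d * (J * D) := by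
    calc U.card ≤ ∑ b : Fin (J * D), (P b).1.card := Finset.card_biUnion_le
      _ = d * (J * D) := by
        rw [Finset.sum_congr rfl fun b _ => (P b).2, Finset.sum_const, Finset.card_univ,
          Fintype.card_fin, smul_eq_mul, mul_comm]
  have h2 : ((Finset.univ \ U).image fun t : Fin R => ε (Sum.inr (Sum.inr (Sum.inr t)))) ⊆
      TwS ε P j := by
    intro i hi
    obtain ⟨t, ht, rfl⟩ := Finset.mem_image.1 hi
    rw [mem_TwS, Equiv.symm_apply_apply]
    intro b _ hb
    refine (Finset.mem_sdiff.1 ht).2 ?_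
    rw [hU, Finset.mem_biUnion]
    exact ⟨b, Finset.mem_univ _, hb⟩
  refine le_trans ?_ (Finset.card_le_card h2)
  rw [Finset.card_image_of_injective, Finset.card_sdiff_of_subset (Finset.subset_univ _),
    Finset.card_univ, Fintype.card_fin]
  · omega
  · intro t t' h
    have := ε.injective h
    simpa using this

/-- THE SYMMETRY OF THE CHAIN: the derivative clauses of the cell `j` lie in a large orbit of the
stabilizer of the input `j` of the chain. -/
theorem orbit (ε : Gv (J * D) l L R ≃ Fin n)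
    (P : Fin (J * D) → {P : Finset (Fin R) // P.card = d})
    (hP : ∀ b b', b ≠ b' → Disjoint (P b).1 (P b').1) (c : Ch J D l) (j : Fin J) :
    (∀ y ∈ Pool.GT.Yw (c j), Yc ε P j y ∈ Ob ε P c j) ∧ Ob ε P c j ⊆ Sc ε P c j ∧
    ∀ e ∈ Ob ε P c j, ∀ e' ∈ Ob ε P c j, ∃ g ∈ AutP (SatP n (d + 2)),
      (Sc ε P c j).image g = Sc ε P c j ∧ g e = e' := by
  refine ⟨?_, ?_, ?_⟩
  · intro y hy
    obtain ⟨b, rfl⟩ := (Pool.GT.mem_Yw (c j) y).1 hy
    rw [mem_Ob]
    refine ⟨?_, Tw_YP ε P hP j _ (by simp)⟩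
    rw [Yc, viol_YP]
    simp only [full_bk]
  · intro C hC
    rw [mem_Ob] at hC
    rw [mem_Sc]
    exact ⟨⟨full c, agr_full c _, hC.1⟩, ok_viol ε P c C hC.1⟩
  · intro e he e' he'
    rw [mem_Ob] at he he'
    obtain ⟨π, h1, h2, h3⟩ := exists_perm (TwS ε P j) (supp e) (supp e') he.2 he'.2
      (by rw [card_supp, card_supp])
    set φ : Fin n → Bool := fun i => xor (ac ε (full c) i) (ac ε (full c) (π i)) with hφ
    obtain ⟨h4, h5⟩ := inv_Sc ε P j c π h1 h2 φ (fun i => rfl)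
    refine ⟨clE π φ, clE_mem_Aut π φ, h5, ?_⟩
    have h6 : ¬ Sats (ac ε (full c)) (clE π φ e) := by
      rw [← h4 (full c) (agr_full c _), sats_clE]
      exact he.1
    rw [eq_vcl _ _ h6, eq_vcl _ _ he'.1]
    have h7 : supp (clE π φ e) = supp e' := by rw [supp_clE, h3]
    apply Subtype.ext
    ext p
    rw [mem_vcl, mem_vcl, h7]

end orbit

end Pool.AD.SAT
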