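import Pool.Agent.Helper34.AD.Defs3
import Pool.Agent.Helper34.AD.SatSym

/-!
Adaptive randomised algorithms with zero tests (MP_b6562f_lc): the gadget for `k`-SAT with cells
and code words.
-/

set_option autoImplicit false
set_option linter.unusedSectionVars false

namespace Pool.AD.SATK

open Finset Pool.SatDet

section one

variable {d D l L R n : ℕ} {K Q : Type} [Fintype K] [DecidableEq K] [Fintype Q] [DecidableEq Q]

/-- The Boolean variables: one-hot variables, ladder variables, copies of the letters, dummies. -/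
abbrev GK (D l L R : ℕ) (K Q : Type) [Fintype K] : Type :=
  ((Fin D × Bool) × K) ⊕ (((Fin D × Bool) × Fin (Fintype.card K)) ⊕
    (((((Fin D × Bool) × Fin l) × Q) × Fin L) ⊕ Fin R))

noncomputable instance : DecidableEq (GK D l L R K Q) := Classical.decEq _

theorem card_GK : Fintype.card (GK D l L R K Q) =
    2 * D * (2 * Fintype.card K + l * Fintype.card Q * L) + R := by
  simp only [Fintype.card_sum, Fintype.card_prod, Fintype.card_fin, Fintype.card_bool]
  ring

/-- The enumeration of the words. -/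
noncomputable def ix (K : Type) [Fintype K] : K ≃ Fin (Fintype.card K) := Fintype.equivFin K

/-- The assignment of the choice `c`. -/
noncomputable def vl (w : K → Fin l → Q) (c : Fin D × Bool → K) : GK D l L R K Q → Bool
  | Sum.inl (h, α) => decide (α = c h)
  | Sum.inr (Sum.inl (h, j)) => decide (j ≤ ix K (c h))
  | Sum.inr (Sum.inr (Sum.inl (((h, i), a), _))) => decide (a = w (c h) i)
  | Sum.inr (Sum.inr (Sum.inr _)) => false

/-- The pattern of the variable clauses. -/
def pt : GK D l L R K Q → Bool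
  | Sum.inl _ => true
  | Sum.inr (Sum.inl _) => true
  | Sum.inr (Sum.inr (Sum.inl _)) => true
  | Sum.inr (Sum.inr (Sum.inr _)) => false

/-- The dummies. -/
def zem : Fin R ↪ GK D l L R K Q :=
  ⟨fun j => Sum.inr (Sum.inr (Sum.inr j)), fun i j h => by simpa using h⟩

/-- The variables of the alive clauses. -/
noncomputable def UX (h : Fin D × Bool) (i : Fin l) (a : Q) (t : Fin L) (P : Finset (Fin R)) :
    Finset (GK D l L R K Q) :=
  insert (Sum.inr (Sum.inr (Sum.inl (((h, i), a), t))) : GK D l L R K Q) (P.map zem)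

/-- The variables of the derivative clauses. -/
noncomputable def UY (b : Fin D) (α α' : K) (P : Finset (Fin R)) : Finset (GK D l L R K Q) :=
  insert (Sum.inl ((b, false), α) : GK D l L R K Q)
    (insert (Sum.inl ((b, true), α') : GK D l L R K Q) (P.map zem))

theorem card_UX (h : Fin D × Bool) (i : Fin l) (a : Q) (t : Fin L) (P : Finset (Fin R)) :
    (UX (K := K) h i a t P).card = P.card + 1 := by
  rw [UX, Finset.card_insert_of_notMem, Finset.card_map]
  simp [zem]

theorem card_UY (b : Fin D) (α α' : K) (P : Finset (Fin R)) :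
    (UY (L := L) (l := l) (Q := Q) b α α' P).card = P.card + 2 := by
  rw [UY, Finset.card_insert_of_notMem, Finset.card_insert_of_notMem, Finset.card_map]
  · simp [zem]
  · simp [zem]

theorem mem_UX_z {h : Fin D × Bool} {i : Fin l} {a : Q} {t : Fin L} {P : Finset (Fin R)}
    {j : Fin R} : Sum.inr (Sum.inr (Sum.inr j)) ∈ UX (K := K) h i a t P ↔ j ∈ P := by
  simp [UX, zem]

theorem mem_UX_w {h h' : Fin D × Bool} {i i' : Fin l} {a a' : Q} {t t' : Fin L}
    {P : Finset (Fin R)} :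
    Sum.inr (Sum.inr (Sum.inl (((h', i'), a'), t'))) ∈ UX (K := K) h i a t P ↔
      h' = h ∧ i' = i ∧ a' = a ∧ t' = t := by
  simp [UX, zem, and_assoc]

theorem mem_UX_u {h : Fin D × Bool} {i : Fin l} {a : Q} {t : Fin L} {P : Finset (Fin R)}
    {x : (Fin D × Bool) × K} : Sum.inl x ∉ UX (K := K) h i a t P := by
  simp [UX, zem]

theorem mem_UY_u {b : Fin D} {α α' : K} {P : Finset (Fin R)} {x : (Fin D × Bool) × K} :
    Sum.inl x ∈ UY (L := L) (l := l) (Q := Q) b α α' P ↔
      x = ((b, false), α) ∨ x = ((b, true), α') := by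
  simp [UY, zem]

/-- The clause on the gadget variables `T`, violated by `a`. -/
def gk {k : ℕ} (ε : GK D l L R K Q ≃ Fin n) (a : GK D l L R K Q → Bool)
    (T : Finset (GK D l L R K Q)) (hT : T.card = k) : Clause n k :=
  vcl (fun x => a (ε.symm x)) (T.map ε.toEmbedding) (by rw [Finset.card_map]; exact hT)

theorem viol_gk {k : ℕ} (ε : GK D l L R K Q ≃ Fin n) (a : Fin n → Bool)
    (a' : GK D l L R K Q → Bool) (T : Finset (GK D l L R K Q)) (hT : T.card = k) :
    ¬ Sats a (gk ε a' T hT) ↔ ∀ x ∈ T, a (ε x) = a' x := by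
  rw [gk, Pool.Agent.Helper41.SAT.viol_vcl]
  constructor
  · intro h x hx
    have := h (ε x) (Finset.mem_map_of_mem _ hx)
    rwa [Equiv.symm_apply_apply] at this
  · intro h x hx
    obtain ⟨y, hy, rfl⟩ := Finset.mem_map.1 hx
    have := h y hy
    simpa using this

theorem gk_eq {k : ℕ} {ε : GK D l L R K Q ≃ Fin n} {a a' : GK D l L R K Q → Bool}
    {T T' : Finset (GK D l L R K Q)}
    {hT : T.card = k} {hT' : T'.card = k} (h : gk ε a T hT = gk ε a' T' hT') : T = T' := by
  obtain ⟨h1, -⟩ := Pool.Agent.Helper41.SAT.vcl_eq h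
  exact Finset.map_injective _ h1

/-- The index set of the copies. -/
noncomputable def ps (L R d : ℕ) :
    Fin (L * R.choose (d + 1)) ≃ Fin L × {P : Finset (Fin R) // P.card = d + 1} :=
  Fintype.equivOfCardEq (by simp)

/-- The alive clauses. -/
noncomputable def XK (ε : GK D l L R K Q ≃ Fin n) :
    ((Fin D × Bool) × Fin l) × (Q × Fin (L * R.choose (d + 1))) → Clause n (d + 2) :=
  fun x => gk ε pt (UX x.1.1 x.1.2 x.2.1 (ps L R d x.2.2).1 (ps L R d x.2.2).2.1)
    (by rw [card_UX, (ps L R d x.2.2).2.2])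

/-- the derivative clauses; every block has its own set of dummies -/
noncomputable def YK (ε : GK D l L R K Q ≃ Fin n)
    (P : Fin D → {P : Finset (Fin R) // P.card = d}) (y : Fin D × K × K) : Clause n (d + 2) :=
  gk ε pt (UY y.1 y.2.1 y.2.2 (P y.1).1) (by rw [card_UY, (P y.1).2])

/-- The assignment of a choice. -/
noncomputable def ak (ε : GK D l L R K Q ≃ Fin n) (w : K → Fin l → Q) (c : Fin D × Bool → K) :
    Fin n → Bool :=
  fun x => vl w c (ε.symm x)

theorem viol_ak_gk {k : ℕ} (ε : GK D l L R K Q ≃ Fin n) (w : K → Fin l → Q)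
    (c : Fin D × Bool → K) (a' : GK D l L R K Q → Bool) (T : Finset (GK D l L R K Q))
    (hT : T.card = k) :
    ¬ Sats (ak ε w c) (gk ε a' T hT) ↔ ∀ x ∈ T, vl w c x = a' x := by
  rw [viol_gk]
  simp [ak]

theorem viol_XK (ε : GK D l L R K Q ≃ Fin n) (w : K → Fin l → Q) (c : Fin D × Bool → K)
    (h : Fin D × Bool) (i : Fin l) (a : Q) (s : Fin (L * R.choose (d + 1))) :
    ¬ Sats (ak ε w c) (XK (d := d) ε ((h, i), (a, s))) ↔ a = w (c h) i := by
  rw [XK, viol_ak_gk]
  constructor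
  · intro H
    have := H (Sum.inr (Sum.inr (Sum.inl (((h, i), a), (ps L R d s).1))))
      (mem_UX_w.2 ⟨rfl, rfl, rfl, rfl⟩)
    simpa [vl, pt] using this
  · rintro rfl x hx
    rw [UX, Finset.mem_insert, Finset.mem_map] at hx
    rcases hx with rfl | ⟨j, -, rfl⟩
    · simp [vl, pt]
    · rfl

theorem viol_YK (ε : GK D l L R K Q ≃ Fin n) (P : Fin D → {P : Finset (Fin R) // P.card = d})
    (w : K → Fin l → Q) (c : Fin D × Bool → K) (y : Fin D × K × K) :
    ¬ Sats (ak ε w c) (YK ε P y) ↔ y.2 = (c (y.1, false), c (y.1, true)) := by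
  obtain ⟨b, α, α'⟩ := y
  rw [YK, viol_ak_gk]
  simp only [Prod.mk.injEq]
  constructor
  · intro H
    have h1 := H (Sum.inl ((b, false), α)) (mem_UY_u.2 (Or.inl rfl))
    have h2 := H (Sum.inl ((b, true), α')) (mem_UY_u.2 (Or.inr rfl))
    simpa [vl, pt] using And.intro h1 h2
  · rintro ⟨rfl, rfl⟩ x hx
    rw [UY, Finset.mem_insert, Finset.mem_insert, Finset.mem_map] at hx
    rcases hx with rfl | rfl | ⟨j, -, rfl⟩
    · simp [vl, pt]
    · simp [vl, pt]
    · rfl

theorem inj_XYK (ε : GK D l L R K Q ≃ Fin n) (P : Fin D → {P : Finset (Fin R) // P.card = d}) :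
    Function.Injective (Sum.elim (XK (d := d) ε) (YK ε P)) := by
  rintro (⟨⟨h, i⟩, a, s⟩ | ⟨b, α, α'⟩) (⟨⟨h', i'⟩, a', s'⟩ | ⟨b', β, β'⟩) H <;>
    simp only [Sum.elim_inl, Sum.elim_inr, XK, YK] at H
  · have h1 := gk_eq H
    have h3 : Sum.inr (Sum.inr (Sum.inl (((h, i), a), (ps L R d s).1))) ∈
        UX (K := K) h i a (ps L R d s).1 (ps L R d s).2.1 := mem_UX_w.2 ⟨rfl, rfl, rfl, rfl⟩
    rw [h1] at h3
    obtain ⟨rfl, rfl, rfl, h6⟩ := mem_UX_w.1 h3
    have h7 : (ps L R d s).2.1 = (ps L R d s').2.1 := by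
      ext j
      rw [← mem_UX_z (K := K) (h := h) (i := i) (a := a) (t := (ps L R d s).1), h1, mem_UX_z]
    have h8 : ps L R d s = ps L R d s' := Prod.ext h6 (Subtype.ext h7)
    rw [(ps L R d).injective h8]
  · have h1 := gk_eq H
    have h3 : (Sum.inl ((b', false), β) : GK D l L R K Q) ∈ UY b' β β' (P b').1 :=
      mem_UY_u.2 (Or.inl rfl)
    rw [← h1] at h3
    exact absurd h3 mem_UX_u
  · have h1 := gk_eq H
    have h3 : (Sum.inl ((b, false), α) : GK D l L R K Q) ∈ UY b α α' (P b).1 :=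
      mem_UY_u.2 (Or.inl rfl)
    rw [h1] at h3
    exact absurd h3 mem_UX_u
  · have h1 := gk_eq H
    have h3 : (Sum.inl ((b, false), α) : GK D l L R K Q) ∈ UY b α α' (P b).1 :=
      mem_UY_u.2 (Or.inl rfl)
    have h4 : (Sum.inl ((b, true), α') : GK D l L R K Q) ∈ UY b α α' (P b).1 :=
      mem_UY_u.2 (Or.inr rfl)
    rw [h1, mem_UY_u] at h3 h4
    simp only [Prod.mk.injEq, Bool.false_eq_true, and_false, false_and, or_false, and_true,
      Bool.true_eq_false, false_or] at h3 h4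
    obtain ⟨rfl, rfl⟩ := h3
    obtain ⟨-, rfl⟩ := h4
    rfl

/-- the chosen `X` are forced -/
theorem force (ε : GK D l L R K Q ≃ Fin n) (P : Fin D → {P : Finset (Fin R) // P.card = d})
    (w : K → Fin l → Q) (hd : 1 ≤ d) (hk : d + 2 ≤ Fintype.card (GK D l L R K Q))
    (c : Fin D × Bool → K)
    (S : Finset (Clause n (d + 2))) (hP : ∃ a, ∀ C, ¬ Sats a C → C ∈ S)
    (hS : ∀ e ∈ S, (∃ c', ¬ Sats (ak ε w c') e) ∧
      ∀ y, e = YK ε P y → y.2 = (c (y.1, false), c (y.1, true))) :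
    ∀ h i j, XK (d := d) ε ((h, i), (w (c h) i, j)) ∈ S := by
  obtain ⟨a, ha⟩ := hP
  have hloc : ∀ T : Finset (GK D l L R K Q), T.card ≤ d + 2 →
      ∃ c' : Fin D × Bool → K, ∀ x ∈ T, a (ε x) = vl w c' x := by
    intro T hT
    obtain ⟨T', hTT', hT'⟩ := Finset.exists_superset_card_eq hT hk
    have h1 : gk ε (fun x => a (ε x)) T' hT' ∈ S := by
      apply ha
      rw [viol_gk]
      intro x _
      rfl
    obtain ⟨c', hc'⟩ := (hS _ h1).1
    refine ⟨c', fun x hx => ?_⟩
    rw [viol_ak_gk] at hc'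
    exact (hc' x (hTT' hx)).symm
  have hloc3 : ∀ x y z : GK D l L R K Q, ∃ c' : Fin D × Bool → K,
      a (ε x) = vl w c' x ∧ a (ε y) = vl w c' y ∧ a (ε z) = vl w c' z := by
    intro x y z
    obtain ⟨c', hc'⟩ := hloc {x, y, z} (Finset.card_le_three.trans (by omega))
    exact ⟨c', hc' x (by simp), hc' y (by simp), hc' z (by simp)⟩
  -- the dummies
  have hz : ∀ j, a (ε (Sum.inr (Sum.inr (Sum.inr j)))) = false := by
    intro j
    obtain ⟨c', h1, -⟩ := hloc3 (Sum.inr (Sum.inr (Sum.inr j))) (Sum.inr (Sum.inr (Sum.inr j)))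
      (Sum.inr (Sum.inr (Sum.inr j)))
    rw [h1]
    rfl
  -- the letters
  have hw : ∀ h α i t, a (ε (Sum.inl (h, α))) = true →
      a (ε (Sum.inr (Sum.inr (Sum.inl (((h, i), w α i), t))))) = true := by
    intro h α i t hu
    obtain ⟨c', h1, h2, -⟩ := hloc3 (Sum.inl (h, α))
      (Sum.inr (Sum.inr (Sum.inl (((h, i), w α i), t)))) (Sum.inl (h, α))
    rw [hu] at h1
    have h3 : α = c' h := by simpa [vl] using h1.symm
    rw [h2, h3]
    simp [vl]
  -- the ladder
  have hex : ∀ h, ∃ α, a (ε (Sum.inl (h, α))) = true := by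
    intro h
    by_contra hcon
    push Not at hcon
    have hu : ∀ α, a (ε (Sum.inl (h, α))) = false := by
      intro α
      simpa using hcon α
    have key : ∀ (j : ℕ) (hj : j < Fintype.card K),
        a (ε (Sum.inr (Sum.inl (h, ⟨j, hj⟩)))) = true := by
      intro j
      induction j with
      | zero =>
        intro hj
        obtain ⟨c', h1, -⟩ := hloc3 (Sum.inr (Sum.inl (h, ⟨0, hj⟩)))
          (Sum.inr (Sum.inl (h, ⟨0, hj⟩))) (Sum.inr (Sum.inl (h, ⟨0, hj⟩)))
        rw [h1]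
        simp only [vl, decide_eq_true_eq]
        exact Nat.zero_le _
      | succ j ih =>
        intro hj
        obtain ⟨c', h1, h2, h3⟩ := hloc3 (Sum.inr (Sum.inl (h, ⟨j, by omega⟩)))
          (Sum.inl (h, (ix K).symm ⟨j, by omega⟩)) (Sum.inr (Sum.inl (h, ⟨j + 1, hj⟩)))
        rw [ih] at h1
        rw [hu] at h2
        simp only [vl] at h1 h2 h3
        have h4 : (⟨j, by omega⟩ : Fin (Fintype.card K)) ≤ ix K (c' h) := by simpa using h1.symm
        have h5 : (ix K).symm ⟨j, by omega⟩ ≠ c' h := by simpa using h2.symm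
        have h6 : (⟨j, by omega⟩ : Fin (Fintype.card K)) ≠ ix K (c' h) := by
          intro h7
          apply h5
          rw [h7, Equiv.symm_apply_apply]
        rw [h3, decide_eq_true_eq]
        have h7 := lt_of_le_of_ne h4 h6
        exact h7
    have hpos : 0 < Fintype.card K := Fintype.card_pos_iff.2 ⟨c h⟩
    obtain ⟨c', h1, h2, -⟩ := hloc3 (Sum.inr (Sum.inl (h, ⟨Fintype.card K - 1, by omega⟩)))
      (Sum.inl (h, (ix K).symm ⟨Fintype.card K - 1, by omega⟩))
      (Sum.inl (h, (ix K).symm ⟨Fintype.card K - 1, by omega⟩))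
    rw [key] at h1
    rw [hu] at h2
    simp only [vl] at h1 h2
    have h4 : (⟨Fintype.card K - 1, by omega⟩ : Fin (Fintype.card K)) ≤ ix K (c' h) := by
      simpa using h1.symm
    have h5 : (ix K).symm ⟨Fintype.card K - 1, by omega⟩ ≠ c' h := by simpa using h2.symm
    apply h5
    rw [Equiv.symm_apply_eq]
    apply Fin.ext
    have h6 := (ix K (c' h)).2
    have h7 : Fintype.card K - 1 ≤ (ix K (c' h) : ℕ) := h4
    simp only
    omega
  -- the pairs
  have hY : ∀ b α α', a (ε (Sum.inl ((b, false), α))) = true →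
      a (ε (Sum.inl ((b, true), α'))) = true → α = c (b, false) ∧ α' = c (b, true) := by
    intro b α α' h1 h2
    have h3 : YK ε P (b, α, α') ∈ S := by
      apply ha
      rw [YK, viol_gk]
      intro x hx
      rw [UY, Finset.mem_insert, Finset.mem_insert, Finset.mem_map] at hx
      rcases hx with rfl | rfl | ⟨j, -, rfl⟩
      · exact h1
      · exact h2
      · exact hz j
    have h4 := (hS _ h3).2 _ rfl
    simp only [Prod.mk.injEq] at h4
    exact h4
  have hu : ∀ h, a (ε (Sum.inl (h, c h))) = true := by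
    rintro ⟨b, s⟩
    obtain ⟨α, hα⟩ := hex (b, false)
    obtain ⟨α', hα'⟩ := hex (b, true)
    obtain ⟨rfl, rfl⟩ := hY b α α' hα hα'
    cases s
    · exact hα
    · exact hα'
  intro h i j
  apply ha
  rw [XK, viol_gk]
  intro x hx
  rw [UX, Finset.mem_insert, Finset.mem_map] at hx
  rcases hx with rfl | ⟨j', -, rfl⟩
  · exact hw _ _ _ _ (hu h)
  · exact hz j'

end one

section cells

variable {d J D l L R n : ℕ} {K Q : Type} [Fintype K] [DecidableEq K] [Fintype Q] [DecidableEq Q]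

/-- the choices for all blocks of all cells -/
def fl (c : Kh J D K) : Fin (J * D) × Bool → K :=
  fun h => c (finProdFinEquiv.symm h.1).1 ((finProdFinEquiv.symm h.1).2, h.2)

theorem fl_bk (c : Kh J D K) (j : Fin J) (b : Fin D) (s : Bool) : fl c (bk j b, s) = c j (b, s) := by
  simp [fl, bk]

theorem fl_congr {c c' : Kh J D K} {b : Fin (J * D)} (h : c (cel b) = c' (cel b)) (s : Bool) :
    fl c (b, s) = fl c' (b, s) := by
  unfold fl
  exact congrFun h _

/-- the choices agree on the cells with index at least `i` -/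
def Agr (c : Kh J D K) (i : ℕ) (c' : Fin (J * D) × Bool → K) : Prop :=
  ∀ h : Fin (J * D) × Bool, i ≤ (cel h.1 : ℕ) → c' h = fl c h

theorem Agr.mono {c : Kh J D K} {i i' : ℕ} (hi : i ≤ i') {c' : Fin (J * D) × Bool → K}
    (h : Agr c i c') : Agr c i' c' := fun x hx => h x (hi.trans hx)

theorem agr_fl (c : Kh J D K) (i : ℕ) : Agr c i (fl c) := fun _ _ => rfl

/-- the clause is not a wrong derivative clause -/
def Ok (ε : GK (J * D) l L R K Q ≃ Fin n) (P : Fin (J * D) → {P : Finset (Fin R) // P.card = d})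
    (c : Kh J D K) (C : Clause n (d + 2)) : Prop :=
  ∀ y, C = YK ε P y → y.2 = (fl c (y.1, false), fl c (y.1, true))

/-- the chain -/
noncomputable def Sc (ε : GK (J * D) l L R K Q ≃ Fin n)
    (P : Fin (J * D) → {P : Finset (Fin R) // P.card = d}) (w : K → Fin l → Q) (c : Kh J D K)
    (i : ℕ) : Finset (Clause n (d + 2)) :=
  open Classical in
  Finset.univ.filter fun C => (∃ c', Agr c i c' ∧ ¬ Sats (ak ε w c') C) ∧ Ok ε P c C

theorem mem_Sc (ε : GK (J * D) l L R K Q ≃ Fin n)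
    (P : Fin (J * D) → {P : Finset (Fin R) // P.card = d}) (w : K → Fin l → Q) (c : Kh J D K)
    (i : ℕ) (C : Clause n (d + 2)) :
    C ∈ Sc ε P w c i ↔ (∃ c', Agr c i c' ∧ ¬ Sats (ak ε w c') C) ∧ Ok ε P c C := by
  classical
  simp [Sc]

/-- alive clauses of a cell -/
noncomputable def Xc (ε : GK (J * D) l L R K Q ≃ Fin n) (j : Fin J)
    (x : ((Fin D × Bool) × Fin l) × (Q × Fin (L * R.choose (d + 1)))) : Clause n (d + 2) :=
  XK (d := d) ε (((bk j x.1.1.1, x.1.1.2), x.1.2), x.2)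

/-- derivative clauses of a cell -/
noncomputable def Yc (ε : GK (J * D) l L R K Q ≃ Fin n)
    (P : Fin (J * D) → {P : Finset (Fin R) // P.card = d}) (j : Fin J)
    (y : Fin D × K × K) : Clause n (d + 2) :=
  YK ε P (bk j y.1, y.2)

/-- free clauses for the cell `j` -/
noncomputable def Zc (ε : GK (J * D) l L R K Q ≃ Fin n)
    (P : Fin (J * D) → {P : Finset (Fin R) // P.card = d}) (w : K → Fin l → Q) (j : Fin J)
    (c : Kh J D K) : Finset (Clause n (d + 2)) :=
  open Classical in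
  Finset.univ.filter fun C => (∃ c', Agr c (j + 1) c' ∧ ¬ Sats (ak ε w c') C) ∧ Ok ε P c C ∧
    (∀ x, C ≠ Xc (d := d) ε j x) ∧ ∀ y, C ≠ Yc ε P j y

theorem mem_Zc (ε : GK (J * D) l L R K Q ≃ Fin n)
    (P : Fin (J * D) → {P : Finset (Fin R) // P.card = d}) (w : K → Fin l → Q) (j : Fin J)
    (c : Kh J D K) (C : Clause n (d + 2)) :
    C ∈ Zc ε P w j c ↔ (∃ c', Agr c (j + 1) c' ∧ ¬ Sats (ak ε w c') C) ∧ Ok ε P c C ∧
    (∀ x, C ≠ Xc (d := d) ε j x) ∧ ∀ y, C ≠ Yc ε P j y := by
  classical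
  simp [Zc]

theorem inj_XYc (ε : GK (J * D) l L R K Q ≃ Fin n)
    (P : Fin (J * D) → {P : Finset (Fin R) // P.card = d}) (j : Fin J) :
    Function.Injective (Sum.elim (Xc (d := d) ε j) (Yc ε P j)) := by
  have H := inj_XYK (d := d) ε P
  rintro (x | y) (x' | y') h
  · have h1 := @H (Sum.inl _) (Sum.inl _) h
    simp only [Sum.inl.injEq, Prod.mk.injEq] at h1
    obtain ⟨⟨⟨h2, h3⟩, h4⟩, h5⟩ := h1
    rw [show x = x' from Prod.ext (Prod.ext (Prod.ext (bk_inj h2) h3) h4) h5]
  · have h1 := @H (Sum.inl _) (Sum.inr _) h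
    simp at h1
  · have h1 := @H (Sum.inr _) (Sum.inl _) h
    simp at h1
  · have h1 := @H (Sum.inr _) (Sum.inr _) h
    simp only [Sum.inr.injEq, Prod.mk.injEq] at h1
    rw [show y = y' from Prod.ext (bk_inj h1.1) h1.2]

theorem not_Y_of_X (ε : GK (J * D) l L R K Q ≃ Fin n)
    (P : Fin (J * D) → {P : Finset (Fin R) // P.card = d}) (x y) :
    XK (d := d) ε x ≠ YK ε P y := by
  intro h
  have H := inj_XYK (d := d) ε P
  have h1 := @H (Sum.inl x) (Sum.inr y) h
  simp at h1

theorem ok_viol (ε : GK (J * D) l L R K Q ≃ Fin n)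
    (P : Fin (J * D) → {P : Finset (Fin R) // P.card = d}) (w : K → Fin l → Q) (c : Kh J D K)
    (C : Clause n (d + 2)) (h : ¬ Sats (ak ε w (fl c)) C) : Ok ε P c C := by
  rintro y rfl
  exact (viol_YK ε P w _ y).1 h

/-- THE CELLS OF THE SAT GADGET WITH CODE WORDS -/
noncomputable def satCode (ε : GK (J * D) l L R K Q ≃ Fin n)
    (P : Fin (J * D) → {P : Finset (Fin R) // P.card = d}) (w : K → Fin l → Q) (hd : 1 ≤ d)
    (hk : d + 2 ≤ n) (hw : ∀ i a, ∃ k, w k i = a) : CodeGadget (SatP n (d + 2)) J D l (L * R.choose (d + 1)) w where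
  S := Sc ε P w
  X := Xc ε
  Y := Yc ε P
  Z := Zc ε P w
  mono := by
    intro c i C hC
    rw [mem_Sc] at hC ⊢
    obtain ⟨⟨c', h1, h2⟩, h3⟩ := hC
    exact ⟨⟨c', h1.mono (Nat.le_succ i), h2⟩, h3⟩
  inj := inj_XYc ε P
  XZ := by
    intro j c x hx
    rw [mem_Zc] at hx
    exact hx.2.2.1 x rfl
  YZ := by
    intro j c y hy
    rw [mem_Zc] at hy
    exact hy.2.2.2 y rfl
  Zc := by
    have key : ∀ (j : Fin J) (c c' : Kh J D K), (∀ i, i ≠ j → c i = c' i) →
        ∀ e ∈ Zc ε P w j c, e ∈ Zc ε P w j c' := by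
      intro j c c' h e he
      rw [mem_Zc] at he ⊢
      obtain ⟨⟨c1, h1, h2⟩, hok, hX, hY⟩ := he
      refine ⟨⟨c1, ?_, h2⟩, ?_, hX, hY⟩
      · intro x hx
        rw [h1 x hx]
        obtain ⟨b, s⟩ := x
        refine fl_congr (h _ ?_) s
        intro hj
        simp only at hx
        rw [hj] at hx
        omega
      · intro z hz
        have hz1 := hok z hz
        have hj : cel z.1 ≠ j := by
          intro hj
          obtain ⟨b', hb'⟩ := exists_bk z.1
          rw [hj] at hb'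
          apply hY (b', z.2)
          rw [hz, Yc]
          congr 1
          exact Prod.ext hb' rfl
        rw [← fl_congr (h _ hj), ← fl_congr (h _ hj)]
        exact hz1
    intro j c c' h
    ext e
    exact ⟨key j c c' h e, key j c' c (fun i hi => (h i hi).symm) e⟩
  yes := by
    intro c i _
    refine ⟨ak ε w (fl c), fun C hC => ?_⟩
    rw [mem_Sc]
    exact ⟨⟨fl c, agr_fl c i, hC⟩, ok_viol ε P w c C hC⟩
  no := by
    intro c j x hx hP
    have h1 := force ε P w hd (by rw [Fintype.card_congr ε, Fintype.card_fin]; exact hk) (fl c)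
      (Sc ε P w c (j + 1) \ {Xc (d := d) ε j x}) hP (by
      intro e he
      have h2 := Finset.mem_sdiff.1 he
      rw [mem_Sc] at h2
      obtain ⟨⟨⟨c', -, h3⟩, h4⟩, -⟩ := h2
      exact ⟨⟨c', h3⟩, h4⟩) (bk j x.1.1.1, x.1.1.2) x.1.2 x.2.2
    rw [fl_bk] at h1
    rw [mem_Mk] at hx
    have h2 : XK (d := d) ε (((bk j x.1.1.1, x.1.1.2), x.1.2),
        (w (c j (x.1.1.1, x.1.1.2)) x.1.2, x.2.2)) = Xc (d := d) ε j x := by
      rw [Xc]
      have : (w (c j (x.1.1.1, x.1.1.2)) x.1.2, x.2.2) = x.2 := by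
        rw [show (x.1.1.1, x.1.1.2) = x.1.1 from rfl, ← hx]
      rw [this]
    rw [h2] at h1
    exact (Finset.mem_sdiff.1 h1).2 (Finset.mem_singleton_self _)
  low := by
    intro c j C hC
    rw [mem_Sc] at hC
    obtain ⟨⟨c', h1, h2⟩, hok⟩ := hC
    by_cases hX : ∃ z, C = Xc (d := d) ε j z
    · obtain ⟨z, rfl⟩ := hX
      refine Or.inr (Or.inl ⟨z, ?_, rfl⟩)
      rw [mem_Mk]
      obtain ⟨⟨h, i⟩, e, s⟩ := z
      rw [Xc, viol_XK] at h2
      have h3 := h1 (bk j h.1, h.2) (by simp)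
      rw [h3, fl_bk] at h2
      exact h2
    · by_cases hY : ∃ z, C = Yc ε P j z
      · obtain ⟨z, hz⟩ := hY
        refine Or.inr (Or.inr ⟨z, ?_, hz⟩)
        rw [mem_Yk]
        have h3 := hok _ hz
        refine ⟨z.1, ?_⟩
        rw [fl_bk, fl_bk] at h3
        exact Prod.ext rfl h3
      · push Not at hX hY
        left
        rw [mem_Zc]
        exact ⟨⟨c', h1.mono (Nat.le_succ _), h2⟩, hok, hX, hY⟩
  high := by
    intro c j C hC
    rw [mem_Sc]
    rcases hC with hC | ⟨x, rfl⟩ | ⟨y, hy, rfl⟩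
    · rw [mem_Zc] at hC
      exact ⟨hC.1, hC.2.1⟩
    · obtain ⟨⟨h, i⟩, a, s⟩ := x
      obtain ⟨k, hka⟩ := hw i a
      refine ⟨⟨fun h => if cel h.1 = j then k else fl c h, ?_, ?_⟩, ?_⟩
      · intro h hh
        have h1 : cel h.1 ≠ j := by
          intro hj
          rw [hj] at hh
          omega
        simp only
        rw [if_neg h1]
      · rw [Xc, viol_XK]
        simp [hka]
      · intro z hz
        exact absurd hz (not_Y_of_X ε P _ _)
    · obtain ⟨b, rfl⟩ := (mem_Yk (c j) y).1 hy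
      have h1 : ¬ Sats (ak ε w (fl c)) (Yc ε P j (b, c j (b, false), c j (b, true))) := by
        rw [Yc, viol_YK]
        simp only [fl_bk]
      exact ⟨⟨fl c, agr_fl c _, h1⟩, ok_viol ε P w c _ h1⟩

end cells

end Pool.AD.SATK
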