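import Pool.Agent.Helper34.AD.SatK

/-!
Adaptive randomised algorithms with zero tests (MP_b6562f_lc): the symmetries of the gadget for
`k`-SAT with code words.
-/

set_option autoImplicit false
set_option linter.unusedSectionVars false

namespace Pool.AD.SATK

open Finset Pool.SatDet
open Pool.AD.SAT (litE litE_apply litE_symm clE mem_clE asE sats_clE clE_mem_Aut supp_clE)

variable {d J D l L R n : ℕ} {K Q : Type} [Fintype K] [DecidableEq K] [Fintype Q] [DecidableEq Q]

/-- the twin variables -/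
def Tw (P : Fin (J * D) → {P : Finset (Fin R) // P.card = d}) (j : ℕ) :
    GK (J * D) l L R K Q → Prop
  | Sum.inl (h, _) => j ≤ (cel h.1 : ℕ)
  | Sum.inr (Sum.inl (h, _)) => j ≤ (cel h.1 : ℕ)
  | Sum.inr (Sum.inr (Sum.inl (((h, _), _), _))) => j ≤ (cel h.1 : ℕ)
  | Sum.inr (Sum.inr (Sum.inr t)) => ∀ b, (cel b : ℕ) < j → t ∉ (P b).1

theorem vl_Tw (P : Fin (J * D) → {P : Finset (Fin R) // P.card = d}) (w : K → Fin l → Q) (j : ℕ)
    (c : Kh J D K) (c' : Fin (J * D) × Bool → K) (h : Agr c j c') (x : GK (J * D) l L R K Q)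
    (hx : Tw P j x) : vl w c' x = vl w (fl c) x := by
  rcases x with ⟨h', α⟩ | ⟨h', i⟩ | ⟨⟨⟨h', i⟩, a⟩, t⟩ | t
  · have := h h' hx
    simp only [vl, this]
  · have := h h' hx
    simp only [vl, this]
  · have := h h' hx
    simp only [vl, this]
  · rfl

open Classical in
/-- the twin variables as a set -/
noncomputable def TwS (ε : GK (J * D) l L R K Q ≃ Fin n)
    (P : Fin (J * D) → {P : Finset (Fin R) // P.card = d}) (j : ℕ) : Finset (Fin n) :=
  Finset.univ.filter fun i => Tw P j (ε.symm i)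

theorem mem_TwS (ε : GK (J * D) l L R K Q ≃ Fin n)
    (P : Fin (J * D) → {P : Finset (Fin R) // P.card = d}) (j : ℕ) (i : Fin n) :
    i ∈ TwS ε P j ↔ Tw P j (ε.symm i) := by
  simp [TwS]

/-- the variables of a derivative clause -/
theorem var_YK (ε : GK (J * D) l L R K Q ≃ Fin n)
    (P : Fin (J * D) → {P : Finset (Fin R) // P.card = d})
    (y : Fin (J * D) × K × K) (p : Fin n × Bool)
    (hp : p ∈ (YK ε P y).1) : ε.symm p.1 = Sum.inl ((y.1, false), y.2.1) ∨
      ε.symm p.1 = Sum.inl ((y.1, true), y.2.2) ∨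
      ∃ t ∈ (P y.1).1, ε.symm p.1 = Sum.inr (Sum.inr (Sum.inr t)) := by
  rw [YK, gk, mem_vcl] at hp
  obtain ⟨x, hx, h⟩ := Finset.mem_map.1 hp.1
  have h1 : ε.symm p.1 = x := by
    rw [← h]
    exact ε.symm_apply_apply x
  rw [h1]
  rw [UY, Finset.mem_insert, Finset.mem_insert, Finset.mem_map] at hx
  rcases hx with h2 | h2 | ⟨t, ht, h2⟩
  · exact Or.inl h2
  · exact Or.inr (Or.inl h2)
  · exact Or.inr (Or.inr ⟨t, ht, h2.symm⟩)

theorem not_Tw_YK (ε : GK (J * D) l L R K Q ≃ Fin n)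
    (P : Fin (J * D) → {P : Finset (Fin R) // P.card = d}) (j : ℕ)
    (y : Fin (J * D) × K × K) (hy : (cel y.1 : ℕ) < j)
    (p : Fin n × Bool) (hp : p ∈ (YK ε P y).1) : p.1 ∉ TwS ε P j := by
  rw [mem_TwS]
  intro hT
  rcases var_YK ε P y p hp with h | h | ⟨t, ht, h⟩
  · rw [h] at hT
    exact absurd hT (not_le.2 hy)
  · rw [h] at hT
    exact absurd hT (not_le.2 hy)
  · rw [h] at hT
    exact hT y.1 hy ht

theorem Tw_YK (ε : GK (J * D) l L R K Q ≃ Fin n)
    (P : Fin (J * D) → {P : Finset (Fin R) // P.card = d})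
    (hP : ∀ b b', b ≠ b' → Disjoint (P b).1 (P b').1) (j : ℕ)
    (y : Fin (J * D) × K × K) (hy : j ≤ (cel y.1 : ℕ)) :
    supp (YK ε P y) ⊆ TwS ε P j := by
  intro i hi
  obtain ⟨p, hp, rfl⟩ := Finset.mem_image.1 hi
  rw [mem_TwS]
  rcases var_YK ε P y p hp with h | h | ⟨t, ht, h⟩
  · rw [h]
    exact hy
  · rw [h]
    exact hy
  · rw [h]
    intro b hb htb
    have hne : b ≠ y.1 := by
      rintro rfl
      omega
    exact (Finset.disjoint_left.1 (hP b y.1 hne)) htb ht

/-- twin variables can be permuted -/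
theorem inv_Sc (ε : GK (J * D) l L R K Q ≃ Fin n)
    (P : Fin (J * D) → {P : Finset (Fin R) // P.card = d}) (w : K → Fin l → Q) (j : ℕ)
    (c : Kh J D K)
    (π : Equiv.Perm (Fin n)) (h1 : ∀ x ∉ TwS ε P j, π x = x) (h2 : ∀ x ∈ TwS ε P j, π x ∈ TwS ε P j)
    (φ : Fin n → Bool) (hφ : ∀ i, φ i = xor (ak ε w (fl c) i) (ak ε w (fl c) (π i))) :
    (∀ c', Agr c j c' → asE π φ (ak ε w c') = ak ε w c') ∧
    (Sc ε P w c j).image (clE π φ) = Sc ε P w c j := by
  have hac : ∀ c', Agr c j c' → ∀ i ∈ TwS ε P j, ak ε w c' i = ak ε w (fl c) i := by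
    intro c' hc' i hi
    rw [mem_TwS] at hi
    exact vl_Tw P w j c c' hc' _ hi
  have has : ∀ c', Agr c j c' → asE π φ (ak ε w c') = ak ε w c' := by
    intro c' hc'
    funext i
    obtain ⟨i, rfl⟩ := π.surjective i
    rw [asE, Equiv.symm_apply_apply, hφ]
    by_cases hi : i ∈ TwS ε P j
    · rw [hac c' hc' i hi, hac c' hc' _ (h2 i hi)]
      simp
    · rw [h1 i hi]
      simp
  refine ⟨has, ?_⟩
  refine Finset.eq_of_subset_of_card_le ?_ ?_
  · intro C' hC'
    obtain ⟨C, hC, rfl⟩ := Finset.mem_image.1 hC'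
    rw [mem_Sc] at hC ⊢
    obtain ⟨⟨c', hc', hv⟩, hok⟩ := hC
    have hv' : ¬ Sats (ak ε w c') (clE π φ C) := by
      rw [← has c' hc', sats_clE]
      exact hv
    refine ⟨⟨c', hc', hv'⟩, ?_⟩
    intro y hy
    by_cases hb : (cel y.1 : ℕ) < j
    · apply hok
      apply Subtype.ext
      ext p
      have hfix : ∀ q : Fin n × Bool, q.1 ∉ TwS ε P j → litE π φ q = q := by
        intro q hq
        rw [litE_apply, hφ, h1 _ hq]
        simp
      have hnot := not_Tw_YK ε P j y hb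
      rw [← hy] at hnot ⊢
      constructor
      · intro hp
        have h3 := (mem_clE π φ C p).2 hp
        have h4 : p.1 ∉ TwS ε P j := by
          intro h5
          exact hnot _ h3 (h2 _ h5)
        rwa [hfix p h4] at h3
      · intro hp
        have h4 := hnot p hp
        rw [← mem_clE π φ C p, hfix p h4]
        exact hp
    · push Not at hb
      rw [hy, viol_YK] at hv'
      rw [hv', hc' (y.1, false) hb, hc' (y.1, true) hb]
  · rw [Finset.card_image_of_injective _ (clE π φ).injective]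

open Classical in
/-- the orbit -/
noncomputable def Ob (ε : GK (J * D) l L R K Q ≃ Fin n)
    (P : Fin (J * D) → {P : Finset (Fin R) // P.card = d}) (w : K → Fin l → Q) (c : Kh J D K)
    (j : ℕ) : Finset (Clause n (d + 2)) :=
  Finset.univ.filter fun C => ¬ Sats (ak ε w (fl c)) C ∧ supp C ⊆ TwS ε P j

theorem mem_Ob (ε : GK (J * D) l L R K Q ≃ Fin n)
    (P : Fin (J * D) → {P : Finset (Fin R) // P.card = d}) (w : K → Fin l → Q) (c : Kh J D K)
    (j : ℕ) (C : Clause n (d + 2)) :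
    C ∈ Ob ε P w c j ↔ ¬ Sats (ak ε w (fl c)) C ∧ supp C ⊆ TwS ε P j := by
  simp [Ob]

theorem card_Ob (ε : GK (J * D) l L R K Q ≃ Fin n)
    (P : Fin (J * D) → {P : Finset (Fin R) // P.card = d}) (w : K → Fin l → Q) (c : Kh J D K)
    (j : ℕ) : (R - d * (J * D)).choose (d + 2) ≤ (Ob ε P w c j).card := by
  classical
  have h1 : (Ob ε P w c j).card = (TwS ε P j).card.choose (d + 2) := by
    have := card_viol (n := n) (k := d + 2) (ak ε w (fl c)) (fun T => T ⊆ TwS ε P j)
    rw [← Finset.card_powersetCard]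
    rw [show (Finset.powersetCard (d + 2) (TwS ε P j)) = (Finset.powersetCard (d + 2)
      (Finset.univ : Finset (Fin n))).filter fun T => T ⊆ TwS ε P j from ?_]
    · rw [← this]
      congr 1
    · ext T
      simp only [Finset.mem_powersetCard, Finset.mem_filter, Finset.subset_univ, true_and]
      tauto
  rw [h1]
  refine Nat.choose_le_choose _ ?_
  set U : Finset (Fin R) := Finset.univ.biUnion fun b : Fin (J * D) => (P b).1 with hU
  have hUc : U.card ≤ d * (J * D) := by
    calc U.card ≤ ∑ b : Fin (J * D), (P b).1.card := Finset.card_biUnion_le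
      _ = d * (J * D) := by
        rw [Finset.sum_congr rfl fun b _ => (P b).2, Finset.sum_const, Finset.card_univ,
          Fintype.card_fin, smul_eq_mul, mul_comm]
  have h2 : ((Finset.univ \ U).image fun t : Fin R => ε (Sum.inr (Sum.inr (Sum.inr t)))) ⊆
      TwS ε P j := by
    intro i hi
    obtain ⟨t, ht, rfl⟩ := Finset.mem_image.1 hi
    rw [mem_TwS, Equiv.symm_apply_apply]
    intro b _ hb
    refine (Finset.mem_sdiff.1 ht).2 ?_
    rw [hU, Finset.mem_biUnion]
    exact ⟨b, Finset.mem_univ _, hb⟩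
  refine le_trans ?_ (Finset.card_le_card h2)
  rw [Finset.card_image_of_injective, Finset.card_sdiff_of_subset (Finset.subset_univ _),
    Finset.card_univ, Fintype.card_fin]
  · omega
  · intro t t' h
    have := ε.injective h
    simpa using this

/-- THE SYMMETRY OF THE CHAIN: the derivative clauses of the cell `j` lie in a large orbit of the
stabilizer of the input `j` of the chain. -/
theorem orbit (ε : GK (J * D) l L R K Q ≃ Fin n)
    (P : Fin (J * D) → {P : Finset (Fin R) // P.card = d})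
    (hP : ∀ b b', b ≠ b' → Disjoint (P b).1 (P b').1) (w : K → Fin l → Q) (c : Kh J D K)
    (j : Fin J) :
    (∀ y ∈ Yk (c j), Yc ε P j y ∈ Ob ε P w c j) ∧
    ∀ e ∈ Ob ε P w c j, ∀ e' ∈ Ob ε P w c j, ∃ g ∈ AutP (SatP n (d + 2)),
      (Sc ε P w c j).image g = Sc ε P w c j ∧ g e = e' := by
  refine ⟨?_, ?_⟩
  · intro y hy
    obtain ⟨b, rfl⟩ := (mem_Yk (c j) y).1 hy
    rw [mem_Ob]
    refine ⟨?_, Tw_YK ε P hP j _ (by simp)⟩
    rw [Yc, viol_YK]
    simp only [fl_bk]
  · intro e he e' he'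
    rw [mem_Ob] at he he'
    obtain ⟨π, h1, h2, h3⟩ := exists_perm (TwS ε P j) (supp e) (supp e') he.2 he'.2
      (by rw [card_supp, card_supp])
    set φ : Fin n → Bool := fun i => xor (ak ε w (fl c) i) (ak ε w (fl c) (π i)) with hφ
    obtain ⟨h4, h5⟩ := inv_Sc ε P w j c π h1 h2 φ (fun i => rfl)
    refine ⟨clE π φ, clE_mem_Aut π φ, h5, ?_⟩
    have h6 : ¬ Sats (ak ε w (fl c)) (clE π φ e) := by
      rw [← h4 (fl c) (agr_fl c _), sats_clE]
      exact he.1
    rw [eq_vcl _ _ h6, eq_vcl _ _ he'.1]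
    have h7 : supp (clE π φ e) = supp e' := by rw [supp_clE, h3]
    apply Subtype.ext
    ext p
    rw [mem_vcl, mem_vcl, h7]

end Pool.AD.SATK
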